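import Pool.Agent.Lib.MP_799fdf_al.Inn.RBA

/-! # The soluble radical -/

set_option autoImplicit false

open scoped commutatorElement

namespace MP799fdf

namespace Inn

variable {K K' : Type*} [Group K] [Group K']

/-- PROOF. `S.map mk_T` ... : if `dser S a = ⊥`, `dser T b = ⊥` (`dser_solv`), then the image of
`dser (S ⊔ T) a` in `K ⧸ T` is `dser (S.map mk) a = (dser S a).map mk = ⊥`, so
`dser (S ⊔ T) a ≤ T` and `dser (S ⊔ T) (a + b) ≤ dser T b = ⊥`. -/
theorem solv_sup (S T : Subgroup K) (hT : T.Normal) (h1 : Group.IsSolvable S)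
    (h2 : Group.IsSolvable T) : Group.IsSolvable ↥(S ⊔ T) := by
  haveI := hT
  obtain ⟨a, ha⟩ := dser_solv S h1
  obtain ⟨b, hb⟩ := dser_solv T h2
  have hmap : (S ⊔ T).map (QuotientGroup.mk' T) = S.map (QuotientGroup.mk' T) := by
    have hTb : T.map (QuotientGroup.mk' T) = ⊥ := by
      rw [Subgroup.map_eq_bot_iff, QuotientGroup.ker_mk']
    rw [Subgroup.map_sup, hTb, sup_bot_eq]
  have key : dser (S ⊔ T) a ≤ T := by
    have h3 : (dser (S ⊔ T) a).map (QuotientGroup.mk' T) = ⊥ := by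
      rw [dser_map, hmap, ← dser_map, ha, Subgroup.map_bot]
    rw [Subgroup.map_eq_bot_iff, QuotientGroup.ker_mk'] at h3
    exact h3
  refine solv_of_dser (S ⊔ T) (a + b) ?_
  rw [dser_add]
  exact le_bot_iff.mp (le_trans (dser_mono key b) (le_of_eq hb))

/-- The soluble radical. PROOF. Take `S` maximal among the soluble normal subgroups (finite), `⊥` is
one; `S ⊔ T` is soluble (`solv_sup`) and normal. -/
theorem exists_radical (K : Type*) [Group K] [Finite K] : ∃ S : Subgroup K, S.Normal ∧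
    Group.IsSolvable S ∧ ∀ T : Subgroup K, T.Normal → Group.IsSolvable T → T ≤ S := by
  have hfin : Set.Finite {S : Subgroup K | S.Normal ∧ Group.IsSolvable S} := Set.toFinite _
  have hne : Set.Nonempty {S : Subgroup K | S.Normal ∧ Group.IsSolvable S} :=
    ⟨⊥, inferInstance, inferInstance⟩
  obtain ⟨S, hS⟩ := hfin.exists_maximal hne
  refine ⟨S, hS.1.1, hS.1.2, ?_⟩
  intro T hT hTs
  haveI := hS.1.1
  haveI := hT
  have h4 : S ⊔ T ∈ {S : Subgroup K | S.Normal ∧ Group.IsSolvable S} :=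
    ⟨inferInstance, solv_sup S T hT hS.1.2 hTs⟩
  exact le_trans le_sup_right (hS.2 h4 le_sup_left)

end Inn

end MP799fdf
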