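import Pool.Agent.Lib.MP_799fdf_al.Inn.LocB
import Pool.Agent.Lib.MP_799fdf_al.Inn.RBB

/-! # Local subgroups that centralise the monolith -/

set_option autoImplicit false

open scoped commutatorElement

namespace MP799fdf

namespace Inn

variable {K : Type} [Group K] [Finite K]

private theorem kstrA_not_le {R N : Subgroup K} (h : Loc R N) (S : Subgroup K)
    (hs : Group.IsSolvable S) : ¬ R ≤ S := by
  intro hle
  obtain ⟨n, hn⟩ := dser_solv S hs
  have h1 : ∀ m, dser R m = R := by
    intro m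
    induction m with
    | zero => rfl
    | succ m ih =>
      have e : dser R (m + 1) = ⁅dser R m, dser R m⁆ := rfl
      rw [e, ih]
      exact h.perf
  have h2 : R ≤ ⊥ := by
    calc R = dser R n := (h1 n).symm
      _ ≤ dser S n := dser_mono hle n
      _ = ⊥ := hn
  exact absurd (h.lt.trans_le h2) not_lt_bot

/-- PROOF. `T = res L` (`res_normal`, `res_perfect`, `res_le`; `T ≠ ⊥` since otherwise `L` is soluble,
`res_eq`, `solv_of_dser`). Let `M < T` be a maximal element among the normal subgroups of `K` properly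
contained in `T` (`⊥` is one), and `R` minimal among the normal subgroups with `R ≤ T`, `¬ R ≤ M`;
`N = R ⊓ M`. `R ⊔ M = T`. `⁅R, R⁆` is not `≤ M`: otherwise `T = ⁅R ⊔ M, R ⊔ M⁆ ≤ M`. So
`⁅R, R⁆ = R` by minimality, and normal subgroups in `R` are `≤ M` or `= R`. -/
theorem exists_loc (L : Subgroup K) (hL : L.Normal) (h : ¬ Group.IsSolvable L) :
    ∃ R N : Subgroup K, Loc R N ∧ R ≤ L := by
  have hTn : (res L).Normal := res_normal L hL
  have hTp : ⁅res L, res L⁆ = res L := res_perfect L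
  have hTL : res L ≤ L := res_le L
  have hT0 : res L ≠ ⊥ := by
    intro h0
    obtain ⟨n, h1, _⟩ := res_eq L
    exact h (solv_of_dser L n (h1.symm.trans h0))
  obtain ⟨M, hM⟩ := (Set.toFinite {M : Subgroup K | M.Normal ∧ M < res L}).exists_maximal
    ⟨⊥, inferInstance, bot_lt_iff_ne_bot.2 hT0⟩
  have hMn : M.Normal := hM.prop.1
  have hMT : M < res L := hM.prop.2
  obtain ⟨R, hR⟩ := (Set.toFinite {R : Subgroup K | R.Normal ∧ R ≤ res L ∧ ¬ R ≤ M}).exists_minimal
    ⟨res L, hTn, le_rfl, not_le_of_gt hMT⟩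
  have hRn : R.Normal := hR.prop.1
  have hRT : R ≤ res L := hR.prop.2.1
  have hRM : ¬ R ≤ M := hR.prop.2.2
  have hmin : ∀ Z : Subgroup K, Z.Normal → Z ≤ R → ¬ Z ≤ M → Z = R := fun Z hZ hZR hZM =>
    le_antisymm hZR (hR.le_of_le ⟨hZ, hZR.trans hRT, hZM⟩ hZR)
  have hsup : R ⊔ M = res L := by
    by_contra hne
    have hlt : R ⊔ M < res L := lt_of_le_of_ne (sup_le hRT hMT.le) hne
    have hn : (R ⊔ M).Normal := inferInstance
    exact hRM (le_sup_left.trans (hM.le_of_ge ⟨hn, hlt⟩ le_sup_right))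
  have hcomm : ¬ ⁅R, R⁆ ≤ M := by
    intro hle
    have hker : (QuotientGroup.mk' M).ker = M := QuotientGroup.ker_mk' M
    have hM0 : M.map (QuotientGroup.mk' M) = ⊥ := by
      rw [Subgroup.map_eq_bot_iff, hker]
    have h1 : (res L).map (QuotientGroup.mk' M) = R.map (QuotientGroup.mk' M) := by
      rw [← hsup, Subgroup.map_sup, hM0, sup_bot_eq]
    have h2 : (res L).map (QuotientGroup.mk' M) = ⊥ := by
      rw [← hTp, Subgroup.map_commutator, h1, ← Subgroup.map_commutator,
        Subgroup.map_eq_bot_iff, hker]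
      exact hle
    rw [Subgroup.map_eq_bot_iff, hker] at h2
    exact not_le_of_gt hMT h2
  have hcn : ⁅R, R⁆.Normal := Subgroup.commutator_normal R R
  have hperf : ⁅R, R⁆ = R := hmin _ hcn R.commutator_le_self hcomm
  refine ⟨R, R ⊓ M, ⟨hRn, inferInstance, ?_, hperf, ?_⟩, hRT.trans hTL⟩
  · exact lt_of_le_of_ne inf_le_left fun e => hRM (inf_eq_left.1 e)
  · intro Z hZ hZR
    by_cases hZM : Z ≤ M
    · exact Or.inl (le_inf hZR hZM)
    · exact Or.inr (hmin Z hZ hZR hZM)

/-- PROOF. `S ⊓ R` is normal and soluble; it is not `R` (`R` is perfect and `≠ ⊥`, `dser R n = R`), so it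
is `≤ N`, and `⁅S, R⁆ ≤ S ⊓ R ≤ N`. -/
theorem solv_le_cen {R N : Subgroup K} (h : Loc R N) (S : Subgroup K) (hS : S.Normal)
    (hs : Group.IsSolvable S) : S ≤ cen R N h.nN := by
  have hR := h.nR
  have hle : S ⊓ R ≤ N := by
    rcases h.max (S ⊓ R) inferInstance inf_le_right with h1 | h1
    · exact h1
    · exact absurd (inf_eq_right.1 h1) (kstrA_not_le h S hs)
  intro c hc x hx
  refine hle (Subgroup.mem_inf.2 ⟨?_, ?_⟩)
  · exact Subgroup.commutator_le_left S R (Subgroup.commutator_mem_commutator hc hx)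
  · exact Subgroup.commutator_le_right S R (Subgroup.commutator_mem_commutator hc hx)

/-- PROOF. As `solv_le_cen`: `S` soluble, `R ≤ S` impossible. -/
theorem loc_not_le_solv {R N : Subgroup K} (h : Loc R N) (S : Subgroup K)
    (hs : Group.IsSolvable S) : ¬ R ≤ S :=
  kstrA_not_le h S hs


end Inn

end MP799fdf
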