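import Pool.Agent.Lib.MP_799fdf_al.Inn.RBA

/-! # Irreducible groups with a soluble normal subgroup of index at most `m` -/

set_option autoImplicit false

open scoped commutatorElement

namespace MP799fdf

namespace Inn

open Finset

/-- The formation generated by the members of `form K` of smaller order with a soluble normal subgroup
of index at most `m`. -/
def lowM (m : ℕ) (K : Type) [Group K] [Finite K] : Formation :=
  gen fun H _ _ => (form K).mem H ∧ Nat.card H < Nat.card K ∧ RB m H

/-- The formation generated by the members of `form K` with a soluble normal subgroup of index at most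
`m`. -/
def genM (m : ℕ) (K : Type) [Group K] [Finite K] : Formation :=
  gen fun H _ _ => (form K).mem H ∧ RB m H

/-- The formation generated by the members of `form K` of order at most `B`. -/
def genB (B : ℕ) (K : Type) [Group K] [Finite K] : Formation :=
  gen fun H _ _ => (form K).mem H ∧ Nat.card H ≤ B

/-- PROOF. `form_le`. -/
theorem genB_le {B : ℕ} {K H : Type} [Group K] [Finite K] [Group H] [Finite H]
    (h : (form K).mem H) : (genB B H).IsSub (genB B K) := by
  intro X _ _ hX F hF
  exact hX F fun Y _ _ hY => hF Y ⟨form_le (form K) h Y hY.1, hY.2⟩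

theorem genM_le {m : ℕ} {K H : Type} [Group K] [Finite K] [Group H] [Finite H]
    (h : (form K).mem H) : (genM m H).IsSub (genM m K) := by
  intro X _ _ hX F hF
  exact hX F fun Y _ _ hY => hF Y ⟨form_le (form K) h Y hY.1, hY.2⟩

/-- PROOF. Copy the proof of `irr_mono` (`Main.lean`): the quotients satisfy `RB m` (`rb_surj`). -/
theorem irr_monoM {m : ℕ} {K : Type} [Group K] [Finite K] [Nontrivial K] (hm : RB m K)
    (h : ¬ (lowM m K).mem K) : ∃ V : Subgroup K, IsMono V := by
  obtain ⟨V, hV⟩ := exists_minimal_of_wellFoundedLT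
    (fun Z : Subgroup K => Z.Normal ∧ Z ≠ ⊥) ⟨⊤, inferInstance, top_ne_bot⟩
  have hVn : V.Normal := hV.prop.1
  refine ⟨V, hVn, hV.prop.2, ?_⟩
  intro Z hZ hZ0
  by_contra hVZ
  have hinf : V ⊓ Z = ⊥ := by
    by_contra hne
    have h1 : V ≤ V ⊓ Z := hV.le_of_le ⟨inferInstance, hne⟩ inf_le_left
    exact hVZ (h1.trans inf_le_right)
  have hsmall : ∀ (N : Subgroup K) [N.Normal], N ≠ ⊥ → (lowM m K).mem (K ⧸ N) := by
    intro N hN hN0 F hF
    refine hF _ ⟨(form K).quot K N (mem_form K), ?_,
      rb_surj (QuotientGroup.mk' N) (QuotientGroup.mk'_surjective N) hm⟩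
    have h1 := Subgroup.card_eq_card_quotient_mul_card_subgroup N
    have h2 : 1 < Nat.card N := by
      rw [Subgroup.one_lt_card_iff_ne_bot]
      exact hN0
    have h3 : 0 < Nat.card (K ⧸ N) := Nat.card_pos
    rw [h1]
    exact lt_mul_of_one_lt_right h3 h2
  refine h ((lowM m K).of_two (QuotientGroup.mk' V) (QuotientGroup.mk' Z)
    (QuotientGroup.mk'_surjective V) (QuotientGroup.mk'_surjective Z) (hsmall V hV.prop.2)
    (hsmall Z hZ0) ?_)
  intro x hx1 hx2
  have h1 : x ∈ V := by
    rw [← QuotientGroup.ker_mk' V]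
    exact hx1
  have h2 : x ∈ Z := by
    rw [← QuotientGroup.ker_mk' Z]
    exact hx2
  have h3 : x ∈ V ⊓ Z := ⟨h1, h2⟩
  rw [hinf] at h3
  exact Subgroup.mem_bot.1 h3

/-- PROOF. Copy the proof of `few_abelian` (`Main.lean`): the subgroups `X` satisfy `RB m`
(`rb_subgroup`). -/
theorem few_abelianM {m c : ℕ} {K : Type} [Group K] [Finite K] (hm : RB m K)
    (hK : ¬ (lowM m K).mem K)
    (hc : ∀ F : Subgroup K, Group.IsNilpotent F → gam F (c + 1) = ⊥) {r : ℕ}
    (U : Fin r → Subgroup (K ⧸ frattini K)) (hU : ∀ i, IsChief (U i) ⊥)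
    (hab : ∀ x ∈ ⨆ i, U i, ∀ y ∈ ⨆ i, U i, x * y = y * x)
    (hcard : Nat.card ↥(⨆ i, U i) = ∏ i, Nat.card (U i))
    (M : Subgroup (K ⧸ frattini K)) (h1 : (⨆ i, U i) ⊔ M = ⊤) (h2 : (⨆ i, U i) ⊓ M = ⊥) :
    r ≤ c := by
  classical
  by_contra hrc
  have hr : c + 1 ≤ r := by omega
  set mk : K →* K ⧸ frattini K := QuotientGroup.mk' (frattini K) with hmk
  have hsurj : Function.Surjective mk := QuotientGroup.mk'_surjective _
  have hker : mk.ker = frattini K := QuotientGroup.ker_mk' _
  set L : Subgroup K := M.comap mk with hL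
  set N : Fin r → Subgroup K := fun i => (U i).comap mk with hN
  set F : Subgroup K := (⨆ i, U i).comap mk with hF
  have hUn : ∀ i, (U i).Normal := fun i => (hU i).nH
  have hSn : (⨆ i, U i).Normal := Subgroup.iSup_normal U
  have hFn : F.Normal := hSn.comap mk
  have hfF : frattini K ≤ F := by
    intro x hx
    show mk x ∈ ⨆ i, U i
    have : mk x = 1 := by rw [← MonoidHom.mem_ker, hker]; exact hx
    rw [this]
    exact Subgroup.one_mem _
  have hcomm : ⁅F, F⁆ ≤ frattini K := by
    rw [Subgroup.commutator_le]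
    intro x hx y hy
    rw [← hker, MonoidHom.mem_ker, map_commutatorElement, commutatorElement_eq_one_iff_mul_comm]
    exact hab _ hx _ hy
  have hnilp := nilpotent_of_quot F hFn hfF hcomm
  have hgam : gam F r = ⊥ := by
    have h3 := gam_anti F hFn hr
    rw [hc F hnilp] at h3
    exact le_bot_iff.mp h3
  have hr0 : 0 < r := by omega
  have hmapL : L.map mk = M := Subgroup.map_comap_eq_self_of_surjective hsurj M
  have hmapN : ∀ i, (N i).map mk = U i := fun i => Subgroup.map_comap_eq_self_of_surjective hsurj (U i)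
  have hmapF : F.map mk = ⨆ i, U i := Subgroup.map_comap_eq_self_of_surjective hsurj _
  have hLker : frattini K ≤ L := by
    intro x hx
    show mk x ∈ M
    have : mk x = 1 := by rw [← MonoidHom.mem_ker, hker]; exact hx
    rw [this]
    exact Subgroup.one_mem _
  have htop_of : ∀ H : Subgroup K, L ≤ H → H.map mk = ⊤ → H = ⊤ := by
    intro H hLH hmap
    have h3 := Subgroup.comap_map_eq mk H
    rw [hmap, Subgroup.comap_top, hker, sup_eq_left.mpr (hLker.trans hLH)] at h3
    exact h3.symm
  have htop : L ⊔ ⨆ i, N i = ⊤ := by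
    refine htop_of _ le_sup_left ?_
    rw [Subgroup.map_sup, Subgroup.map_iSup, hmapL, iSup_congr hmapN, sup_comm]
    exact h1
  have hLF : L ⊔ F = ⊤ := by
    refine htop_of _ le_sup_left ?_
    rw [Subgroup.map_sup, hmapL, hmapF, sup_comm]
    exact h1
  have hNF : ∀ i, N i ≤ F := fun i => Subgroup.comap_mono (le_iSup U i)
  refine hK (L1 (lowM m K) hr0 L N F hFn hNF hgam htop fun S hS => ?_)
  set X : Subgroup K := L ⊔ ⨆ i ∈ S, N i with hX
  have hXmap : X.map mk = M ⊔ ⨆ i ∈ S, U i := by
    rw [hX, Subgroup.map_sup, hmapL, Subgroup.map_iSup]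
    congr 1
    refine iSup_congr fun i => ?_
    rw [Subgroup.map_iSup]
    exact iSup_congr fun _ => hmapN i
  have hXtop : X ≠ ⊤ := by
    intro h3
    refine proper_of_family U hU hcard M h1 h2 S hS ?_
    rw [← hXmap, h3]
    exact Subgroup.map_top_of_surjective mk hsurj
  have hXF : X ⊔ F = ⊤ := by
    refine top_le_iff.mp ?_
    rw [← hLF]
    exact sup_le_sup_right le_sup_left F
  have hXform : (form K).mem X := L2 hr0 X F hFn hgam hXF
  have hXcard : Nat.card X < Nat.card K := by
    refine lt_of_le_of_ne (Subgroup.card_le_card_group X) fun h3 => hXtop ?_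
    exact Subgroup.eq_top_of_card_eq X h3
  exact fun F' hF' => hF' X ⟨hXform, hXcard, rb_subgroup X hm⟩

end Inn

end MP799fdf
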