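import Pool.Agent.Lib.MP_799fdf_al.Inn.IrrB

/-! # Bounded order -/

set_option autoImplicit false

open scoped commutatorElement

namespace MP799fdf

namespace Inn

open Finset

/-- PROOF. `c` from `class_form`, `n = |G|` (`chief_form`), `B` from `gen_bound G (m * n ^ (2 * c))`.
Strong induction on `|K|`: if `K ∈ lowM m K`: all `H ∈ form K` with `|H| < |K|`, `RB m H` are in
`genB B H ≤ genB B K`. Otherwise `|K| ≤ B` by `bound_quotM`, `gens_of_quot`, and `K ∈ genB B K`. -/
theorem genB_of_RB (G : Type) [Group G] [Finite G] (m : ℕ) : ∃ B : ℕ,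
    ∀ (K : Type) [Group K] [Finite K], (form G).mem K → RB m K → (genB B K).mem K := by
  obtain ⟨c, hc⟩ := class_form G
  obtain ⟨B, hB⟩ := gen_bound G (m * Nat.card G ^ (2 * c))
  refine ⟨B, ?_⟩
  have key : ∀ n : ℕ, ∀ (K : Type) [Group K] [Finite K], Nat.card K = n → (form G).mem K →
      RB m K → (genB B K).mem K := by
    intro n
    induction n using Nat.strong_induction_on with
    | _ n ih =>
      intro K _ _ hn hK hm
      by_cases hlow : (lowM m K).mem K
      · refine hlow (genB B K) fun H _ _ hH => ?_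
        have h1 : (genB B H).mem H :=
          ih (Nat.card H) (by rw [← hn]; exact hH.2.1) H rfl (form_le (form G) hK H hH.1) hH.2.2
        exact genB_le hH.1 H h1
      · have h1 : Nat.card (K ⧸ frattini K) ≤ m * Nat.card G ^ (2 * c) :=
          bound_quotM hm Nat.card_pos hlow (chief_form (G := G) K hK)
            (fun F hF => hc K hK F hF)
        have h2 := gens_of_quot (K := K) _ h1
        exact fun F hF => hF K ⟨mem_form K, hB K hK h2⟩
  intro K _ _ hK hm
  exact key _ K rfl hK hm

private theorem irrcB_ext {F₁ F₂ : Formation}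
    (h : ∀ (K : Type) [Group K] [Finite K], F₁.mem K ↔ F₂.mem K) : F₁ = F₂ := by
  have hm : @Formation.mem F₁ = @Formation.mem F₂ := by
    funext K i1 i2
    exact propext (h K)
  cases F₁
  cases F₂
  cases hm
  rfl

/-- The multiplication tables of the members of order at most `B`. -/
private def irrcTab (B : ℕ) (F : Formation) :
    Set (Σ m : Fin (B + 1), Fin m.1 → Fin m.1 → Fin m.1) :=
  {x | ∃ inst : Group (Fin x.1.1), (∀ a b, inst.mul a b = x.2 a b) ∧
    @Formation.mem F (Fin x.1.1) inst inferInstance}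

private theorem irrcB_small (B : ℕ) (F₁ F₂ : Formation) (hT : irrcTab B F₁ = irrcTab B F₂)
    (K : Type) [Group K] [Finite K] (hB : Nat.card K ≤ B) (hK : F₁.mem K) : F₂.mem K := by
  let e := Finite.equivFin K
  let i1 : Group (Fin (Nat.card K)) := e.symm.group
  have e1 : @MulEquiv K (Fin (Nat.card K)) _ i1.toMul :=
    @MulEquiv.mk K (Fin (Nat.card K)) _ i1.toMul e (fun x y => by
      show e (x * y) = e (e.symm (e x) * e.symm (e y))
      rw [Equiv.symm_apply_apply, Equiv.symm_apply_apply])
  have hm1 : @Formation.mem F₁ (Fin (Nat.card K)) i1 inferInstance :=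
    @Formation.iso F₁ K (Fin (Nat.card K)) _ _ i1 inferInstance e1 hK
  have hmem : (⟨⟨Nat.card K, by omega⟩, fun a b => i1.mul a b⟩ :
      Σ m : Fin (B + 1), Fin m.1 → Fin m.1 → Fin m.1) ∈ irrcTab B F₁ := ⟨i1, fun _ _ => rfl, hm1⟩
  rw [hT] at hmem
  obtain ⟨i2, h2, h3⟩ := hmem
  have e2 : @MulEquiv (Fin (Nat.card K)) K i2.toMul _ :=
    @MulEquiv.mk (Fin (Nat.card K)) K i2.toMul _ e.symm (fun x y => by
      have h4 := h2 x y
      show e.symm (i2.mul x y) = e.symm x * e.symm y
      rw [h4]
      show e.symm (e (e.symm x * e.symm y)) = _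
      rw [Equiv.symm_apply_apply])
  exact @Formation.iso F₂ (Fin (Nat.card K)) K i2 inferInstance _ _ e2 h3

private theorem irrcB_step {G : Type} [Group G] [Finite G] (B : ℕ)
    (h : ∀ (K : Type) [Group K] [Finite K], (form G).mem K → (genB B K).mem K)
    (F₁ F₂ : Formation) (h1 : F₁.IsSub (form G)) (hT : irrcTab B F₁ = irrcTab B F₂)
    (K : Type) [Group K] [Finite K] (hK : F₁.mem K) : F₂.mem K :=
  h K (h1 K hK) F₂ fun X _ _ hX =>
    irrcB_small B F₁ F₂ hT X hX.2 (form_le F₁ hK X hX.1)

/-- PROOF. As `finite_of_bound` (`Main.lean`; copy the private `irrb_ext`, `irrbTab`, `irrb_step`): a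
subformation `F` is determined by the multiplication tables of its members of order `≤ B`: if
`K ∈ F₁` then all `H ∈ form K` with `|H| ≤ B` are in `F₁`, so in `F₂` (tables), so `genB B K ≤ F₂`. -/
theorem finite_of_genB {G : Type} [Group G] [Finite G] (B : ℕ)
    (h : ∀ (K : Type) [Group K] [Finite K], (form G).mem K → (genB B K).mem K) :
    {F : Formation | F.IsSub (form G)}.Finite := by
  rw [← Set.finite_coe_iff]
  refine Finite.of_injective (fun F : {F : Formation | F.IsSub (form G)} => irrcTab B F.1) ?_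
  intro F₁ F₂ hT
  refine Subtype.ext (irrcB_ext fun K _ _ => ⟨fun hK => ?_, fun hK => ?_⟩)
  · exact irrcB_step B h F₁.1 F₂.1 F₁.2 hT K hK
  · exact irrcB_step B h F₂.1 F₁.1 F₂.2 hT.symm K hK

end Inn

end MP799fdf
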