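import Pool.Agent.Lib.MP_799fdf_al.Inn.Base

/-! # Soluble normal subgroups of bounded index; derived series -/

set_option autoImplicit false

open scoped commutatorElement

namespace MP799fdf

namespace Inn

theorem rb_mono {m m' : ℕ} {H : Type*} [Group H] (h : m ≤ m') (hH : RB m H) : RB m' H := by
  obtain ⟨S, h1, h2, h3⟩ := hH
  exact ⟨S, h1, h2, h3.trans h⟩

/-- PROOF. `S.map f`; `Subgroup.index_map_dvd` (index nonzero by finiteness); solvable:
`solvable_of_surjective` for the restriction `S → S.map f`. -/
theorem rb_surj {m : ℕ} {A B : Type*} [Group A] [Finite A] [Group B] (f : A →* B)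
    (hf : Function.Surjective f) (h : RB m A) : RB m B := by
  obtain ⟨S, h1, h2, h3⟩ := h
  refine ⟨S.map f, h1.map f hf, ?_, ?_⟩
  · exact Group.isSolvable_of_surjective (f.subgroupMap_surjective S)
  · exact (Nat.le_of_dvd (Nat.pos_of_ne_zero Subgroup.index_ne_zero_of_finite)
      (S.index_map_dvd hf)).trans h3

/-- PROOF. `S.subgroupOf L`; index: `Subgroup.relIndex` divides the index (`S` normal). -/
theorem rb_subgroup {m : ℕ} {K : Type*} [Group K] [Finite K] (L : Subgroup K) (h : RB m K) :
    RB m L := by
  obtain ⟨S, h1, h2, h3⟩ := h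
  refine ⟨S.subgroupOf L, h1.subgroupOf L, ?_, ?_⟩
  · let f : S.subgroupOf L →* S :=
      { toFun := fun x => ⟨x.1.1, Subgroup.mem_subgroupOf.1 x.2⟩
        map_one' := rfl
        map_mul' := fun _ _ => rfl }
    refine Group.isSolvable_of_isSolvable_injective (f := f) fun x y hxy => ?_
    have hxy' : (f x).1 = (f y).1 := congrArg Subtype.val hxy
    exact Subtype.ext (Subtype.ext hxy')
  · exact (Nat.le_of_dvd (Nat.pos_of_ne_zero Subgroup.index_ne_zero_of_finite)
      (Subgroup.relIndex_dvd_index_of_normal S L)).trans h3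

section dser

variable {K K' : Type*} [Group K] [Group K']

theorem dser_normal (H : Subgroup K) (hH : H.Normal) (n : ℕ) : (dser H n).Normal := by
  induction n with
  | zero => exact hH
  | succ n ih => exact Subgroup.commutator_normal _ _

theorem dser_anti (H : Subgroup K) : Antitone (dser H) :=
  antitone_nat_of_succ_le fun n => (dser H n).commutator_le_self

theorem dser_mono {H H' : Subgroup K} (h : H ≤ H') (n : ℕ) : dser H n ≤ dser H' n := by
  induction n with
  | zero => exact h
  | succ n ih => exact Subgroup.commutator_mono ih ih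

theorem dser_map (f : K →* K') (H : Subgroup K) (n : ℕ) :
    (dser H n).map f = dser (H.map f) n := by
  induction n with
  | zero => rfl
  | succ n ih =>
    have e : dser H (n + 1) = ⁅dser H n, dser H n⁆ := rfl
    have e' : dser (H.map f) (n + 1) = ⁅dser (H.map f) n, dser (H.map f) n⁆ := rfl
    rw [e, e', Subgroup.map_commutator, ih]

/-- PROOF. Induction on `b`. -/
theorem dser_add (H : Subgroup K) (a b : ℕ) : dser H (a + b) = dser (dser H a) b := by
  induction b with
  | zero => rfl
  | succ b ih =>
    have e : dser H (a + (b + 1)) = ⁅dser H (a + b), dser H (a + b)⁆ := rfl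
    have e' : dser (dser H a) (b + 1) = ⁅dser (dser H a) b, dser (dser H a) b⁆ := rfl
    rw [e, e', ih]

private theorem dser_eq_map_rba (S : Subgroup K) (m : ℕ) :
    dser S m = (derivedSeries S m).map S.subtype := by
  induction m with
  | zero =>
    rw [derivedSeries_zero, ← MonoidHom.range_eq_map, Subgroup.range_subtype]
    rfl
  | succ m ih =>
    have e : dser S (m + 1) = ⁅dser S m, dser S m⁆ := rfl
    rw [e, derivedSeries_succ, Subgroup.map_commutator, ih]

/-- PROOF. (see the private lemma `dser_solv` in `FratA.lean`) `derivedSeries` of `S` mapped to `K`. -/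
theorem dser_solv (S : Subgroup K) (hS : Group.IsSolvable S) : ∃ n, dser S n = ⊥ := by
  obtain ⟨n, hn⟩ := hS.solvable
  exact ⟨n, by rw [dser_eq_map_rba, hn, Subgroup.map_bot]⟩

theorem solv_of_dser (S : Subgroup K) (n : ℕ) (h : dser S n = ⊥) : Group.IsSolvable S := by
  rw [dser_eq_map_rba] at h
  exact ⟨⟨n, (Subgroup.map_eq_bot_iff_of_injective _ S.subtype_injective).1 h⟩⟩

end dser

end Inn

end MP799fdf
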