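import Pool.Agent.Lib.MP_799fdf_al.Inn.LocB

/-! # The condition `D1` holds in `form G` -/

set_option autoImplicit false

open scoped commutatorElement

namespace MP799fdf

namespace Inn

/-- PROOF. Let `R N H Y` and `g` be as in `D1 B`; `loc_lift` gives `R'`, `N' = R' ⊓ N.comap f`.
`H' = H.comap f ⊓ R'`, `Y' = Y.comap f ⊓ R'`. `H'.map f = H` since `H ≤ R = R'.map f`, and
`Y'.map f ≤ Y`, so `Y' < H'`. `⁅H', R'⁆ ≤ Y'` (its image is in `⁅H, R⁆ ≤ Y`; `R'` is normal). For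
`f g' = g` and `h ∈ H'`: `⁅g', h⁆ ∈ Y.comap f`, and `∈ R'`. `D1 A` gives `r' ∈ R'`; `r = f r'`. -/
theorem d1_surj {A B : Type} [Group A] [Finite A] [Group B] [Finite B] (f : A →* B)
    (hf : Function.Surjective f) (h : D1 A) : D1 B := by
  intro R N H Y hL hH hY h1 h2 h3 g hg
  obtain ⟨R', N', hL', hmap, hN'⟩ := loc_lift f hf hL
  have hR'n := hL'.nR
  have hfR : ∀ x ∈ R', f x ∈ R := fun x hx => hmap ▸ Subgroup.mem_map_of_mem f hx
  have hH' : (H.comap f ⊓ R').Normal := by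
    have := hH.comap f
    infer_instance
  have hY' : (Y.comap f ⊓ R').Normal := by
    have := hY.comap f
    infer_instance
  have hlt : Y.comap f ⊓ R' < H.comap f ⊓ R' := by
    refine lt_of_le_not_ge (inf_le_inf_right _ (Subgroup.comap_mono h1.le)) fun hle => ?_
    refine absurd h1 (not_lt_of_ge fun x hx => ?_)
    have hxR : x ∈ R'.map f := by
      rw [hmap]
      exact h2 hx
    obtain ⟨r, hr, rfl⟩ := Subgroup.mem_map.1 hxR
    exact (hle (Subgroup.mem_inf.2 ⟨hx, hr⟩)).1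
  have hcom : ⁅H.comap f ⊓ R', R'⁆ ≤ Y.comap f ⊓ R' := by
    rw [Subgroup.commutator_le]
    intro x hx r hr
    refine Subgroup.mem_inf.2 ⟨?_, ?_⟩
    · rw [Subgroup.mem_comap, map_commutatorElement]
      exact h3 (Subgroup.commutator_mem_commutator hx.1 (hfR r hr))
    · exact Subgroup.commutator_le_right _ R' (Subgroup.commutator_mem_commutator hx.2 hr)
  obtain ⟨g', rfl⟩ := hf g
  obtain ⟨r', hr', hx'⟩ := h R' N' _ _ hL' hH' hY' hlt inf_le_right hcom g' (by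
    intro x hx
    refine Subgroup.mem_inf.2 ⟨?_, ?_⟩
    · rw [Subgroup.mem_comap, map_commutatorElement]
      exact hg _ hx.1
    · rw [commutatorElement_def]
      exact R'.mul_mem (hR'n.conj_mem _ hx.2 g') (R'.inv_mem hx.2))
  refine ⟨f r', hfR r' hr', ?_⟩
  intro x hx
  have hxR : x ∈ R'.map f := by
    rw [hmap]
    exact hx
  obtain ⟨y, hy, rfl⟩ := Subgroup.mem_map.1 hxR
  have h4 := hx' y hy
  rw [hN'] at h4
  have h5 : f ⁅r'⁻¹ * g', y⁆ ∈ N := h4.2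
  rwa [map_commutatorElement, map_mul, map_inv] at h5

/-- PROOF. `¬ R ≤ f.ker` (else `H ≤ f.ker`, `H ≤ Y`). Use `D1 A` for the images (`loc_map`).
`Y.map f < H.map f`: if `f h = f y` then `h * y⁻¹ ∈ H ⊓ f.ker ≤ Y`. We get `r' ∈ R` with
`⁅(f r')⁻¹ * f g, f x⁆ ∈ N.map f` for `x ∈ R`, so `f ⁅r'⁻¹ * g, x⁆ = f n`, `n ∈ N`, and
`⁅r'⁻¹ * g, x⁆ * n⁻¹ ∈ R ⊓ f.ker ≤ N` (`loc_inf_ker`; `R` is normal). -/
theorem d1_case {K A : Type} [Group K] [Finite K] [Group A] [Finite A] (f : K →* A)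
    (hf : Function.Surjective f) (hA : D1 A) {R N H Y : Subgroup K} (hL : Loc R N)
    (hH : H.Normal) (hY : Y.Normal) (h1 : Y < H) (h2 : H ≤ R) (h3 : ⁅H, R⁆ ≤ Y)
    (hk : H ⊓ f.ker ≤ Y) (g : K) (hg : ∀ h ∈ H, ⁅g, h⁆ ∈ Y) :
    ∃ r ∈ R, ∀ x ∈ R, ⁅r⁻¹ * g, x⁆ ∈ N := by
  have hRn := hL.nR
  have hR : ¬ R ≤ f.ker := by
    intro hle
    exact absurd h1 (not_lt_of_ge ((le_inf le_rfl (h2.trans hle)).trans hk))
  have hlt : Y.map f < H.map f := by
    refine lt_of_le_not_ge (Subgroup.map_mono h1.le) fun hle => ?_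
    refine absurd h1 (not_lt_of_ge fun x hx => ?_)
    obtain ⟨y, hy, hxy⟩ := Subgroup.mem_map.1 (hle (Subgroup.mem_map_of_mem f hx))
    have h4 : x * y⁻¹ ∈ H ⊓ f.ker := by
      refine Subgroup.mem_inf.2 ⟨H.mul_mem hx (H.inv_mem (h1.le hy)), ?_⟩
      rw [MonoidHom.mem_ker, map_mul, map_inv, hxy, mul_inv_cancel]
    have h5 := Y.mul_mem (hk h4) hy
    rwa [inv_mul_cancel_right] at h5
  obtain ⟨r, hr, hx⟩ := hA (R.map f) (N.map f) (H.map f) (Y.map f) (loc_map f hf hL hR)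
    (hH.map f hf) (hY.map f hf) hlt (Subgroup.map_mono h2)
    (by rw [← Subgroup.map_commutator]; exact Subgroup.map_mono h3) (f g) (by
      intro y hy
      obtain ⟨z, hz, rfl⟩ := Subgroup.mem_map.1 hy
      rw [← map_commutatorElement]
      exact Subgroup.mem_map_of_mem f (hg z hz))
  obtain ⟨r', hr', rfl⟩ := Subgroup.mem_map.1 hr
  refine ⟨r', hr', ?_⟩
  intro x hxR
  have h4 := hx (f x) (Subgroup.mem_map_of_mem f hxR)
  rw [← map_inv, ← map_mul, ← map_commutatorElement] at h4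
  obtain ⟨n, hn, hnx⟩ := Subgroup.mem_map.1 h4
  have h5 : ⁅r'⁻¹ * g, x⁆ ∈ R := by
    rw [commutatorElement_def]
    exact R.mul_mem (hRn.conj_mem _ hxR _) (R.inv_mem hxR)
  have h6 : ⁅r'⁻¹ * g, x⁆ * n⁻¹ ∈ R ⊓ f.ker := by
    refine Subgroup.mem_inf.2 ⟨R.mul_mem h5 (R.inv_mem (hL.lt.le hn)), ?_⟩
    rw [MonoidHom.mem_ker, map_mul, map_inv, hnx, mul_inv_cancel]
  have h7 := N.mul_mem (loc_inf_ker hL hR h6) hn
  rwa [inv_mul_cancel_right] at h7

/-- PROOF. If `H ⊓ f.ker ≤ Y` or `H ⊓ g.ker ≤ Y`, use `d1_case`. Otherwise take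
`H₁ = H ⊓ f.ker`, `Y₁ = Y ⊓ f.ker`: `Y₁ < H₁`, `⁅H₁, R⁆ ≤ Y₁`, `⁅y, h⁆ ∈ Y₁` for `h ∈ H₁`, and
`H₁ ⊓ g.ker = ⊥ ≤ Y₁`: `d1_case` for `g` and `(R, N, H₁, Y₁)`. -/
theorem d1_sub {K A B : Type} [Group K] [Finite K] [Group A] [Finite A] [Group B] [Finite B]
    (f : K →* A) (g : K →* B) (hf : Function.Surjective f) (hg : Function.Surjective g)
    (hA : D1 A) (hB : D1 B) (h : ∀ x, f x = 1 → g x = 1 → x = 1) : D1 K := by
  intro R N H Y hL hH hY h1 h2 h3 y hy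
  by_cases hk : H ⊓ f.ker ≤ Y
  · exact d1_case f hf hA hL hH hY h1 h2 h3 hk y hy
  · have hRn := hL.nR
    have hlt : Y ⊓ f.ker < H ⊓ f.ker :=
      lt_of_le_not_ge (inf_le_inf_right _ h1.le) fun hle => hk (hle.trans inf_le_left)
    have hkn : f.ker.Normal := inferInstance
    refine d1_case g hg hB (H := H ⊓ f.ker) (Y := Y ⊓ f.ker) hL inferInstance inferInstance hlt
      (inf_le_left.trans h2) ?_ ?_ y ?_
    · refine le_inf ((Subgroup.commutator_mono inf_le_left le_rfl).trans h3) ?_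
      exact (Subgroup.commutator_mono inf_le_right le_rfl).trans
        (Subgroup.commutator_le_left f.ker R)
    · intro x hx
      have hx1 : x = 1 := h x hx.1.2 hx.2
      rw [hx1]
      exact Subgroup.one_mem _
    · intro x hx
      refine Subgroup.mem_inf.2 ⟨hy x hx.1, ?_⟩
      rw [commutatorElement_def]
      exact f.ker.mul_mem (hkn.conj_mem _ hx.2 y) (f.ker.inv_mem hx.2)

theorem d1_form {G : Type} [Group G] [Finite G] (hG : D1 G) (K : Type) [Group K] [Finite K]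
    (hK : (form G).mem K) : D1 K :=
  form_induction (G := G) (fun H _ _ => D1 H)
    (fun _ _ _ _ _ _ f hf h => d1_surj f hf h)
    (fun _ _ _ _ _ _ _ _ _ f g hf hg hA hB h => d1_sub f g hf hg hA hB h) hG K hK

end Inn

end MP799fdf
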