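import Pool.Agent.Lib.MP_799fdf_al.Inn.RBA

/-! # The derived length of soluble normal subgroups -/

set_option autoImplicit false

open scoped commutatorElement

namespace MP799fdf

namespace Inn

variable {K : Type} [Group K] [Finite K]

/-- PROOF. If `dser H (k + 1) = dser H k` then `dser H k = dser H m` for all `m ≥ k`, so it is `⊥`
(`dser_solv`). Otherwise the cardinalities of `dser H 0, ..., dser H n` are strictly decreasing and
at least `1`, so `|dser H 0| ≥ n + 1`. -/
theorem dser_card {Q : Type*} [Group Q] [Finite Q] (H : Subgroup Q) (hH : Group.IsSolvable H)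
    (n : ℕ) (hn : Nat.card Q ≤ n) : dser H n = ⊥ := by
  obtain ⟨m, hm⟩ := dser_solv H hH
  have key : ∀ k, Nat.card (dser H k) + k ≤ Nat.card Q ∨ dser H k = ⊥ := by
    intro k
    induction k with
    | zero => exact Or.inl (Subgroup.card_le_card_group _)
    | succ k ih =>
      by_cases hb : dser H (k + 1) = ⊥
      · exact Or.inr hb
      refine Or.inl ?_
      rcases ih with ih | ih
      · by_contra hc
        have h1 : Nat.card (dser H k) ≤ Nat.card (dser H (k + 1)) := by omega
        have h2 : dser H (k + 1) = dser H k :=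
          Subgroup.eq_of_le_of_card_ge (dser_anti H (Nat.le_succ k)) h1
        have h3 : ∀ j, dser H (k + 1 + j) = dser H (k + 1) := by
          intro j
          induction j with
          | zero => rfl
          | succ j ihj =>
            have e : dser H (k + 1 + (j + 1)) = ⁅dser H (k + 1 + j), dser H (k + 1 + j)⁆ := rfl
            rw [e, ihj, h2]
            have e2 : dser H (k + 1) = ⁅dser H k, dser H k⁆ := rfl
            rw [← e2, h2]
        apply hb
        rw [← h3 m, ← le_bot_iff, ← hm]
        exact dser_anti H (Nat.le_add_left m (k + 1))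
      · exact absurd (le_bot_iff.1 (ih ▸ dser_anti H (Nat.le_succ k))) hb
  rcases key n with h | h
  · have : 0 < Nat.card (dser H n) := Nat.card_pos
    omega
  · exact h

/-- PROOF. `dser_map` for `QuotientGroup.mk' C`, `dser_card`. -/
theorem dser_le_of_index (S C : Subgroup K) (hC : C.Normal) (hS : Group.IsSolvable S) (n : ℕ)
    (hn : C.index ≤ n) : dser S n ≤ C := by
  have h1 : (dser S n).map (QuotientGroup.mk' C) = ⊥ := by
    rw [dser_map]
    exact dser_card _
      (Group.isSolvable_of_surjective ((QuotientGroup.mk' C).subgroupMap_surjective S)) n hn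
  rwa [Subgroup.map_eq_bot_iff, QuotientGroup.ker_mk'] at h1

/-- PROOF. `dser T 0 = T = gam T 1`; `⁅dser T k, dser T k⁆ ≤ ⁅gam T (k + 1), T⁆ = gam T (k + 2)`
(`Subgroup.lowerCentralSeries_succ`). -/
theorem dser_le_gam (T : Subgroup K) (k : ℕ) : dser T k ≤ gam T (k + 1) := by
  induction k with
  | zero => exact le_rfl
  | succ k ih =>
    have h : dser T k ≤ T := dser_anti T (Nat.zero_le k)
    exact Subgroup.commutator_mono ih h

/-- A normal subgroup that centralises all chief factors is nilpotent.

PROOF. If `D = T.lowerCentralSeries k ≠ ⊥` (normal), let `L < D` be maximal among the normal subgroups of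
`K` properly contained in `D`; `D / L` is a chief factor, so `⁅T, D⁆ ≤ L < D`, and
`T.lowerCentralSeries (k + 1) < T.lowerCentralSeries k`. As `K` is finite some term is `⊥`
(`Subgroup.isNilpotent_iff_lowerCentralSeries`). -/
theorem nilp_of_chief (T : Subgroup K) (hT : T.Normal)
    (h : ∀ H L : Subgroup K, IsChief H L → ⁅T, H⁆ ≤ L) : Group.IsNilpotent T := by
  have hn : ∀ k, (gam T (k + 1)).Normal := fun k => gam_normal T hT (k + 1)
  have step : ∀ k, gam T (k + 1) ≠ ⊥ → gam T (k + 2) < gam T (k + 1) := by
    intro k hk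
    obtain ⟨L, hL1, hL2⟩ : ∃ L : Subgroup K, IsChief (gam T (k + 1)) L ∧ L < gam T (k + 1) := by
      have hfin : {L : Subgroup K | L.Normal ∧ L < gam T (k + 1)}.Finite := Set.toFinite _
      have hne : {L : Subgroup K | L.Normal ∧ L < gam T (k + 1)}.Nonempty :=
        ⟨⊥, inferInstance, bot_lt_iff_ne_bot.2 hk⟩
      obtain ⟨L, hL, hmax⟩ := hfin.exists_maximal hne
      refine ⟨L, ⟨hn k, hL.1, hL.2, fun Z hZ h1 h2 => ?_⟩, hL.2⟩
      by_cases hZ2 : Z = gam T (k + 1)
      · exact Or.inr hZ2
      · exact Or.inl (le_antisymm (hmax ⟨hZ, lt_of_le_of_ne h2 hZ2⟩ h1) h1)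
    have e : gam T (k + 2) = ⁅gam T (k + 1), T⁆ := rfl
    rw [e, Subgroup.commutator_comm]
    exact lt_of_le_of_lt (h _ _ hL1) hL2
  have key : ∀ k, Nat.card (gam T (k + 1)) + k ≤ Nat.card K ∨ gam T (k + 1) = ⊥ := by
    intro k
    induction k with
    | zero => exact Or.inl (Subgroup.card_le_card_group _)
    | succ k ih =>
      by_cases hb : gam T (k + 1) = ⊥
      · refine Or.inr (le_bot_iff.1 ?_)
        have h1 : gam T (k + 2) ≤ gam T (k + 1) := gam_anti T hT (Nat.le_succ (k + 1))
        rwa [hb] at h1
      · rcases ih with ih | ih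
        · refine Or.inl ?_
          have h1 := step k hb
          by_contra hc
          have h2 : Nat.card (gam T (k + 1)) ≤ Nat.card (gam T (k + 1 + 1)) := by omega
          exact h1.ne (Subgroup.eq_of_le_of_card_ge h1.le h2)
        · exact absurd ih hb
  refine (Subgroup.isNilpotent_iff_lowerCentralSeries T).2 ⟨Nat.card K, ?_⟩
  rcases key (Nat.card K) with h1 | h1
  · have : 0 < Nat.card (gam T (Nat.card K + 1)) := Nat.card_pos
    omega
  · exact h1

/-- PROOF. `T = dser S n` is normal and centralises all chief factors (`dser_le_of_index` for the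
subgroup `C` of `ChiefBound`), so `T` is nilpotent, `gam T (c + 1) = ⊥`, `dser T c = ⊥`
(`dser_le_gam`), `dser_add`. -/
theorem dl_bound {n c : ℕ} (hn : ChiefBound n K)
    (hc : ∀ F : Subgroup K, Group.IsNilpotent F → gam F (c + 1) = ⊥) (S : Subgroup K)
    (hSn : S.Normal) (hS : Group.IsSolvable S) : dser S (n + c) = ⊥ := by
  have hT : (dser S n).Normal := dser_normal S hSn n
  have h1 : ∀ H L : Subgroup K, IsChief H L → ⁅dser S n, H⁆ ≤ L := by
    intro H L hHL
    obtain ⟨_, C, hC, hCH, hCi⟩ := hn H L hHL
    exact (Subgroup.commutator_mono (dser_le_of_index S C hC hS n hCi) le_rfl).trans hCH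
  have h2 := hc _ (nilp_of_chief _ hT h1)
  rw [dser_add, ← le_bot_iff, ← h2]
  exact dser_le_gam _ c

end Inn

end MP799fdf
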