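import Pool.Agent.Lib.MP_799fdf_al.Inn.CodeB
import Pool.Agent.Lib.MP_799fdf_al.Inn.DatB4
import Pool.Agent.Lib.MP_799fdf_al.Inn.D1A
import Pool.Agent.Lib.MP_799fdf_al.Inn.DLen
import Pool.Agent.Lib.MP_799fdf_al.Inn.IrrC

/-! # The main theorem -/

set_option autoImplicit false

open scoped commutatorElement

namespace MP799fdf

namespace Inn

/-- One step: a group with a soluble normal subgroup of index at most `m + 1` that has a monolith and
not small insoluble part is in the formation generated by the groups with index at most `m`. -/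
theorem one_step {n l c m : ℕ} {K : Type} [Group K] [Finite K] (hD : D1 K) (hML : ML l K)
    (hn : ChiefBound n K) (hn1 : 1 ≤ n)
    (hc : ∀ F : Subgroup K, Group.IsNilpotent F → gam F (c + 1) = ⊥)
    {V : Subgroup K} (hV : IsMono V) (hm : RB (m + 1) K)
    (hbig : ¬ RB (n ^ (((n + c) * tri l + 2 * l + 1) * 2 ^ (n * n.factorial) + 1)) K) :
    (genM m K).mem K := by
  have hlt : ((n + c) * tri l + 2 * l + 1) * 2 ^ (n * n.factorial) < Nat.card (JJ V) := by
    by_contra hle
    exact hbig (rb_of_few hn hV hn1 (not_lt.1 hle))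
  obtain ⟨ι, _, _, _, D, hk, hB, hS, hmax⟩ := exists_dat hD hML hn hV hlt
  refine propS D l (n + c) m hB (dl_bound hn hc D.S D.nS hS) (by omega) hS ?_
  obtain ⟨S, hSn, hSs, hSi⟩ := hm
  have h1 : S ≤ D.S := hmax S hSn hSs
  exact (Nat.le_of_dvd (Nat.pos_of_ne_zero Subgroup.index_ne_zero_of_finite)
    (Subgroup.index_dvd_of_le h1)).trans hSi

/-- The three cases: trivial group, two disjoint normal subgroups, monolith. -/
theorem mono_or (K : Type) [Group K] [Finite K] : Nat.card K = 1 ∨ (∃ V : Subgroup K, IsMono V) ∨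
    ∃ N₁ N₂ : Subgroup K, N₁.Normal ∧ N₂.Normal ∧ N₁ ≠ ⊥ ∧ N₂ ≠ ⊥ ∧ N₁ ⊓ N₂ = ⊥ := by
  rcases subsingleton_or_nontrivial K with hsub | hnt
  · left
    exact Nat.card_eq_one_iff_unique.2 ⟨hsub, ⟨1⟩⟩
  right
  obtain ⟨V, hV⟩ := exists_minimal_of_wellFoundedLT
    (fun Z : Subgroup K => Z.Normal ∧ Z ≠ ⊥) ⟨⊤, inferInstance, top_ne_bot⟩
  have hVn : V.Normal := hV.prop.1
  by_cases h : ∀ Z : Subgroup K, Z.Normal → Z ≠ ⊥ → V ≤ Z
  · exact Or.inl ⟨V, hVn, hV.prop.2, h⟩
  · right
    push Not at h
    obtain ⟨Z, hZ, hZ0, hVZ⟩ := h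
    refine ⟨V, Z, hVn, hZ, hV.prop.2, hZ0, ?_⟩
    by_contra hne
    have h1 : V ≤ V ⊓ Z := hV.le_of_le ⟨inferInstance, hne⟩ inf_le_left
    exact hVZ (h1.trans inf_le_right)

/-- Every group in `form G` is in the formation generated by the members of `form K` with a soluble
normal subgroup of bounded index. -/
theorem genM_all (G : Type) [Group G] [Finite G] (hG : D1 G) : ∃ m₀ : ℕ,
    ∀ (K : Type) [Group K] [Finite K], (form G).mem K → (genM m₀ K).mem K := by
  obtain ⟨c, hc⟩ := class_form G
  set n := Nat.card G with hn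
  set l := Nat.card (Subgroup G) with hl
  have hn1 : 1 ≤ n := Nat.card_pos
  set m₀ := n ^ (((n + c) * tri l + 2 * l + 1) * 2 ^ (n * n.factorial) + 1) with hm₀
  refine ⟨m₀, ?_⟩
  have key : ∀ m N : ℕ, ∀ (K : Type) [Group K] [Finite K], (form G).mem K → RB m K →
      Nat.card K ≤ N → (genM m₀ K).mem K := by
    intro m
    induction m with
    | zero =>
      intro N K _ _ _ hm _
      obtain ⟨S, _, _, hi⟩ := hm
      exact absurd (Nat.le_zero.1 hi) Subgroup.index_ne_zero_of_finite
    | succ m ihm =>
      intro N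
      induction N with
      | zero =>
        intro K _ _ _ _ h0
        have : 0 < Nat.card K := Nat.card_pos
        omega
      | succ N ihN =>
        intro K _ _ hK hm hcard
        by_cases hsmall : RB m₀ K
        · exact fun F hF => hF K ⟨mem_form K, hsmall⟩
        rcases mono_or K with h1 | ⟨V, hV⟩ | ⟨N₁, N₂, hN₁, hN₂, h1, h2, h12⟩
        · exfalso
          apply hsmall
          refine ⟨⊤, inferInstance, ?_, ?_⟩
          · have : Subsingleton K := (Nat.card_eq_one_iff_unique.1 h1).1
            infer_instance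
          · rw [Subgroup.index_top, hm₀]
            exact Nat.one_le_pow _ _ hn1
        · have h3 : (genM m K).mem K :=
            one_step (d1_form hG K hK) (ml_form K hK) (chief_form K hK) hn1 (hc K hK) hV hm hsmall
          refine h3 (genM m₀ K) fun H _ _ hH => ?_
          have hHG : (form G).mem H := form_le (form G) hK H hH.1
          exact genM_le hH.1 H (ihm (Nat.card H) H hHG hH.2 le_rfl)
        · have hq : ∀ M : Subgroup K, M.Normal → M ≠ ⊥ → ∀ [M.Normal], (genM m₀ K).mem (K ⧸ M) := by
            intro M hM hM0 _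
            have h4 : (form K).mem (K ⧸ M) := (form K).quot K M (mem_form K)
            refine genM_le h4 _ (ihN (K ⧸ M) (form_le (form G) hK _ h4)
              (rb_surj (QuotientGroup.mk' M) (QuotientGroup.mk'_surjective M) hm) ?_)
            have h5 := Subgroup.card_eq_card_quotient_mul_card_subgroup M
            have h6 : 1 < Nat.card M := by
              rw [Subgroup.one_lt_card_iff_ne_bot]
              exact hM0
            have h7 : 0 < Nat.card (K ⧸ M) := Nat.card_pos
            have h8 : Nat.card (K ⧸ M) < Nat.card K := by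
              rw [h5]
              exact lt_mul_of_one_lt_right h7 h6
            omega
          refine (genM m₀ K).of_two (QuotientGroup.mk' N₁) (QuotientGroup.mk' N₂)
            (QuotientGroup.mk'_surjective N₁) (QuotientGroup.mk'_surjective N₂)
            (hq N₁ hN₁ h1) (hq N₂ hN₂ h2) ?_
          intro x hx1 hx2
          have h3 : x ∈ N₁ := by
            rw [← QuotientGroup.ker_mk' N₁]
            exact hx1
          have h4 : x ∈ N₂ := by
            rw [← QuotientGroup.ker_mk' N₂]
            exact hx2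
          have h5 : x ∈ N₁ ⊓ N₂ := ⟨h3, h4⟩
          rw [h12] at h5
          exact Subgroup.mem_bot.1 h5
  intro K _ _ hK
  have hRB : RB (Nat.card K) K := by
    refine ⟨⊥, inferInstance, inferInstance, ?_⟩
    rw [Subgroup.index_bot]
  exact key (Nat.card K) (Nat.card K) K hK hRB le_rfl

/-- THE THEOREM. -/
theorem main (G : Type) [Group G] [Finite G] (hG : D1 G) :
    {F : Formation | F.IsSub (form G)}.Finite := by
  obtain ⟨m, hm⟩ := genM_all G hG
  obtain ⟨B, hB⟩ := genB_of_RB G m
  refine finite_of_genB B fun K _ _ hK => ?_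
  refine hm K hK (genB B K) fun H _ _ hH => ?_
  exact genB_le hH.1 H (hB H (form_le (form G) hK H hH.1) hH.2)

end Inn

end MP799fdf
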