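import Pool.Agent.Lib.MP_799fdf_al.Inn.KStrA

/-! # Local subgroups that centralise the monolith -/

set_option autoImplicit false

open scoped commutatorElement

namespace MP799fdf

namespace Inn

variable {K : Type} [Group K] [Finite K]

variable {V : Subgroup K}

/-- PROOF. `V ≤ R` (`hV.le`, `Loc.ne_bot`). For `g ∈ cen V ⊥` apply `D1 K` to `R, N, H = V, Y = ⊥`
(`⁅V, R⁆ ≤ ⊥` as `R ≤ cen V ⊥`): `g = r * (r⁻¹ * g)`. -/
theorem cen_le (hD : D1 K) (hV : IsMono V) {R N : Subgroup K} (h : Loc R N)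
    (hR : R ≤ cen V ⊥ inferInstance) : cen V ⊥ inferInstance ≤ R ⊔ cen R N h.nN := by
  intro g hg
  have h1 : ⁅R, V⁆ ≤ ⊥ := (le_cen_iff (L := R) (R := V) (N := ⊥) inferInstance).1 hR
  have h2 : ⁅V, R⁆ ≤ ⊥ := by
    rw [Subgroup.commutator_comm]
    exact h1
  obtain ⟨r, hr, hx⟩ := hD R N V ⊥ h hV.nV inferInstance (bot_lt_iff_ne_bot.2 hV.ne)
    (hV.le R h.nR h.ne_bot) h2 g (fun x hx => hg x hx)
  have h3 : r⁻¹ * g ∈ cen R N h.nN := hx
  have h4 : g = r * (r⁻¹ * g) := by group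
  rw [h4]
  exact (R ⊔ cen R N h.nN).mul_mem (Subgroup.mem_sup_left hr) (Subgroup.mem_sup_right h3)

/-- Different local subgroups that centralise `V` centralise each other's top factor.

PROOF. `M = ⁅R', R⁆` is normal, `≤ R`, `≤ R'`. If `M ≤ N` we are done (`le_cen_iff`). Otherwise
`M = R`, so `R ≤ R'`, `R ≠ R'`, so `R ≤ N'` (`h'.max`). `R' ≤ cen V ⊥ ≤ R ⊔ cen R N` (`cen_le`), so
`R' = R ⊔ (R' ⊓ cen R N)` (modular law, `R ≤ R'`). `R' ⊓ cen R N` is normal: if it is `≤ N'` then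
`R' ≤ N'`, a contradiction; so it is `R'`, `R' ≤ cen R N`, and `M ≤ N`, a contradiction. -/
theorem loc_cen (hD : D1 K) (hV : IsMono V) {R N R' N' : Subgroup K} (h : Loc R N)
    (h' : Loc R' N') (hR : R ≤ cen V ⊥ inferInstance) (hR' : R' ≤ cen V ⊥ inferInstance)
    (hne : R ≠ R') : R' ≤ cen R N h.nN := by
  have hRn := h.nR
  have hRn' := h'.nR
  have hMn : ⁅R', R⁆.Normal := Subgroup.commutator_normal R' R
  have hCn : (cen R N h.nN).Normal := cen_normal R N h.nR h.nN
  rcases h.max ⁅R', R⁆ hMn (Subgroup.commutator_le_right R' R) with h1 | h1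
  · exact (le_cen_iff h.nN).2 h1
  · have h2 : R ≤ R' := by
      rw [← h1]
      exact Subgroup.commutator_le_left R' R
    rcases h'.max R h.nR h2 with h3 | h3
    · have h4 : R' ≤ R ⊔ (R' ⊓ cen R N h.nN) := by
        intro x hx
        have h5 : x ∈ R ⊔ cen R N h.nN := cen_le hD hV h hR (hR' hx)
        obtain ⟨r, hr, c, hc, hrc⟩ := Subgroup.mem_sup_of_normal_right.1 h5
        have hc' : c ∈ R' := by
          have h6 : c = r⁻¹ * x := by
            rw [← hrc]
            group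
          rw [h6]
          exact R'.mul_mem (R'.inv_mem (h2 hr)) hx
        rw [← hrc]
        exact (R ⊔ (R' ⊓ cen R N h.nN)).mul_mem (Subgroup.mem_sup_left hr)
          (Subgroup.mem_sup_right (Subgroup.mem_inf.2 ⟨hc', hc⟩))
      rcases h'.max (R' ⊓ cen R N h.nN) inferInstance inf_le_left with h5 | h5
      · exact absurd h'.lt (not_lt_of_ge (h4.trans (sup_le h3 h5)))
      · exact inf_eq_left.1 h5
    · exact absurd h3 hne

/-- PROOF. Otherwise `exists_loc`: `Loc R' N'`, `R' ≤ N ≤ R ≤ cen V ⊥`, `R' ≠ R`. By `loc_cen`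
`R ≤ cen R' N'`, so `R' ≤ cen R' N'`, `R' = R' ⊓ cen R' N' ≤ N'` (`loc_inf_cen`), a contradiction. -/
theorem loc_solv (hD : D1 K) (hV : IsMono V) {R N : Subgroup K} (h : Loc R N)
    (hR : R ≤ cen V ⊥ inferInstance) : Group.IsSolvable N := by
  by_contra hns
  obtain ⟨R', N', h', hle⟩ := exists_loc N h.nN hns
  have h1 : R' ≤ R := hle.trans h.lt.le
  have hne : R' ≠ R := fun e => absurd h.lt (not_lt_of_ge (e ▸ hle))
  have h2 : R ≤ cen R' N' h'.nN := loc_cen hD hV h' h (h1.trans hR) hR hne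
  have h3 : R' ≤ N' := (le_inf le_rfl (h1.trans h2)).trans (loc_inf_cen h')
  exact absurd h'.lt (not_lt_of_ge h3)

/-- PROOF. `R ⊓ R'` is normal, `≤ R`; if it is `R` then `R ≤ R'`, `R' ≤ cen R N` (`loc_cen`), so
`R ≤ cen R N` and `R ≤ N` (`loc_inf_cen`). -/
theorem loc_inf (hD : D1 K) (hV : IsMono V) {R N R' N' : Subgroup K} (h : Loc R N)
    (h' : Loc R' N') (hR : R ≤ cen V ⊥ inferInstance) (hR' : R' ≤ cen V ⊥ inferInstance)
    (hne : R ≠ R') : R ⊓ R' ≤ N := by
  have hRn := h.nR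
  have hRn' := h'.nR
  rcases h.max (R ⊓ R') inferInstance inf_le_left with h1 | h1
  · exact h1
  · have h2 : R ≤ R' := inf_eq_left.1 h1
    have h3 : R ≤ cen R N h.nN := h2.trans (loc_cen hD hV h h' hR hR' hne)
    have h4 : R ≤ N := (le_inf le_rfl h3).trans (loc_inf_cen h)
    exact absurd h.lt (not_lt_of_ge h4)

private theorem kstrB_cen_index {n : ℕ} (hn : ChiefBound n K) {H L : Subgroup K}
    (h : IsChief H L) : (cen H L h.nL).index ≤ n := by
  obtain ⟨C, _, hc, hi⟩ := (hn H L h).2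
  have h1 : C ≤ cen H L h.nL := (le_cen_iff h.nL).2 hc
  exact (Subgroup.index_antitone h1).trans hi

/-- Few local subgroups: the soluble radical has small index.

PROOF. Let `L = cen V ⊥ ⊓ ⨅ i, cen (R i) (N i)` over all pairs `(R i, N i)` with `Loc`,
`R i ≤ cen V ⊥`; index `≤ n * n ^ k` (`Subgroup.index_iInf_le`; `R i / N i` is a chief factor; the
subgroup `C` of `ChiefBound` is `≤ cen`). `L` is soluble: otherwise `exists_loc` gives
`Loc R N`, `R ≤ L`, so `R ≤ cen V ⊥`, and `R ≤ cen R N`, `R ≤ N` (`loc_inf_cen`), a contradiction. -/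
theorem rb_of_few {n k : ℕ} (hn : ChiefBound n K) (hV : IsMono V) (hn1 : 1 ≤ n)
    (hk : Nat.card {R : Subgroup K // (∃ N, Loc R N) ∧ R ≤ cen V ⊥ inferInstance} ≤ k) :
    RB (n ^ (k + 1)) K := by
  classical
  set ι := {R : Subgroup K // (∃ N, Loc R N) ∧ R ≤ cen V ⊥ inferInstance} with hι
  have hfin : Finite ι := inferInstance
  have := Fintype.ofFinite ι
  have hN : ∀ i : ι, ∃ N, Loc i.1 N := fun i => i.2.1
  choose N hN using hN
  have hVn := hV.nV
  have hch : IsChief V ⊥ := mono_chief hV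
  have hc0 : (cen V ⊥ hch.nL).Normal := cen_normal V ⊥ hV.nV hch.nL
  have hci : ∀ i : ι, (cen i.1 (N i) (hN i).nN).Normal := fun i =>
    cen_normal i.1 (N i) (hN i).nR (hN i).nN
  have hI : (⨅ i : ι, cen i.1 (N i) (hN i).nN).Normal := Subgroup.normal_iInf_normal hci
  refine ⟨cen V ⊥ hch.nL ⊓ ⨅ i : ι, cen i.1 (N i) (hN i).nN, inferInstance, ?_, ?_⟩
  · by_contra hns
    obtain ⟨R, N', h, hle⟩ := exists_loc _ inferInstance hns
    have h1 : R ≤ cen V ⊥ inferInstance := hle.trans inf_le_left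
    let i : ι := ⟨R, ⟨N', h⟩, h1⟩
    have h2 : R ≤ cen R (N i) (hN i).nN := hle.trans (inf_le_right.trans (iInf_le _ i))
    have h3 : R ≤ N i := (le_inf le_rfl h2).trans (loc_inf_cen (hN i))
    exact absurd (hN i).lt (not_lt_of_ge h3)
  · have h1 : (⨅ i : ι, cen i.1 (N i) (hN i).nN).index ≤ n ^ k := by
      refine (Subgroup.index_iInf_le _).trans ?_
      refine (Finset.prod_le_pow_card _ _ n fun i _ =>
        kstrB_cen_index hn ((hN i).chief)).trans ?_
      rw [Finset.card_univ, ← Nat.card_eq_fintype_card]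
      exact Nat.pow_le_pow_right hn1 hk
    have h2 : (cen V ⊥ hch.nL).index ≤ n := kstrB_cen_index hn hch
    refine (Subgroup.index_inf_le).trans ?_
    rw [pow_succ, mul_comm]
    exact Nat.mul_le_mul h1 h2

/-- PROOF. `(hn H L h).2` gives `C` with `⁅C, H⁆ ≤ L`, so `C ≤ cen H L`, and the index of the larger
group is at most that of `C` (`Subgroup.index_antitone` or divisibility; finite group). -/
theorem cen_index {n : ℕ} (hn : ChiefBound n K) {H L : Subgroup K} (h : IsChief H L) :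
    (cen H L h.nL).index ≤ n :=
  kstrB_cen_index hn h

end Inn

end MP799fdf
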