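import Pool.Agent.Lib.MP_799fdf_al.Main

/-!
# MP_799fdf_al, inner version: definitions

`Loc R N`: `R` is a perfect normal subgroup of `K` with largest proper `K`-normal subgroup `N`
(so `R / N` is a nonabelian chief factor and `R` is the smallest normal subgroup covering it).
-/

set_option autoImplicit false

open scoped commutatorElement

namespace MP799fdf

namespace Inn

/-- `R` is perfect and normal, and `N` is the largest proper normal subgroup of `K` inside `R`. -/
structure Loc {K : Type*} [Group K] (R N : Subgroup K) : Prop where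
  nR : R.Normal
  nN : N.Normal
  lt : N < R
  perf : ⁅R, R⁆ = R
  max : ∀ M : Subgroup K, M.Normal → M ≤ R → M ≤ N ∨ M = R

/-- The centraliser of every section `H / Y` (`Y < H ≤ R`, central in `R`) induces only inner
automorphisms on `R / N`. -/
def D1 (K : Type*) [Group K] : Prop :=
  ∀ R N H Y : Subgroup K, Loc R N → H.Normal → Y.Normal → Y < H → H ≤ R → ⁅H, R⁆ ≤ Y →
    ∀ g : K, (∀ h ∈ H, ⁅g, h⁆ ∈ Y) → ∃ r ∈ R, ∀ x ∈ R, ⁅r⁻¹ * g, x⁆ ∈ N

/-- Commutators of more than `l` different local subgroups are trivial. -/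
def ML (l : ℕ) (K : Type) [Group K] : Prop :=
  ∀ (ι : Type) [DecidableEq ι] (R N : ι → Subgroup K), (∀ i, Loc (R i) (N i)) →
    Function.Injective R →
    ∃ B : Finset ι → Subgroup K, (∀ T, (B T).Normal) ∧ (∀ S T, S ⊆ T → B T ≤ B S) ∧
      (∀ S T, ⁅B S, B T⁆ ≤ B (S ∪ T)) ∧ (∀ i, R i ≤ B {i}) ∧ (∀ T, l < T.card → B T = ⊥)

/-- `H` has a soluble normal subgroup of index at most `m`. -/
def RB (m : ℕ) (H : Type*) [Group H] : Prop :=
  ∃ S : Subgroup H, S.Normal ∧ Group.IsSolvable S ∧ S.index ≤ m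

/-- centraliser of the section `R / N` -/
def cen {K : Type*} [Group K] (R N : Subgroup K) (hN : N.Normal) : Subgroup K where
  carrier := {c | ∀ x ∈ R, ⁅c, x⁆ ∈ N}
  one_mem' := by
    intro x _
    simp
  mul_mem' := by
    intro a b ha hb x hx
    have h1 : ⁅a * b, x⁆ = a * ⁅b, x⁆ * a⁻¹ * ⁅a, x⁆ := by
      simp only [commutatorElement_def]
      group
    rw [h1]
    exact N.mul_mem (hN.conj_mem _ (hb x hx) a) (ha x hx)
  inv_mem' := by
    intro a ha x hx
    have h1 : ⁅a⁻¹, x⁆ = a⁻¹ * ⁅a, x⁆⁻¹ * a⁻¹⁻¹ := by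
      simp only [commutatorElement_def]
      group
    rw [h1]
    exact hN.conj_mem _ (N.inv_mem (ha x hx)) a⁻¹

theorem mem_cen {K : Type*} [Group K] {R N : Subgroup K} {hN : N.Normal} {c : K} :
    c ∈ cen R N hN ↔ ∀ x ∈ R, ⁅c, x⁆ ∈ N := Iff.rfl

/-- injective maps with values in `Y` -/
def Emb (ι : Type) {X : Type} (Y : Set X) : Type :=
  {c : ι → X // Function.Injective c ∧ ∀ i, c i ∈ Y}

section Poly

variable {K ι X : Type} [Group K]

/-- `g` is a `U`-local function with values in `A ⊓ B U`, trivial if `U` is mapped into `Z`. -/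
structure LF (B : Finset ι → Subgroup K) {Y : Set X} (A : Subgroup K) (U : Finset ι)
    (Z : Finset X) (g : Emb ι Y → K) : Prop where
  mem : ∀ c, g c ∈ A
  memB : ∀ c, g c ∈ B U
  loc : ∀ c c' : Emb ι Y, (∀ u ∈ U, c.1 u = c'.1 u) → g c = g c'
  van : ∀ c : Emb ι Y, (∀ u ∈ U, c.1 u ∈ Z) → g c = 1

/-- the group generated by the local functions -/
def WW (B : Finset ι → Subgroup K) (Y : Set X) (A : Subgroup K) (Z : Finset X) :
    Subgroup (Emb ι Y → K) :=
  Subgroup.closure {g | ∃ U, LF B A U Z g}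

/-- the group generated by the local functions of degree at most `m` and by the local functions
with values in `⁅A, A⁆` -/
def VV (B : Finset ι → Subgroup K) (Y : Set X) (A : Subgroup K) (m : ℕ) (Z : Finset X) :
    Subgroup (Emb ι Y → K) :=
  Subgroup.closure {g | ∃ U, (U.card ≤ m ∧ LF B A U Z g) ∨ LF B ⁅A, A⁆ U Z g}

end Poly

end Inn

end MP799fdf
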