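import Pool.Agent.Lib.MP_799fdf_al.Inn.Base

/-! # Many local subgroups: a large class of similar ones -/

set_option autoImplicit false

open scoped commutatorElement

namespace MP799fdf

namespace Inn

variable {K : Type} [Group K] [Finite K]

/-- PROOF. `K ⧸ C` acts faithfully on itself (`MulAction.toPermHom`), and `Equiv.Perm.viaEmbeddingHom`
for an embedding `K ⧸ C ↪ Fin n`. -/
theorem exists_perm (n : ℕ) (C : Subgroup K) (hC : C.Normal) (h : C.index ≤ n) :
    ∃ φ : K →* Equiv.Perm (Fin n), φ.ker = C := by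
  have hcard : Nat.card (K ⧸ C) ≤ n := h
  obtain ⟨f⟩ : Nonempty ((K ⧸ C) ↪ Fin n) := by
    have := Fintype.ofFinite (K ⧸ C)
    rw [Nat.card_eq_fintype_card] at hcard
    exact Function.Embedding.nonempty_of_card_le (by rwa [Fintype.card_fin])
  refine ⟨(Equiv.Perm.viaEmbeddingHom f).comp
    ((MulAction.toPermHom (K ⧸ C) (K ⧸ C)).comp (QuotientGroup.mk' C)), ?_⟩
  ext x
  rw [MonoidHom.mem_ker, MonoidHom.comp_apply, MonoidHom.comp_apply]
  constructor
  · intro hx
    have h1 : Equiv.Perm.viaEmbeddingHom f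
        (MulAction.toPermHom (K ⧸ C) (K ⧸ C) (QuotientGroup.mk' C x)) =
        Equiv.Perm.viaEmbeddingHom f 1 := by rw [hx, map_one]
    have h2 := Equiv.Perm.viaEmbeddingHom_injective f h1
    have h3 : (QuotientGroup.mk' C x) * (1 : K ⧸ C) = 1 := by
      have := congrArg (fun σ : Equiv.Perm (K ⧸ C) => σ 1) h2
      exact this
    rw [mul_one] at h3
    exact (QuotientGroup.eq_one_iff x).1 h3
  · intro hx
    have h3 : QuotientGroup.mk' C x = 1 := (QuotientGroup.eq_one_iff x).2 hx
    rw [h3, map_one, map_one]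

/-- PROOF. An injective map `K ⧸ C → Fin n`. -/
theorem exists_code (n : ℕ) (C : Subgroup K) (h : C.index ≤ n) :
    ∃ q : K → Fin n, ∀ x y, q x = q y ↔ x⁻¹ * y ∈ C := by
  have hcard : Nat.card (K ⧸ C) ≤ n := h
  obtain ⟨f⟩ : Nonempty ((K ⧸ C) ↪ Fin n) := by
    have := Fintype.ofFinite (K ⧸ C)
    rw [Nat.card_eq_fintype_card] at hcard
    exact Function.Embedding.nonempty_of_card_le (by rwa [Fintype.card_fin])
  refine ⟨fun x => f (x : K ⧸ C), fun x y => ?_⟩
  rw [← QuotientGroup.eq]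
  exact f.injective.eq_iff

end Inn

end MP799fdf
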