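import Pool.Agent.Lib.MP_799fdf_al.Inn.PolyE

/-! # Groups with many similar components: the group `Gam` -/

set_option autoImplicit false

open scoped commutatorElement

namespace MP799fdf

namespace Inn

/-- A family of similar components `R i` of `K` with soluble normal subgroup `S`. -/
structure Dat (K ι A : Type) [Group K] [Group A] [DecidableEq ι] where
  R : ι → Subgroup K
  al : ι → K →* A
  W : Subgroup A
  B : Finset ι → Subgroup K
  S : Subgroup K
  nR : ∀ i, (R i).Normal
  nS : S.Normal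
  nB : ∀ T, (B T).Normal
  antiB : ∀ S T, S ⊆ T → B T ≤ B S
  commB : ∀ S T, ⁅B S, B T⁆ ≤ B (S ∪ T)
  B1 : ∀ i, B {i} = R i
  B2 : ∀ T, 2 ≤ T.card → B T ≤ S
  al_ne : ∀ i j, i ≠ j → ∀ x ∈ R j, al i x = 1
  al_S : ∀ i, ∀ x ∈ S, al i x = 1
  al_R : ∀ i, (R i).map (al i) = W
  al_ker : ∀ i, ∀ x ∈ R i, al i x = 1 → x ∈ S
  al_co : ∀ i j y, (al i y)⁻¹ * al j y ∈ W
  RS : ∀ i, ¬ R i ≤ S

variable {K ι A X : Type} [Group K] [Group A] [DecidableEq ι] [Fintype ι]

instance {ι X : Type} [Finite ι] [Finite X] (Y : Set X) : Finite (Emb ι Y) := by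
  unfold Emb
  infer_instance

namespace Dat

variable (D : Dat K ι A)

/-- PROOF. Induction on finsets `s`: there is `p` in `⨆ i, R i` with `al i p = w i` for `i ∈ s` and
`al i p = 1` for `i ∉ s`. -/
theorem exists_p (w : ι → A) (hw : ∀ i, w i ∈ D.W) :
    ∃ p ∈ ⨆ i, D.R i, ∀ i, D.al i p = w i := by
  classical
  have key : ∀ s : Finset ι, ∃ p ∈ ⨆ i, D.R i, ∀ i, D.al i p = if i ∈ s then w i else 1 := by
    intro s
    induction s using Finset.induction_on with
    | empty => exact ⟨1, Subgroup.one_mem _, fun i => by simp⟩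
    | insert a s ha ih =>
      obtain ⟨p, hp, hp'⟩ := ih
      have h1 : w a ∈ (D.R a).map (D.al a) := by
        rw [D.al_R]
        exact hw a
      obtain ⟨r, hr, hr'⟩ := h1
      refine ⟨r * p, Subgroup.mul_mem _ (Subgroup.mem_iSup_of_mem a hr) hp, fun i => ?_⟩
      rw [map_mul, hp' i]
      by_cases hi : i = a
      · subst hi
        rw [if_neg ha, if_pos (Finset.mem_insert_self _ _), mul_one]
        exact hr'
      · rw [D.al_ne i a hi r hr, one_mul]
        simp only [Finset.mem_insert, hi, false_or]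
  obtain ⟨p, hp, hp'⟩ := key Finset.univ
  exact ⟨p, hp, fun i => by rw [hp' i, if_pos (Finset.mem_univ i)]⟩

/-- PROOF. Show by induction on finsets `s`: every `y ∈ S ⊔ ⨆ i ∈ s, R i` with `al i y = 1` for all
`i` is in `S`. For `insert i s`: `y = r * y'` (normal subgroups), `al i y = al i r` (as `al i` is
trivial on `S` and on `R j`, `j ≠ i`), so `r ∈ S` (`al_ker`), and `y ∈ S ⊔ ⨆ j ∈ s, R j`. -/
theorem mem_S (y : K) (hy : y ∈ D.S ⊔ ⨆ i, D.R i) (h : ∀ i, D.al i y = 1) : y ∈ D.S := by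
  classical
  have key : ∀ s : Finset ι, ∀ y : K, y ∈ D.S ⊔ ⨆ i ∈ s, D.R i → (∀ i, D.al i y = 1) →
      y ∈ D.S := by
    intro s
    induction s using Finset.induction_on with
    | empty =>
      intro y hy _
      simpa using hy
    | insert a s ha ih =>
      intro y hy h
      have hn : (D.R a).Normal := D.nR a
      have e1 : D.S ⊔ ⨆ i ∈ insert a s, D.R i = D.R a ⊔ (D.S ⊔ ⨆ i ∈ s, D.R i) := by
        rw [Finset.iSup_insert, ← sup_assoc, ← sup_assoc, sup_comm D.S (D.R a)]
      rw [e1, Subgroup.mem_sup_of_normal_left] at hy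
      obtain ⟨r, hr, y', hy', rfl⟩ := hy
      have h1 : ∀ z ∈ D.S ⊔ ⨆ i ∈ s, D.R i, D.al a z = 1 := by
        intro z hz
        have h2 : D.S ⊔ ⨆ i ∈ s, D.R i ≤ (D.al a).ker := by
          refine sup_le (fun z hz => D.al_S a z hz) (iSup₂_le fun i hi z hz => ?_)
          refine D.al_ne a i ?_ z hz
          rintro rfl
          exact ha hi
        exact h2 hz
      have h3 : D.al a r = 1 := by
        have := h a
        rwa [map_mul, h1 y' hy', mul_one] at this
      have h4 : r ∈ D.S := D.al_ker a r hr h3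
      refine ih _ (Subgroup.mul_mem _ (Subgroup.mem_sup_left h4) hy') h
  refine key Finset.univ y ?_ h
  simpa using hy

/-- The elements with equal images in all coordinates. -/
def K0 : Subgroup K where
  carrier := {y | ∀ i j, D.al i y = D.al j y}
  one_mem' := by intro i j; simp
  mul_mem' := by
    intro a b ha hb i j
    rw [map_mul, map_mul, ha i j, hb i j]
  inv_mem' := by
    intro a ha i j
    rw [map_inv, map_inv, ha i j]

/-- PROOF. For `y` and a fixed index `i₀` take `p` from `exists_p` with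
`al i p = (al i y)⁻¹ * al i₀ y` (`al_co`): `y * p ∈ K0`. -/
theorem K0_sup [Nonempty ι] : D.K0 ⊔ ⨆ i, D.R i = ⊤ := by
  rw [eq_top_iff]
  intro y _
  obtain ⟨i₀⟩ := (inferInstance : Nonempty ι)
  obtain ⟨p, hp, hp'⟩ := D.exists_p (fun i => (D.al i y)⁻¹ * D.al i₀ y) fun i => D.al_co i i₀ y
  have h1 : y * p ∈ D.K0 := by
    intro i j
    rw [map_mul, map_mul, hp' i, hp' j, mul_inv_cancel_left, mul_inv_cancel_left]
  have h2 : y = y * p * p⁻¹ := by group
  rw [h2]
  exact Subgroup.mul_mem _ (Subgroup.mem_sup_left h1)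
    (Subgroup.mem_sup_right (Subgroup.inv_mem _ hp))

/-- tuples with equal images in `W` -/
def FF : Set (ι → K) := {r | (∀ i, r i ∈ D.R i) ∧ ∀ i j, D.al i (r i) = D.al j (r j)}

/-- PROOF. `al_R`: choose `r i ∈ R i` with `al i (r i) = w`. -/
theorem exists_FF (j : ι) (x : K) (hx : x ∈ D.R j) : ∃ r ∈ D.FF, r j = x := by
  classical
  have hw : D.al j x ∈ D.W := by
    rw [← D.al_R j]
    exact ⟨x, hx, rfl⟩
  have h1 : ∀ i, ∃ r ∈ D.R i, D.al i r = D.al j x := by
    intro i
    have h2 : D.al j x ∈ (D.R i).map (D.al i) := by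
      rw [D.al_R]
      exact hw
    obtain ⟨r, hr, hr'⟩ := h2
    exact ⟨r, hr, hr'⟩
  choose r hr hr' using h1
  have key : ∀ i, Function.update r j x i ∈ D.R i ∧
      D.al i (Function.update r j x i) = D.al j x := by
    intro i
    by_cases hi : i = j
    · subst hi
      rw [Function.update_self]
      exact ⟨hx, rfl⟩
    · rw [Function.update_of_ne hi]
      exact ⟨hr i, hr' i⟩
  exact ⟨Function.update r j x, ⟨fun i => (key i).1, fun i j' => by
    rw [(key i).2, (key j').2]⟩, Function.update_self _ _ _⟩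

theorem exists_FF' (w : A) (hw : w ∈ D.W) : ∃ r ∈ D.FF, ∀ i, D.al i (r i) = w := by
  have h1 : ∀ i, ∃ r ∈ D.R i, D.al i r = w := by
    intro i
    have h2 : w ∈ (D.R i).map (D.al i) := by
      rw [D.al_R]
      exact hw
    obtain ⟨r, hr, hr'⟩ := h2
    exact ⟨r, hr, hr'⟩
  choose r hr hr' using h1
  exact ⟨r, ⟨hr, fun i j => by rw [hr' i, hr' j]⟩, hr'⟩

end Dat


end Inn

end MP799fdf
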