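import Pool.Agent.Lib.MP_799fdf_al.Inn.LocB

/-! # Multilinearity holds in `form G` -/

set_option autoImplicit false

open scoped commutatorElement

namespace MP799fdf

namespace Inn

/-- PROOF. Lift every `R i` to `R' i` (`loc_lift`), `R'` is injective since `(R' i).map f = R i`. Take
`B T = (B' T).map f`: `Subgroup.Normal.map`, `Subgroup.map_mono`, `Subgroup.map_commutator`. -/
theorem ml_surj {l : ℕ} {A B : Type} [Group A] [Finite A] [Group B] [Finite B] (f : A →* B)
    (hf : Function.Surjective f) (h : ML l A) : ML l B := by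
  intro ι _ R N hL hR
  choose R' N' hL' hmap _ using fun i => loc_lift f hf (hL i)
  obtain ⟨B', h1, h2, h3, h4, h5⟩ := h ι R' N' hL' (fun i j hij => hR (by
    rw [← hmap i, ← hmap j, hij]))
  refine ⟨fun T => (B' T).map f, fun T => (h1 T).map f hf,
    fun S T hST => Subgroup.map_mono (h2 S T hST), fun S T => ?_, fun i => ?_, fun T hT => ?_⟩
  · show ⁅(B' S).map f, (B' T).map f⁆ ≤ (B' (S ∪ T)).map f
    rw [← Subgroup.map_commutator]
    exact Subgroup.map_mono (h3 S T)
  · show R i ≤ (B' {i}).map f
    rw [← hmap i]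
    exact Subgroup.map_mono (h4 i)
  · show (B' T).map f = ⊥
    rw [h5 T hT, Subgroup.map_bot]

/-- One coordinate of a subdirect product.

PROOF. `p i = ¬ R i ≤ f.ker`. Apply `ML l A` to the index type `{i // p i}` and `(R i).map f`
(`loc_map`, `loc_map_inj`), to get `B₀`. Put `B T = (B₀ (T.subtype p)).comap f` if all elements of `T`
satisfy `p`, and `B T = f.ker` otherwise. (`Finset.subtype_union`-like facts by `ext`; the commutator of
a normal subgroup `f.ker` with anything is `≤ f.ker`; `f.ker ≤ M.comap f`.) -/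
theorem ml_half {l : ℕ} {K A : Type} [Group K] [Finite K] [Group A] [Finite A]
    (f : K →* A) (hf : Function.Surjective f) (hA : ML l A) (ι : Type) [DecidableEq ι]
    (R N : ι → Subgroup K) (hL : ∀ i, Loc (R i) (N i)) (hR : Function.Injective R) :
    ∃ B : Finset ι → Subgroup K, (∀ T, (B T).Normal) ∧ (∀ S T, S ⊆ T → B T ≤ B S) ∧
      (∀ S T, ⁅B S, B T⁆ ≤ B (S ∪ T)) ∧ (∀ i, R i ≤ B {i}) ∧ (∀ T, l < T.card → B T ≤ f.ker) := by
  classical
  obtain ⟨B₀, h1, h2, h3, h4, h5⟩ := hA {i // ¬ R i ≤ f.ker} (fun i => (R i.1).map f)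
    (fun i => (N i.1).map f) (fun i => loc_map f hf (hL i.1) i.2)
    (fun i j hij => Subtype.ext (hR (loc_map_inj f hf (hL i.1) (hL j.1) i.2 hij)))
  have hker : ∀ M : Subgroup A, f.ker ≤ M.comap f := fun M x hx => by
    rw [Subgroup.mem_comap, MonoidHom.mem_ker.1 hx]
    exact M.one_mem
  refine ⟨fun T => if ∀ i ∈ T, ¬ R i ≤ f.ker then
    (B₀ (T.subtype fun i => ¬ R i ≤ f.ker)).comap f else f.ker, fun T => ?_, fun S T hST => ?_,
    fun S T => ?_, fun i => ?_, fun T hT => ?_⟩
  · simp only
    split_ifs with hT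
    · exact (h1 _).comap f
    · exact f.normal_ker
  · simp only
    by_cases hT : ∀ i ∈ T, ¬ R i ≤ f.ker
    · rw [if_pos hT, if_pos fun i hi => hT i (hST hi)]
      refine Subgroup.comap_mono (h2 _ _ fun i hi => ?_)
      rw [Finset.mem_subtype] at hi ⊢
      exact hST hi
    · rw [if_neg hT]
      split_ifs with hS
      · exact hker _
      · exact le_rfl
  · simp only
    by_cases hST : ∀ i ∈ S ∪ T, ¬ R i ≤ f.ker
    · rw [if_pos hST, if_pos fun i hi => hST i (Finset.mem_union_left _ hi),
        if_pos fun i hi => hST i (Finset.mem_union_right _ hi), Subgroup.commutator_le]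
      intro x hx y hy
      rw [Subgroup.mem_comap] at hx hy ⊢
      rw [map_commutatorElement]
      have h6 : (S ∪ T).subtype (fun i => ¬ R i ≤ f.ker) =
          S.subtype (fun i => ¬ R i ≤ f.ker) ∪ T.subtype (fun i => ¬ R i ≤ f.ker) := by
        ext i
        simp only [Finset.mem_subtype, Finset.mem_union]
      rw [h6]
      exact h3 _ _ (Subgroup.commutator_mem_commutator hx hy)
    · rw [if_neg hST]
      have hn : (f.ker).Normal := f.normal_ker
      by_cases hS : ∀ i ∈ S, ¬ R i ≤ f.ker
      · have hT : ¬ ∀ i ∈ T, ¬ R i ≤ f.ker := by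
          intro hT
          apply hST
          intro i hi
          rcases Finset.mem_union.1 hi with h | h
          · exact hS i h
          · exact hT i h
        rw [if_neg hT]
        exact Subgroup.commutator_le_right _ _
      · rw [if_neg hS]
        exact Subgroup.commutator_le_left _ _
  · simp only
    by_cases hi : R i ≤ f.ker
    · rw [if_neg fun h => h i (Finset.mem_singleton_self i) hi]
      exact hi
    · rw [if_pos fun j hj => by rw [Finset.mem_singleton.1 hj]; exact hi, ← Subgroup.map_le_iff_le_comap]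
      have h6 : ({i} : Finset ι).subtype (fun i => ¬ R i ≤ f.ker) = {⟨i, hi⟩} := by
        ext j
        simp only [Finset.mem_subtype, Finset.mem_singleton, Subtype.ext_iff]
      rw [h6]
      exact h4 ⟨i, hi⟩
  · simp only
    by_cases hT' : ∀ i ∈ T, ¬ R i ≤ f.ker
    · rw [if_pos hT', h5, MonoidHom.comap_bot]
      rw [Finset.card_subtype, Finset.filter_true_of_mem hT']
      exact hT
    · rw [if_neg hT']

/-- PROOF. Intersect the two families of `ml_half`. -/
theorem ml_sub {l : ℕ} {K A B : Type} [Group K] [Finite K] [Group A] [Finite A] [Group B]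
    [Finite B] (f : K →* A) (g : K →* B) (hf : Function.Surjective f)
    (hg : Function.Surjective g) (hA : ML l A) (hB : ML l B)
    (h : ∀ x, f x = 1 → g x = 1 → x = 1) : ML l K := by
  intro ι _ R N hL hR
  obtain ⟨B₁, a1, a2, a3, a4, a5⟩ := ml_half f hf hA ι R N hL hR
  obtain ⟨B₂, b1, b2, b3, b4, b5⟩ := ml_half g hg hB ι R N hL hR
  refine ⟨fun T => B₁ T ⊓ B₂ T, fun T => ?_, fun S T hST => inf_le_inf (a2 S T hST) (b2 S T hST),
    fun S T => ?_, fun i => le_inf (a4 i) (b4 i), fun T hT => ?_⟩
  · have := a1 T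
    have := b1 T
    exact Subgroup.normal_inf_normal _ _
  · exact le_inf ((Subgroup.commutator_mono inf_le_left inf_le_left).trans (a3 S T))
      ((Subgroup.commutator_mono inf_le_right inf_le_right).trans (b3 S T))
  · rw [eq_bot_iff]
    intro x hx
    rw [Subgroup.mem_bot]
    exact h x (a5 T hT hx.1) (b5 T hT hx.2)

/-- PROOF. `ι` is finite and `|T| ≤ |ι| ≤ |Subgroup G|` as `R` is injective; `B T = ⊤`. -/
theorem ml_base (G : Type) [Group G] [Finite G] : ML (Nat.card (Subgroup G)) G := by
  intro ι _ R N hL hR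
  refine ⟨fun _ => ⊤, fun _ => inferInstance, fun _ _ _ => le_rfl, fun _ _ => le_top,
    fun _ => le_top, fun T hT => ?_⟩
  exfalso
  classical
  have : Fintype (Subgroup G) := Fintype.ofFinite _
  have h1 : (T.image R).card = T.card := Finset.card_image_of_injective T hR
  have h2 : (T.image R).card ≤ Fintype.card (Subgroup G) := Finset.card_le_univ _
  rw [Nat.card_eq_fintype_card] at hT
  omega

theorem ml_form {G : Type} [Group G] [Finite G] (K : Type) [Group K] [Finite K]
    (hK : (form G).mem K) : ML (Nat.card (Subgroup G)) K :=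
  form_induction (G := G) (fun H _ _ => ML (Nat.card (Subgroup G)) H)
    (fun _ _ _ _ _ _ f hf h => ml_surj f hf h)
    (fun _ _ _ _ _ _ _ _ _ f g hf hg hA hB h => ml_sub f g hf hg hA hB h) (ml_base G) K hK

end Inn

end MP799fdf
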