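import Pool.Agent.Lib.MP_799fdf_al.Inn.KStrB
import Pool.Agent.Lib.MP_799fdf_al.Inn.MLA
import Pool.Agent.Lib.MP_799fdf_al.Inn.DatA
import Pool.Agent.Lib.MP_799fdf_al.Inn.CodeA

/-! # Many local subgroups: a large class of similar ones -/

set_option autoImplicit false

open scoped commutatorElement

namespace MP799fdf

namespace Inn

variable {K : Type} [Group K] [Finite K]

/-- the local subgroups that centralise `V` -/
def JJ (V : Subgroup K) : Type :=
  {R : Subgroup K // (∃ N, Loc R N) ∧ R ≤ cen V ⊥ inferInstance}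

/-- The data of a family of local subgroups with equal codes. -/
private theorem codeB_dat {n l : ℕ} (hD : D1 K) (hML : ML l K) {V : Subgroup K} (hV : IsMono V)
    {ι : Type} [DecidableEq ι] [Nonempty ι] (R N : ι → Subgroup K)
    (hL : ∀ i, Loc (R i) (N i)) (hR : ∀ i, R i ≤ cen V ⊥ inferInstance)
    (hinj : Function.Injective R) (φ : ι → K →* Equiv.Perm (Fin n))
    (hφ : ∀ i, (φ i).ker = cen (R i) (N i) (hL i).nN) (q : K → Fin n)
    (hq : ∀ x y, q x = q y ↔ x⁻¹ * y ∈ cen V ⊥ inferInstance)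
    (hcode : ∀ i j y, ∃ y', q y' = q y ∧ φ j y' = φ i y) :
    ∃ D : Dat K ι (Equiv.Perm (Fin n)),
      (∀ T : Finset ι, l < T.card → D.B T = ⊥) ∧ Group.IsSolvable D.S ∧
      (∀ T : Subgroup K, T.Normal → Group.IsSolvable T → T ≤ D.S) := by
  obtain ⟨S, hSn, hSs, hSmax⟩ := exists_radical K
  obtain ⟨B₀, b1, b2, b3, b4, b5⟩ := hML ι R N hL hinj
  obtain ⟨i₀⟩ := (inferInstance : Nonempty ι)
  have hNS : ∀ i, N i ≤ S := fun i => hSmax (N i) (hL i).nN (loc_solv hD hV (hL i) (hR i))
  have hmap : ∀ i, (R i).map (φ i) = (cen V ⊥ inferInstance).map (φ i) := by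
    intro i
    refine le_antisymm (Subgroup.map_mono (hR i)) ?_
    have h1 : (cen V ⊥ inferInstance).map (φ i) ≤ (R i ⊔ cen (R i) (N i) (hL i).nN).map (φ i) :=
      Subgroup.map_mono (cen_le hD hV (hL i) (hR i))
    have h2 : (cen (R i) (N i) (hL i).nN).map (φ i) = ⊥ := by
      rw [Subgroup.map_eq_bot_iff, hφ i]
    rw [Subgroup.map_sup, h2, sup_bot_eq] at h1
    exact h1
  have hle : ∀ i j, (cen V ⊥ inferInstance).map (φ i) ≤ (cen V ⊥ inferInstance).map (φ j) := by
    rintro i j _ ⟨x, hx, rfl⟩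
    obtain ⟨y', h1, h2⟩ := hcode i j x
    refine ⟨y', ?_, h2⟩
    have h3 := (hq x y').1 h1.symm
    have h4 := Subgroup.mul_mem _ hx h3
    rwa [mul_inv_cancel_left] at h4
  have hW : ∀ i, (cen V ⊥ inferInstance).map (φ i) = (cen V ⊥ inferInstance).map (φ i₀) :=
    fun i => le_antisymm (hle i i₀) (hle i₀ i)
  refine ⟨{ R := R
            al := φ
            W := (cen V ⊥ inferInstance).map (φ i₀)
            B := fun T => B₀ T ⊓ ⨅ i ∈ T, R i
            S := S
            nR := fun i => (hL i).nR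
            nS := hSn
            nB := fun T => ?_
            antiB := fun T T' hT => ?_
            commB := fun T T' => ?_
            B1 := fun i => ?_
            B2 := fun T hT => ?_
            al_ne := fun i j hij x hx => ?_
            al_S := fun i x hx => ?_
            al_R := fun i => ?_
            al_ker := fun i x hx h => ?_
            al_co := fun i j y => ?_
            RS := fun i => loc_not_le_solv (hL i) S hSs }, fun T hT => ?_, hSs, hSmax⟩
  · have h1 := b1 T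
    have h2 : (⨅ i ∈ T, R i).Normal :=
      Subgroup.normal_iInf_normal fun i => Subgroup.normal_iInf_normal fun _ => (hL i).nR
    exact Subgroup.normal_inf_normal _ _
  · exact inf_le_inf (b2 T T' hT) (le_iInf₂ fun i hi => iInf₂_le i (hT hi))
  · refine le_inf ((Subgroup.commutator_mono inf_le_left inf_le_left).trans (b3 T T'))
      (le_iInf₂ fun i hi => ?_)
    have hn := (hL i).nR
    rcases Finset.mem_union.1 hi with h | h
    · exact (Subgroup.commutator_mono (inf_le_right.trans (iInf₂_le i h)) le_rfl).trans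
        (Subgroup.commutator_le_left _ _)
    · exact (Subgroup.commutator_mono le_rfl (inf_le_right.trans (iInf₂_le i h))).trans
        (Subgroup.commutator_le_right _ _)
  · show B₀ {i} ⊓ ⨅ j ∈ ({i} : Finset ι), R j = R i
    rw [Finset.iInf_singleton]
    exact inf_eq_right.2 (b4 i)
  · obtain ⟨a, ha, b, hb, hab⟩ := Finset.one_lt_card.1 (show 1 < T.card from hT)
    have h1 : B₀ T ⊓ ⨅ i ∈ T, R i ≤ R a ⊓ R b :=
      le_inf (inf_le_right.trans (iInf₂_le a ha)) (inf_le_right.trans (iInf₂_le b hb))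
    exact h1.trans ((loc_inf hD hV (hL a) (hL b) (hR a) (hR b) fun e => hab (hinj e)).trans (hNS a))
  · have h1 := loc_cen hD hV (hL i) (hL j) (hR i) (hR j) fun e => hij (hinj e)
    rw [← hφ i] at h1
    exact h1 hx
  · have h1 := solv_le_cen (hL i) S hSn hSs
    rw [← hφ i] at h1
    exact h1 hx
  · exact (hmap i).trans (hW i)
  · have h1 : x ∈ (φ i).ker := h
    rw [hφ i] at h1
    exact hNS i (loc_inf_cen (hL i) ⟨hx, h1⟩)
  · obtain ⟨y', h1, h2⟩ := hcode j i y
    have h3 := (hq y y').1 h1.symm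
    rw [← h2, ← map_inv, ← map_mul, ← hW i]
    exact Subgroup.mem_map_of_mem (φ i) h3
  · show B₀ T ⊓ ⨅ i ∈ T, R i = ⊥
    rw [b5 T hT, bot_inf_eq]

/-- PROOF. For `R : JJ V` choose `N R`, `φ R` with kernel `cen R (N R)` (`exists_perm`, `cen_index`,
`Loc.chief`), and `q` for `cen V ⊥` (`exists_code`, `cen_index`, `mono_chief`). The code of `R` is
the set `{(q y, φ R y) | y : K}` in `Set (Fin n × Equiv.Perm (Fin n))`, a type with
`2 ^ (n * n!)` elements. Pigeonhole (`Finset.exists_lt_card_fiber_of_mul_lt_card_of_maps_to`, or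
`Fintype`): some code `d` is the code of more than `k` elements; `ι` = the type of these elements.

The data: `R i = i.1`, `al i = φ i`, `S` = the soluble radical (`exists_radical`),
`B T = B₀ T ⊓ ⨅ i ∈ T, R i` with `B₀` from `ML l K`, `W = (cen V ⊥).map (φ i₀)` for some `i₀`.
- `(R i).map (φ i) = (cen V ⊥).map (φ i)`: `R i ≤ cen V ⊥ ≤ R i ⊔ cen (R i) (N i)` (`cen_le`).
- equal codes: for `y : K` there is `y'` with `q y' = q y`, `φ j y' = φ i y`. For `y ∈ cen V ⊥`,
  `q y = q 1`, so `y' ∈ cen V ⊥`: `(cen V ⊥).map (φ i) ≤ (cen V ⊥).map (φ j)`. So `al_R`. For all `y`: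
  `(φ j y)⁻¹ * φ i y = φ j (y⁻¹ * y')`, `y⁻¹ * y' ∈ cen V ⊥`: `al_co`.
- `al_ne`: `loc_cen`. `al_S`: `solv_le_cen`. `al_ker`: `loc_inf_cen`, `N i ≤ S` as it is soluble
  (`loc_solv`). `RS`: `loc_not_le_solv`.
- `B2`: for `i ≠ j` in `T`, `B T ≤ R i ⊓ R j ≤ N i ≤ S` (`loc_inf`).
- `commB`: `⁅B S, B T⁆ ≤ B₀ (S ∪ T)` and `≤ R i` for all `i ∈ S ∪ T` (normal subgroups). -/
theorem exists_dat {n l k : ℕ} (hD : D1 K) (hML : ML l K) (hn : ChiefBound n K) {V : Subgroup K}
    (hV : IsMono V)
    (hk : k * 2 ^ (n * n.factorial) < Nat.card (JJ V)) :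
    ∃ (ι : Type) (_ : DecidableEq ι) (_ : Fintype ι) (_ : Nonempty ι)
      (D : Dat K ι (Equiv.Perm (Fin n))), k < Fintype.card ι ∧
      (∀ T : Finset ι, l < T.card → D.B T = ⊥) ∧ Group.IsSolvable D.S ∧
      (∀ T : Subgroup K, T.Normal → Group.IsSolvable T → T ≤ D.S) := by
  classical
  have hfin : Finite (JJ V) := by
    unfold JJ
    infer_instance
  have hft : Fintype (JJ V) := Fintype.ofFinite _
  choose N hN using fun R : JJ V => R.2.1
  choose φ hφ using fun R : JJ V =>
    exists_perm n (cen R.1 (N R) (hN R).nN) (cen_normal _ _ (hN R).nR (hN R).nN)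
      (cen_index hn (hN R).chief)
  obtain ⟨q, hq⟩ := exists_code n (cen V ⊥ inferInstance) (cen_index hn (mono_chief hV))
  have hcard : Fintype.card (Set (Fin n × Equiv.Perm (Fin n))) = 2 ^ (n * n.factorial) := by
    rw [Fintype.card_set, Fintype.card_prod, Fintype.card_fin, Fintype.card_perm, Fintype.card_fin]
  obtain ⟨d, hd⟩ := Fintype.exists_lt_card_fiber_of_mul_lt_card
    (f := fun R : JJ V => ({p | ∃ y : K, p = (q y, φ R y)} : Set (Fin n × Equiv.Perm (Fin n))))
    (n := k) (by rw [hcard, ← Nat.card_eq_fintype_card, mul_comm]; exact hk)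
  have hk' : k < Fintype.card {R : JJ V // ({p | ∃ y : K, p = (q y, φ R y)} :
      Set (Fin n × Equiv.Perm (Fin n))) = d} := by
    rw [Fintype.card_subtype]
    exact hd
  have hne : Nonempty {R : JJ V // ({p | ∃ y : K, p = (q y, φ R y)} :
      Set (Fin n × Equiv.Perm (Fin n))) = d} :=
    Fintype.card_pos_iff.1 (lt_of_le_of_lt (Nat.zero_le k) hk')
  obtain ⟨D, h1, h2, h3⟩ := codeB_dat hD hML hV
    (ι := {R : JJ V // ({p | ∃ y : K, p = (q y, φ R y)} :
      Set (Fin n × Equiv.Perm (Fin n))) = d})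
    (fun i => i.1.1) (fun i => N i.1) (fun i => hN i.1) (fun i => i.1.2.2)
    (fun i j hij => Subtype.ext (Subtype.ext hij)) (fun i => φ i.1) (fun i => hφ i.1) q hq
    (fun i j y => by
      obtain ⟨y', hy'⟩ := (Set.ext_iff.1 (i.2.trans j.2.symm) (q y, φ i.1 y)).1 ⟨y, rfl⟩
      exact ⟨y', (congrArg Prod.fst hy').symm, (congrArg Prod.snd hy').symm⟩)
  exact ⟨_, inferInstance, inferInstance, hne, D, hk', h1, h2, h3⟩

end Inn

end MP799fdf
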