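import Pool.Agent.Lib.MP_799fdf_al.Inn.CodeB

/-! # Many local subgroups: a large class of similar ones (general version) -/

set_option autoImplicit false

open scoped commutatorElement

namespace MP799fdf

namespace Inn

variable {K : Type} [Group K] [Finite K]

/-- The data of a family of local subgroups with equal codes (general version). -/
private theorem codeC_dat {n l e : ℕ} (hML : ML l K) (E S₀ : Subgroup K)
    (hE : E.Normal) (hS₀ : S₀.Normal) (P : Subgroup K → Prop)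
    (hPE : ∀ R, P R → R ≤ E) (hPS : ∀ R, P R → ¬ R ≤ S₀)
    (h2 : ∀ R N, P R → ∀ h : Loc R N, E ≤ R ⊔ cen R N h.nN)
    (h3 : ∀ R N R', P R → P R' → ∀ h : Loc R N, R ≠ R' → R' ≤ cen R N h.nN)
    (h4 : ∀ R N R', P R → P R' → Loc R N → R ≠ R' → R ⊓ R' ≤ N)
    (h5 : ∀ R N, P R → Loc R N → N ≤ S₀)
    (h6 : ∀ R N, P R → ∀ h : Loc R N, S₀ ≤ cen R N h.nN)
    {ι : Type} [DecidableEq ι] [Nonempty ι] (R N : ι → Subgroup K)
    (hL : ∀ i, Loc (R i) (N i)) (hR : ∀ i, P (R i))
    (hinj : Function.Injective R) (φ : ι → K →* Equiv.Perm (Fin n))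
    (hφ : ∀ i, (φ i).ker = cen (R i) (N i) (hL i).nN) (q : K → Fin e)
    (hq : ∀ x y, q x = q y ↔ x⁻¹ * y ∈ E)
    (hcode : ∀ i j y, ∃ y', q y' = q y ∧ φ j y' = φ i y) :
    ∃ D : Dat K ι (Equiv.Perm (Fin n)),
      (∀ T : Finset ι, l < T.card → D.B T = ⊥) ∧ D.S = S₀ ∧ ∀ i, P (D.R i) := by
  obtain ⟨B₀, b1, b2, b3, b4, b5⟩ := hML ι R N hL hinj
  obtain ⟨i₀⟩ := (inferInstance : Nonempty ι)
  have hNS : ∀ i, N i ≤ S₀ := fun i => h5 _ _ (hR i) (hL i)
  have hmap : ∀ i, (R i).map (φ i) = E.map (φ i) := by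
    intro i
    refine le_antisymm (Subgroup.map_mono (hPE _ (hR i))) ?_
    have h1 : E.map (φ i) ≤ (R i ⊔ cen (R i) (N i) (hL i).nN).map (φ i) :=
      Subgroup.map_mono (h2 _ _ (hR i) (hL i))
    have h2 : (cen (R i) (N i) (hL i).nN).map (φ i) = ⊥ := by
      rw [Subgroup.map_eq_bot_iff, hφ i]
    rw [Subgroup.map_sup, h2, sup_bot_eq] at h1
    exact h1
  have hle : ∀ i j, E.map (φ i) ≤ E.map (φ j) := by
    rintro i j _ ⟨x, hx, rfl⟩
    obtain ⟨y', h1, h2⟩ := hcode i j x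
    refine ⟨y', ?_, h2⟩
    have h3 := (hq x y').1 h1.symm
    have h4 := Subgroup.mul_mem _ hx h3
    rwa [mul_inv_cancel_left] at h4
  have hW : ∀ i, E.map (φ i) = E.map (φ i₀) :=
    fun i => le_antisymm (hle i i₀) (hle i₀ i)
  refine ⟨{ R := R
            al := φ
            W := E.map (φ i₀)
            B := fun T => B₀ T ⊓ ⨅ i ∈ T, R i
            S := S₀
            nR := fun i => (hL i).nR
            nS := hS₀
            nB := fun T => ?_
            antiB := fun T T' hT => ?_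
            commB := fun T T' => ?_
            B1 := fun i => ?_
            B2 := fun T hT => ?_
            al_ne := fun i j hij x hx => ?_
            al_S := fun i x hx => ?_
            al_R := fun i => ?_
            al_ker := fun i x hx h => ?_
            al_co := fun i j y => ?_
            RS := fun i => hPS _ (hR i) }, fun T hT => ?_, rfl, hR⟩
  · have h1 := b1 T
    have h2 : (⨅ i ∈ T, R i).Normal :=
      Subgroup.normal_iInf_normal fun i => Subgroup.normal_iInf_normal fun _ => (hL i).nR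
    exact Subgroup.normal_inf_normal _ _
  · exact inf_le_inf (b2 T T' hT) (le_iInf₂ fun i hi => iInf₂_le i (hT hi))
  · refine le_inf ((Subgroup.commutator_mono inf_le_left inf_le_left).trans (b3 T T'))
      (le_iInf₂ fun i hi => ?_)
    have hn := (hL i).nR
    rcases Finset.mem_union.1 hi with h | h
    · exact (Subgroup.commutator_mono (inf_le_right.trans (iInf₂_le i h)) le_rfl).trans
        (Subgroup.commutator_le_left _ _)
    · exact (Subgroup.commutator_mono le_rfl (inf_le_right.trans (iInf₂_le i h))).trans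
        (Subgroup.commutator_le_right _ _)
  · show B₀ {i} ⊓ ⨅ j ∈ ({i} : Finset ι), R j = R i
    rw [Finset.iInf_singleton]
    exact inf_eq_right.2 (b4 i)
  · obtain ⟨a, ha, b, hb, hab⟩ := Finset.one_lt_card.1 (show 1 < T.card from hT)
    have h1 : B₀ T ⊓ ⨅ i ∈ T, R i ≤ R a ⊓ R b :=
      le_inf (inf_le_right.trans (iInf₂_le a ha)) (inf_le_right.trans (iInf₂_le b hb))
    exact h1.trans ((h4 _ _ _ (hR a) (hR b) (hL a) fun e => hab (hinj e)).trans (hNS a))
  · have h1 := h3 _ _ _ (hR i) (hR j) (hL i) fun e => hij (hinj e)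
    rw [← hφ i] at h1
    exact h1 hx
  · have h1 := h6 _ _ (hR i) (hL i)
    rw [← hφ i] at h1
    exact h1 hx
  · exact (hmap i).trans (hW i)
  · have h1 : x ∈ (φ i).ker := h
    rw [hφ i] at h1
    exact hNS i (loc_inf_cen (hL i) ⟨hx, h1⟩)
  · obtain ⟨y', h1, h2⟩ := hcode j i y
    have h3 := (hq y y').1 h1.symm
    rw [← h2, ← map_inv, ← map_mul, ← hW i]
    exact Subgroup.mem_map_of_mem (φ i) h3
  · show B₀ T ⊓ ⨅ i ∈ T, R i = ⊥
    rw [b5 T hT, bot_inf_eq]

/-- A general version of `exists_dat`.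

PROOF. Copy the proofs of `codeB_dat` and `exists_dat` in `CodeB.lean`, with `cen V ⊥` replaced by `E`
(index `≤ e`), the soluble radical by `S₀`, `JJ V` by `{R // P R}`, and `cen_le`, `loc_cen`, `loc_inf`,
`loc_solv`, `solv_le_cen`, `loc_not_le_solv` by `h2`, `h3`, `h4`, `h5`, `h6`, `hPS`. The code of `R` is the
set `{(q y, φ R y) | y : K}` in `Set (Fin e × Equiv.Perm (Fin n))`, a type with `2 ^ (e * n!)`
elements, where `q : K → Fin e` is from `exists_code e E he`. `B T = B₀ T ⊓ ⨅ i ∈ T, R i`,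
`W = E.map (φ i₀)`. -/
theorem exists_dat2 {n l k e : ℕ} (hML : ML l K) (hn : ChiefBound n K) (E S₀ : Subgroup K)
    (hE : E.Normal) (hS₀ : S₀.Normal) (he : E.index ≤ e) (P : Subgroup K → Prop)
    (hP : ∀ R, P R → ∃ N, Loc R N) (hPE : ∀ R, P R → R ≤ E) (hPS : ∀ R, P R → ¬ R ≤ S₀)
    (h2 : ∀ R N, P R → ∀ h : Loc R N, E ≤ R ⊔ cen R N h.nN)
    (h3 : ∀ R N R', P R → P R' → ∀ h : Loc R N, R ≠ R' → R' ≤ cen R N h.nN)
    (h4 : ∀ R N R', P R → P R' → Loc R N → R ≠ R' → R ⊓ R' ≤ N)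
    (h5 : ∀ R N, P R → Loc R N → N ≤ S₀)
    (h6 : ∀ R N, P R → ∀ h : Loc R N, S₀ ≤ cen R N h.nN)
    (hk : k * 2 ^ (e * n.factorial) < Nat.card {R : Subgroup K // P R}) :
    ∃ (ι : Type) (_ : DecidableEq ι) (_ : Fintype ι) (_ : Nonempty ι)
      (D : Dat K ι (Equiv.Perm (Fin n))), k < Fintype.card ι ∧
      (∀ T : Finset ι, l < T.card → D.B T = ⊥) ∧ D.S = S₀ ∧ ∀ i, P (D.R i) := by
  classical
  have hft : Fintype {R : Subgroup K // P R} := Fintype.ofFinite _
  choose N hN using fun R : {R : Subgroup K // P R} => hP R.1 R.2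
  choose φ hφ using fun R : {R : Subgroup K // P R} =>
    exists_perm n (cen R.1 (N R) (hN R).nN) (cen_normal _ _ (hN R).nR (hN R).nN)
      (cen_index hn (hN R).chief)
  obtain ⟨q, hq⟩ := exists_code e E he
  have hcard : Fintype.card (Set (Fin e × Equiv.Perm (Fin n))) = 2 ^ (e * n.factorial) := by
    rw [Fintype.card_set, Fintype.card_prod, Fintype.card_fin, Fintype.card_perm, Fintype.card_fin]
  obtain ⟨d, hd⟩ := Fintype.exists_lt_card_fiber_of_mul_lt_card
    (f := fun R : {R : Subgroup K // P R} =>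
      ({p | ∃ y : K, p = (q y, φ R y)} : Set (Fin e × Equiv.Perm (Fin n))))
    (n := k) (by rw [hcard, ← Nat.card_eq_fintype_card, mul_comm]; exact hk)
  have hk' : k < Fintype.card {R : {R : Subgroup K // P R} // ({p | ∃ y : K, p = (q y, φ R y)} :
      Set (Fin e × Equiv.Perm (Fin n))) = d} := by
    rw [Fintype.card_subtype]
    exact hd
  have hne : Nonempty {R : {R : Subgroup K // P R} // ({p | ∃ y : K, p = (q y, φ R y)} :
      Set (Fin e × Equiv.Perm (Fin n))) = d} :=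
    Fintype.card_pos_iff.1 (lt_of_le_of_lt (Nat.zero_le k) hk')
  obtain ⟨D, h1, h2, h3⟩ := codeC_dat hML E S₀ hE hS₀ P hPE hPS h2 h3 h4 h5 h6
    (ι := {R : {R : Subgroup K // P R} // ({p | ∃ y : K, p = (q y, φ R y)} :
      Set (Fin e × Equiv.Perm (Fin n))) = d})
    (fun i => i.1.1) (fun i => N i.1) (fun i => hN i.1) (fun i => i.1.2)
    (fun i j hij => Subtype.ext (Subtype.ext hij)) (fun i => φ i.1) (fun i => hφ i.1) q hq
    (fun i j y => by
      obtain ⟨y', hy'⟩ := (Set.ext_iff.1 (i.2.trans j.2.symm) (q y, φ i.1 y)).1 ⟨y, rfl⟩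
      exact ⟨y', (congrArg Prod.fst hy').symm, (congrArg Prod.snd hy').symm⟩)
  exact ⟨_, inferInstance, inferInstance, hne, D, hk', h1, h2, h3⟩

end Inn

end MP799fdf
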