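import Pool.Agent.Lib.MP_799fdf_al.Inn.LocB

/-! # The condition `D2` holds in `form G` -/

set_option autoImplicit false

open scoped commutatorElement

namespace MP799fdf

namespace Inn

/-- The group induced on `R / N` by the centraliser of a section `H / Y` of `R` that is central in
`R`, modulo inner automorphisms, has no abelian section `B / A` with `A`, `B` normal in `K`. -/
def D2 (K : Type) [Group K] : Prop :=
  ∀ (R N H Y : Subgroup K) (hL : Loc R N) (_ : H.Normal) (hY : Y.Normal), Y < H → H ≤ R →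
    ⁅H, R⁆ ≤ Y → ∀ A B : Subgroup K, A.Normal → B.Normal → R ≤ A → cen R N hL.nN ≤ A → A < B →
      B ≤ cen R N hL.nN ⊔ cen H Y hY → ¬ ⁅B, B⁆ ≤ A

/-- PROOF. Let `R N H Y A₁ B₁` be as in `D2 B`; `loc_lift` gives `R'`, `N' = R' ⊓ N.comap f`. Use
`D2 A` for `H' = H.comap f ⊓ R'`, `Y' = Y.comap f ⊓ R'`, `A' = A₁.comap f`, `B' = B₁.comap f`.
`H'.map f = H` since `H ≤ R = R'.map f`, and `Y'.map f ≤ Y`, so `Y' < H'`. `⁅H', R'⁆ ≤ Y'`.
`cen R' N' ≤ A'`: if `c ∈ cen R' N'` then `f c ∈ cen R N ≤ A₁`. `B' ≤ cen R' N' ⊔ cen H' Y'`: for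
`b ∈ B'`, `f b = c * d` with `c ∈ cen R N`, `d ∈ cen H Y` (`Subgroup.mem_sup_of_normal_left` or
similar; `cen_normal`); for `f c' = c`, `f d' = d`: `c' ∈ cen R' N'`, `d' ∈ cen H' Y'` and
`b = c' * d' * k`, `k ∈ f.ker ≤ cen R' N'` (as `f ⁅k, x⁆ = 1 ∈ N`). `⁅B', B'⁆ ≤ A'`:
`Subgroup.commutator_le`, `map_commutatorElement`. (Compare `d1_surj` in `D1A.lean`.) -/
theorem d2_surj {A B : Type} [Group A] [Finite A] [Group B] [Finite B] (f : A →* B)
    (hf : Function.Surjective f) (h : D2 A) : D2 B := by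
  intro R N H Y hL hH hY h1 h2 h3 A₁ B₁ hA hB hRA hcA hlt hBle hBB
  obtain ⟨R', N', hL', hmap, hN'⟩ := loc_lift f hf hL
  have hR'n := hL'.nR
  have hfR : ∀ x ∈ R', f x ∈ R := fun x hx => hmap ▸ Subgroup.mem_map_of_mem f hx
  have hcR : ∀ (c x : A), x ∈ R' → ⁅c, x⁆ ∈ R' := by
    intro c x hx
    rw [commutatorElement_def]
    exact R'.mul_mem (hR'n.conj_mem _ hx c) (R'.inv_mem hx)
  have hH' : (H.comap f ⊓ R').Normal := by
    have := hH.comap f
    infer_instance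
  have hY' : (Y.comap f ⊓ R').Normal := by
    have := hY.comap f
    infer_instance
  have hlt' : Y.comap f ⊓ R' < H.comap f ⊓ R' := by
    refine lt_of_le_not_ge (inf_le_inf_right _ (Subgroup.comap_mono h1.le)) fun hle => ?_
    refine absurd h1 (not_lt_of_ge fun x hx => ?_)
    have hxR : x ∈ R'.map f := by
      rw [hmap]
      exact h2 hx
    obtain ⟨r, hr, rfl⟩ := Subgroup.mem_map.1 hxR
    exact (hle (Subgroup.mem_inf.2 ⟨hx, hr⟩)).1
  have hcom : ⁅H.comap f ⊓ R', R'⁆ ≤ Y.comap f ⊓ R' := by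
    rw [Subgroup.commutator_le]
    intro x hx r hr
    refine Subgroup.mem_inf.2 ⟨?_, hcR x r hr⟩
    rw [Subgroup.mem_comap, map_commutatorElement]
    exact h3 (Subgroup.commutator_mem_commutator hx.1 (hfR r hr))
  have hcen1 : ∀ c' : A, f c' ∈ cen R N hL.nN → c' ∈ cen R' N' hL'.nN := by
    intro c' hc
    rw [mem_cen]
    intro x hx
    rw [hN']
    refine Subgroup.mem_inf.2 ⟨hcR c' x hx, ?_⟩
    rw [Subgroup.mem_comap, map_commutatorElement]
    exact hc _ (hfR x hx)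
  have hcen2 : ∀ c' ∈ cen R' N' hL'.nN, f c' ∈ cen R N hL.nN := by
    intro c' hc
    rw [mem_cen]
    intro x hx
    have hxR : x ∈ R'.map f := by
      rw [hmap]
      exact hx
    obtain ⟨y, hy, rfl⟩ := Subgroup.mem_map.1 hxR
    have h4 := mem_cen.1 hc y hy
    rw [hN'] at h4
    have h5 : f ⁅c', y⁆ ∈ N := h4.2
    rwa [map_commutatorElement] at h5
  have hcen3 : ∀ d' : A, f d' ∈ cen H Y hY → d' ∈ cen (H.comap f ⊓ R') (Y.comap f ⊓ R') hY' := by
    intro d' hd
    rw [mem_cen]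
    intro x hx
    refine Subgroup.mem_inf.2 ⟨?_, hcR d' x hx.2⟩
    rw [Subgroup.mem_comap, map_commutatorElement]
    exact hd _ hx.1
  refine h R' N' (H.comap f ⊓ R') (Y.comap f ⊓ R') hL' hH' hY' hlt' inf_le_right hcom
    (A₁.comap f) (B₁.comap f) (hA.comap f) (hB.comap f) ?_ ?_
    ((Subgroup.comap_lt_comap_of_surjective hf).2 hlt) ?_ ?_
  · intro x hx
    exact hRA (hfR x hx)
  · intro c hc
    exact hcA (hcen2 c hc)
  · intro b hb
    have hn : (cen R N hL.nN).Normal := cen_normal R N hL.nR hL.nN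
    obtain ⟨c, hc, e, he, hce⟩ := Subgroup.mem_sup_of_normal_left.1 (hBle (Subgroup.mem_comap.1 hb))
    obtain ⟨c', rfl⟩ := hf c
    have h6 : f (c'⁻¹ * b) = e := by
      rw [map_mul, map_inv, ← hce, inv_mul_cancel_left]
    have h7 : c' * (c'⁻¹ * b) = b := mul_inv_cancel_left c' b
    rw [← h7]
    refine Subgroup.mul_mem_sup (hcen1 c' hc) (hcen3 _ ?_)
    rw [h6]
    exact he
  · rw [Subgroup.commutator_le]
    intro x hx y hy
    rw [Subgroup.mem_comap, map_commutatorElement]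
    exact hBB (Subgroup.commutator_mem_commutator hx hy)

end Inn

end MP799fdf
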