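import Pool.Agent.Lib.MP_799fdf_al.Inn.D2A

/-! # The condition `D2` holds in `form G`, second part -/

set_option autoImplicit false

open scoped commutatorElement

namespace MP799fdf

namespace Inn

/-- PROOF. `¬ R ≤ f.ker` (else `H ≤ f.ker`, `H ≤ Y`), so `R ⊓ f.ker ≤ N` (`loc_inf_ker`),
`⁅f.ker, R⁆ ≤ N` and `f.ker ≤ cen R N ≤ A₁` (`le_cen_iff`). Use `D2 A` for the images of all six
subgroups (`loc_map`). `Y.map f < H.map f`: if `f h = f y` then `h * y⁻¹ ∈ H ⊓ f.ker ≤ Y`.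
`A₁.map f < B₁.map f` as `f.ker ≤ A₁`. `cen (R.map f) (N.map f) ≤ A₁.map f`: for `g' = f g` and `x ∈ R`,
`f ⁅g, x⁆ = f n`, `n ∈ N`, so `⁅g, x⁆ * n⁻¹ ∈ R ⊓ f.ker ≤ N`, `g ∈ cen R N ≤ A₁`.
`B₁.map f ≤ (cen R N).map f ⊔ (cen H Y).map f` (`Subgroup.map_sup`), and
`(cen R N).map f ≤ cen (R.map f) (N.map f)`, the same for `H, Y`. (Compare `d1_case`.) -/
theorem d2_case {K A : Type} [Group K] [Finite K] [Group A] [Finite A] (f : K →* A)
    (hf : Function.Surjective f) (hA : D2 A) {R N H Y : Subgroup K} (hL : Loc R N)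
    (hH : H.Normal) (hY : Y.Normal) (h1 : Y < H) (h2 : H ≤ R) (h3 : ⁅H, R⁆ ≤ Y)
    (hk : H ⊓ f.ker ≤ Y) (A₁ B₁ : Subgroup K) (hA₁ : A₁.Normal) (hB₁ : B₁.Normal) (hRA : R ≤ A₁)
    (hcA : cen R N hL.nN ≤ A₁) (hAB : A₁ < B₁) (hB : B₁ ≤ cen R N hL.nN ⊔ cen H Y hY) :
    ¬ ⁅B₁, B₁⁆ ≤ A₁ := by
  have hRn := hL.nR
  have hR : ¬ R ≤ f.ker := by
    intro hle
    exact absurd h1 (not_lt_of_ge ((le_inf le_rfl (h2.trans hle)).trans hk))
  have hlt : Y.map f < H.map f := by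
    refine lt_of_le_not_ge (Subgroup.map_mono h1.le) fun hle => ?_
    refine absurd h1 (not_lt_of_ge fun x hx => ?_)
    obtain ⟨y, hy, hxy⟩ := Subgroup.mem_map.1 (hle (Subgroup.mem_map_of_mem f hx))
    have h4 : x * y⁻¹ ∈ H ⊓ f.ker := by
      refine Subgroup.mem_inf.2 ⟨H.mul_mem hx (H.inv_mem (h1.le hy)), ?_⟩
      rw [MonoidHom.mem_ker, map_mul, map_inv, hxy, mul_inv_cancel]
    have h5 := Y.mul_mem (hk h4) hy
    rwa [inv_mul_cancel_right] at h5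
  have hcR : ∀ (c x : K), x ∈ R → ⁅c, x⁆ ∈ R := by
    intro c x hx
    rw [commutatorElement_def]
    exact R.mul_mem (hRn.conj_mem _ hx c) (R.inv_mem hx)
  have hkerA : f.ker ≤ A₁ := by
    intro k hkk
    refine hcA (mem_cen.2 fun x hx => loc_inf_ker hL hR (Subgroup.mem_inf.2 ⟨hcR k x hx, ?_⟩))
    rw [MonoidHom.mem_ker, map_commutatorElement, MonoidHom.mem_ker.1 hkk,
      commutatorElement_one_left]
  have hmapcen : ∀ {U V : Subgroup K} (hV : V.Normal) (hV' : (V.map f).Normal),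
      (cen U V hV).map f ≤ cen (U.map f) (V.map f) hV' := by
    intro U V hV hV' y hy
    obtain ⟨c, hc, rfl⟩ := Subgroup.mem_map.1 hy
    refine mem_cen.2 fun z hz => ?_
    obtain ⟨x, hx, rfl⟩ := Subgroup.mem_map.1 hz
    rw [← map_commutatorElement]
    exact Subgroup.mem_map_of_mem f (mem_cen.1 hc x hx)
  have hres := hA (R.map f) (N.map f) (H.map f) (Y.map f) (loc_map f hf hL hR)
    (hH.map f hf) (hY.map f hf) hlt (Subgroup.map_mono h2)
    (by rw [← Subgroup.map_commutator]; exact Subgroup.map_mono h3) (A₁.map f) (B₁.map f)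
    (hA₁.map f hf) (hB₁.map f hf) (Subgroup.map_mono hRA) ?_ ?_ ?_
  · intro hBB
    refine hres ?_
    rw [← Subgroup.map_commutator]
    exact Subgroup.map_mono hBB
  · intro y hy
    obtain ⟨g, rfl⟩ := hf y
    refine Subgroup.mem_map_of_mem f (hcA (mem_cen.2 fun x hx => ?_))
    have h4 := mem_cen.1 hy (f x) (Subgroup.mem_map_of_mem f hx)
    rw [← map_commutatorElement] at h4
    obtain ⟨n, hn, hnx⟩ := Subgroup.mem_map.1 h4
    have h6 : ⁅g, x⁆ * n⁻¹ ∈ R ⊓ f.ker := by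
      refine Subgroup.mem_inf.2 ⟨R.mul_mem (hcR g x hx) (R.inv_mem (hL.lt.le hn)), ?_⟩
      rw [MonoidHom.mem_ker, map_mul, map_inv, hnx, mul_inv_cancel]
    have h7 := N.mul_mem (loc_inf_ker hL hR h6) hn
    rwa [inv_mul_cancel_right] at h7
  · refine lt_of_le_not_ge (Subgroup.map_mono hAB.le) fun hle => ?_
    refine absurd hAB (not_lt_of_ge fun x hx => ?_)
    obtain ⟨a, ha, hxa⟩ := Subgroup.mem_map.1 (hle (Subgroup.mem_map_of_mem f hx))
    have h4 : x * a⁻¹ ∈ f.ker := by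
      rw [MonoidHom.mem_ker, map_mul, map_inv, hxa, mul_inv_cancel]
    have h5 := A₁.mul_mem (hkerA h4) ha
    rwa [inv_mul_cancel_right] at h5
  · refine (Subgroup.map_mono hB).trans ?_
    rw [Subgroup.map_sup]
    exact sup_le_sup (hmapcen _ _) (hmapcen _ _)

/-- PROOF. If `H ⊓ f.ker ≤ Y` or `H ⊓ g.ker ≤ Y`, use `d2_case`. Otherwise take
`H₁ = H ⊓ f.ker`, `Y₁ = Y ⊓ f.ker`: `Y₁ < H₁`, `⁅H₁, R⁆ ≤ Y₁`, `cen H Y ≤ cen H₁ Y₁`, and
`H₁ ⊓ g.ker = ⊥ ≤ Y₁`: `d2_case` for `g` and `(R, N, H₁, Y₁)`. (Compare `d1_sub`.) -/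
theorem d2_sub {K A B : Type} [Group K] [Finite K] [Group A] [Finite A] [Group B] [Finite B]
    (f : K →* A) (g : K →* B) (hf : Function.Surjective f) (hg : Function.Surjective g)
    (hA : D2 A) (hB : D2 B) (h : ∀ x, f x = 1 → g x = 1 → x = 1) : D2 K := by
  intro R N H Y hL hH hY h1 h2 h3 A₁ B₁ hA₁ hB₁ hRA hcA hAB hB1
  by_cases hk : H ⊓ f.ker ≤ Y
  · exact d2_case f hf hA hL hH hY h1 h2 h3 hk A₁ B₁ hA₁ hB₁ hRA hcA hAB hB1
  · have hRn := hL.nR
    have hlt : Y ⊓ f.ker < H ⊓ f.ker :=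
      lt_of_le_not_ge (inf_le_inf_right _ h1.le) fun hle => hk (hle.trans inf_le_left)
    have hkn : f.ker.Normal := inferInstance
    refine d2_case g hg hB (H := H ⊓ f.ker) (Y := Y ⊓ f.ker) hL inferInstance inferInstance hlt
      (inf_le_left.trans h2) ?_ ?_ A₁ B₁ hA₁ hB₁ hRA hcA hAB (hB1.trans (sup_le_sup le_rfl ?_))
    · refine le_inf ((Subgroup.commutator_mono inf_le_left le_rfl).trans h3) ?_
      exact (Subgroup.commutator_mono inf_le_right le_rfl).trans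
        (Subgroup.commutator_le_left f.ker R)
    · intro x hx
      have hx1 : x = 1 := h x hx.1.2 hx.2
      rw [hx1]
      exact Subgroup.one_mem _
    · intro y hy
      refine mem_cen.2 fun x hx => Subgroup.mem_inf.2 ⟨mem_cen.1 hy x hx.1, ?_⟩
      rw [commutatorElement_def]
      exact f.ker.mul_mem (hkn.conj_mem _ hx.2 y) (f.ker.inv_mem hx.2)

theorem d2_form {G : Type} [Group G] [Finite G] (hG : D2 G) (K : Type) [Group K] [Finite K]
    (hK : (form G).mem K) : D2 K :=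
  form_induction (G := G) (fun H _ _ => D2 H)
    (fun _ _ _ _ _ _ f hf h => d2_surj f hf h)
    (fun _ _ _ _ _ _ _ _ _ f g hf hg hA hB h => d2_sub f g hf hg hA hB h) hG K hK

end Inn

end MP799fdf
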