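import Pool.Agent.Lib.MP_799fdf_al.Inn.DatA

/-! # The group `Gam` -/

set_option autoImplicit false

open scoped commutatorElement

namespace MP799fdf

namespace Inn

variable {K ι A X : Type} [Group K] [Group A] [DecidableEq ι] [Fintype ι]

open Classical in
/-- The function with value `r j` if `c j = x`, and `1` if `x` is not a value of `c`. -/
noncomputable def gx {Y : Set X} (x : X) (r : ι → K) (c : Emb ι Y) : K :=
  if h : ∃ j, c.1 j = x then r h.choose else 1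

theorem gx_eq {Y : Set X} (r : ι → K) (c : Emb ι Y) (j : ι) : gx (c.1 j) r c = r j := by
  have h : ∃ j', c.1 j' = c.1 j := ⟨j, rfl⟩
  unfold gx
  rw [dif_pos h, c.2.1 h.choose_spec]

theorem gx_ne {Y : Set X} (x : X) (r : ι → K) (c : Emb ι Y) (h : ∀ j, c.1 j ≠ x) :
    gx x r c = 1 := by
  unfold gx
  rw [dif_neg]
  rintro ⟨j, hj⟩
  exact h j hj

/-- The group generated by the constants in `K0` and by the functions `gx x r`, `r ∈ FF`. -/
noncomputable def Gam (D : Dat K ι A) (Y : Set X) : Subgroup (Emb ι Y → K) :=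
  Subgroup.closure ({g | ∃ k ∈ D.K0, g = fun _ => k} ∪ {g | ∃ x, ∃ r ∈ D.FF, g = gx x r})

variable (D : Dat K ι A)

/-- PROOF. The image of the evaluation at `c` contains `K0` and every `R j` (`exists_FF`, `gx_eq` with
`x = c j`), so it is `⊤` by `K0_sup`. -/
theorem ev_surj [Nonempty ι] {Y : Set X} (c : Emb ι Y) :
    Function.Surjective (fun γ : Gam D Y => γ.1 c) := by
  set ev : Gam D Y →* K := (Pi.evalMonoidHom (fun _ : Emb ι Y => K) c).comp (Gam D Y).subtype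
    with hev
  have h1 : D.K0 ⊔ ⨆ i, D.R i ≤ ev.range := by
    refine sup_le ?_ (iSup_le fun j => ?_)
    · intro k hk
      exact ⟨⟨fun _ => k, Subgroup.subset_closure (Or.inl ⟨k, hk, rfl⟩)⟩, rfl⟩
    · intro x hx
      obtain ⟨r, hr, hrx⟩ := D.exists_FF j x hx
      refine ⟨⟨gx (c.1 j) r, Subgroup.subset_closure (Or.inr ⟨c.1 j, r, hr, rfl⟩)⟩, ?_⟩
      show gx (c.1 j) r c = x
      rw [gx_eq, hrx]
  intro y
  have h2 : y ∈ ev.range := h1 (by rw [D.K0_sup]; exact Subgroup.mem_top y)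
  obtain ⟨γ, hγ⟩ := h2
  exact ⟨γ, hγ⟩

theorem W_conj_aux (i : ι) (k : K) (w : A) (hw : w ∈ D.W) :
    D.al i k * w * (D.al i k)⁻¹ ∈ D.W := by
  rw [← D.al_R i] at hw ⊢
  obtain ⟨x, hx, rfl⟩ := hw
  exact ⟨k * x * k⁻¹, (D.nR i).conj_mem x hx k, by rw [map_mul, map_mul, map_inv]⟩

/-- The values in the coordinates depend only on the position.

PROOF. Closure induction; constants `k ∈ K0`: `a x = al i₀ k`; `gx x r`: `a y = al i₀ (r i₀)` if `y = x`,
`1` otherwise (`gx_eq`, `gx_ne`, `al_ne`). -/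
theorem exists_pos [Nonempty ι] {Y : Set X} (γ : Emb ι Y → K) (hγ : γ ∈ Gam D Y) :
    ∃ a : X → A, (∀ c j, D.al j (γ c) = a (c.1 j)) ∧ ∀ x y, (a x)⁻¹ * a y ∈ D.W := by
  classical
  obtain ⟨i₀⟩ := ‹Nonempty ι›
  suffices h : ∃ a : X → A, (∀ c j, D.al j (γ c) = a (c.1 j)) ∧ (∀ x y, (a x)⁻¹ * a y ∈ D.W) ∧
      ∀ x, ∃ k, a x = D.al i₀ k by
    obtain ⟨a, h1, h2, -⟩ := h
    exact ⟨a, h1, h2⟩
  refine Subgroup.closure_induction (p := fun γ _ => ∃ a : X → A,
    (∀ c j, D.al j (γ c) = a (c.1 j)) ∧ (∀ x y, (a x)⁻¹ * a y ∈ D.W) ∧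
      ∀ x, ∃ k, a x = D.al i₀ k) ?_ ?_ ?_ ?_ hγ
  · rintro g (⟨k, hk, rfl⟩ | ⟨x, r, hr, rfl⟩)
    · refine ⟨fun _ => D.al i₀ k, fun c j => hk j i₀, fun x y => ?_, fun x => ⟨k, rfl⟩⟩
      rw [inv_mul_cancel]
      exact D.W.one_mem
    · have hW : D.al i₀ (r i₀) ∈ D.W := by
        rw [← D.al_R i₀]
        exact ⟨r i₀, hr.1 i₀, rfl⟩
      have hmem : ∀ y, (if y = x then D.al i₀ (r i₀) else 1) ∈ D.W := by
        intro y
        split_ifs
        · exact hW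
        · exact D.W.one_mem
      refine ⟨fun y => if y = x then D.al i₀ (r i₀) else 1, fun c j => ?_, fun y z => ?_,
        fun y => ?_⟩
      · by_cases h : c.1 j = x
        · subst h
          rw [gx_eq]
          show D.al j (r j) = if c.1 j = c.1 j then D.al i₀ (r i₀) else 1
          rw [if_pos rfl]
          exact hr.2 j i₀
        · show D.al j (gx x r c) = if c.1 j = x then D.al i₀ (r i₀) else 1
          rw [if_neg h]
          by_cases h' : ∃ j', c.1 j' = x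
          · obtain ⟨j', rfl⟩ := h'
            rw [gx_eq]
            exact D.al_ne j j' (fun e => h (by rw [e])) _ (hr.1 j')
          · rw [gx_ne x r c (fun j' e => h' ⟨j', e⟩), map_one]
      · exact D.W.mul_mem (D.W.inv_mem (hmem y)) (hmem z)
      · by_cases h : y = x
        · exact ⟨r i₀, if_pos h⟩
        · exact ⟨1, by rw [map_one]; exact if_neg h⟩
  · refine ⟨fun _ => 1, fun c j => ?_, fun x y => ?_, fun x => ⟨1, (map_one _).symm⟩⟩
    · rw [Pi.one_apply, map_one]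
    · rw [inv_one, one_mul]
      exact D.W.one_mem
  · rintro g g' _ _ ⟨a, h1, h2, h3⟩ ⟨b, h4, h5, h6⟩
    refine ⟨fun x => a x * b x, fun c j => ?_, fun x y => ?_, fun x => ?_⟩
    · rw [Pi.mul_apply, map_mul, h1, h4]
    · obtain ⟨k, hk⟩ := h6 y
      have e : (a x * b x)⁻¹ * (a y * b y) =
          ((b x)⁻¹ * b y) * (D.al i₀ k⁻¹ * ((a x)⁻¹ * a y) * (D.al i₀ k⁻¹)⁻¹) := by
        rw [map_inv, ← hk]
        group
      rw [e]
      exact D.W.mul_mem (h5 x y) (W_conj_aux D i₀ _ _ (h2 x y))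
    · obtain ⟨k, hk⟩ := h3 x
      obtain ⟨k', hk'⟩ := h6 x
      exact ⟨k * k', by rw [map_mul, ← hk, ← hk']⟩
  · rintro g _ ⟨a, h1, h2, h3⟩
    refine ⟨fun x => (a x)⁻¹, fun c j => ?_, fun x y => ?_, fun x => ?_⟩
    · rw [Pi.inv_apply, map_inv, h1]
    · obtain ⟨k, hk⟩ := h3 y
      have e : ((a x)⁻¹)⁻¹ * (a y)⁻¹ = D.al i₀ k * ((a y)⁻¹ * a x) * (D.al i₀ k)⁻¹ := by
        rw [← hk]
        group
      rw [e]
      exact W_conj_aux D i₀ _ _ (h2 y x)
    · obtain ⟨k, hk⟩ := h3 x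
      exact ⟨k⁻¹, by rw [map_inv, ← hk]⟩

theorem iSup_R_normal_aux : (⨆ i, D.R i).Normal := by
  constructor
  intro n hn g
  have h1 : ∀ i, ((D.R i).map (MulAut.conj g).toMonoidHom) ≤ D.R i := by
    intro i
    rintro _ ⟨x, hx, rfl⟩
    exact (D.nR i).conj_mem x hx g
  have h2 : (⨆ i, D.R i).map (MulAut.conj g).toMonoidHom ≤ ⨆ i, D.R i := by
    rw [Subgroup.map_iSup]
    exact iSup_le fun i => (h1 i).trans (le_iSup _ i)
  exact h2 ⟨n, hn, rfl⟩

/-- PROOF. Closure induction; the subgroup is normal. -/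
theorem gam_co {Y : Set X} (γ : Emb ι Y → K) (hγ : γ ∈ Gam D Y) (c c' : Emb ι Y) :
    (γ c)⁻¹ * γ c' ∈ ⨆ i, D.R i := by
  have hN := iSup_R_normal_aux D
  refine Subgroup.closure_induction (p := fun γ _ => ∀ c c' : Emb ι Y,
    (γ c)⁻¹ * γ c' ∈ ⨆ i, D.R i) ?_ ?_ ?_ ?_ hγ c c'
  · rintro g (⟨k, hk, rfl⟩ | ⟨x, r, hr, rfl⟩) c c'
    · rw [inv_mul_cancel]
      exact Subgroup.one_mem _
    · have hmem : ∀ c : Emb ι Y, gx x r c ∈ ⨆ i, D.R i := by
        intro c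
        by_cases h' : ∃ j', c.1 j' = x
        · obtain ⟨j', rfl⟩ := h'
          rw [gx_eq]
          exact (le_iSup D.R j') (hr.1 j')
        · rw [gx_ne x r c (fun j' e => h' ⟨j', e⟩)]
          exact Subgroup.one_mem _
      exact Subgroup.mul_mem _ (Subgroup.inv_mem _ (hmem c)) (hmem c')
  · intro c c'
    rw [Pi.one_apply, Pi.one_apply, inv_one, one_mul]
    exact Subgroup.one_mem _
  · rintro g g' _ _ h1 h2 c c'
    have e : ((g * g') c)⁻¹ * (g * g') c' =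
        ((g' c)⁻¹ * g' c') * ((g' c')⁻¹ * ((g c)⁻¹ * g c') * ((g' c')⁻¹)⁻¹) := by
      rw [Pi.mul_apply, Pi.mul_apply]
      group
    rw [e]
    exact Subgroup.mul_mem _ (h2 c c') (hN.conj_mem _ (h1 c c') _)
  · rintro g _ h1 c c'
    have e : (g⁻¹ c)⁻¹ * g⁻¹ c' = g c' * ((g c')⁻¹ * g c) * (g c')⁻¹ := by
      rw [Pi.inv_apply, Pi.inv_apply]
      group
    rw [e]
    exact hN.conj_mem _ (h1 c' c) _

end Inn

end MP799fdf
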