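import Pool.Agent.Lib.MP_799fdf_al.Inn.DatA2

/-! # Local functions and the group `Gam` -/

set_option autoImplicit false

open scoped commutatorElement

namespace MP799fdf

namespace Inn

variable {K ι A X : Type} [Group K] [Group A] [DecidableEq ι] [Fintype ι] (D : Dat K ι A)

open Classical in
/-- The `j`-th factor of `gx x r`. -/
noncomputable def gxF {Y : Set X} (x : X) (r : ι → K) (j : ι) (c : Emb ι Y) : K :=
  if c.1 j = x then r j else 1

omit [Fintype ι] [DecidableEq ι] in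
theorem gxF_prod_one {Y : Set X} (x : X) (r : ι → K) (c : Emb ι Y) (l : List ι)
    (h : ∀ j ∈ l, c.1 j ≠ x) : (l.map (gxF (Y := Y) x r)).prod c = 1 := by
  induction l with
  | nil => rfl
  | cons j l ih =>
    rw [List.map_cons, List.prod_cons, Pi.mul_apply, ih fun i hi => h i (List.mem_cons_of_mem _ hi),
      mul_one, gxF, if_neg (h j List.mem_cons_self)]

omit [Fintype ι] [DecidableEq ι] in
theorem gxF_prod {Y : Set X} (x : X) (r : ι → K) (c : Emb ι Y) (l : List ι) (hl : l.Nodup)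
    (j : ι) (hj : j ∈ l) (hx : c.1 j = x) : (l.map (gxF (Y := Y) x r)).prod c = r j := by
  induction l with
  | nil => exact absurd hj List.not_mem_nil
  | cons i l ih =>
    rw [List.map_cons, List.prod_cons, Pi.mul_apply]
    rw [List.nodup_cons] at hl
    rcases List.mem_cons.1 hj with h | h
    · subst h
      rw [gxF_prod_one x r c l, mul_one, gxF, if_pos hx]
      intro i hi h1
      have h2 : i = j := c.2.1 (h1.trans hx.symm)
      exact hl.1 (h2 ▸ hi)
    · rw [ih hl.2 h, gxF, if_neg, one_mul]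
      intro h1
      have h2 : i = j := c.2.1 (h1.trans hx.symm)
      exact hl.1 (h2 ▸ h)

theorem gxF_lf {Y : Set X} (x : X) (r : ι → K) (hr : r ∈ D.FF) (Z : Finset X) (hx : x ∉ Z)
    (j : ι) : LF D.B ⊤ {j} Z (gxF (Y := Y) x r j) := by
  refine ⟨fun c => Subgroup.mem_top _, fun c => ?_, fun c c' h => ?_, fun c h => ?_⟩
  · rw [gxF, D.B1]
    split
    · exact hr.1 j
    · exact (D.R j).one_mem
  · rw [gxF, gxF, h j (Finset.mem_singleton_self j)]
  · rw [gxF, if_neg]
    intro h1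
    exact hx (h1 ▸ h j (Finset.mem_singleton_self j))

theorem const_conj_ww {Y : Set X} (k : K) (Z : Finset X) (w : Emb ι Y → K)
    (hw : w ∈ WW D.B Y ⊤ Z) :
    (fun _ => k : Emb ι Y → K) * w * (fun _ => k : Emb ι Y → K)⁻¹ ∈ WW D.B Y ⊤ Z := by
  unfold WW at hw ⊢
  induction hw using Subgroup.closure_induction with
  | mem g hg =>
    obtain ⟨U, hU⟩ := hg
    refine Subgroup.subset_closure ⟨U, ⟨fun c => Subgroup.mem_top _, fun c => ?_,
      fun c c' h => ?_, fun c h => ?_⟩⟩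
    · exact (D.nB U).conj_mem _ (hU.memB c) k
    · change k * g c * k⁻¹ = k * g c' * k⁻¹
      rw [hU.loc c c' h]
    · change k * g c * k⁻¹ = 1
      rw [hU.van c h, mul_one, mul_inv_cancel]
  | one => rw [mul_one, mul_inv_cancel]; exact Subgroup.one_mem _
  | mul a b _ _ ha hb =>
    have h1 : (fun _ => k : Emb ι Y → K) * (a * b) * (fun _ => k : Emb ι Y → K)⁻¹ =
        ((fun _ => k : Emb ι Y → K) * a * (fun _ => k : Emb ι Y → K)⁻¹) *
        ((fun _ => k : Emb ι Y → K) * b * (fun _ => k : Emb ι Y → K)⁻¹) := by group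
    rw [h1]
    exact Subgroup.mul_mem _ ha hb
  | inv a _ ha =>
    have h1 : (fun _ => k : Emb ι Y → K) * a⁻¹ * (fun _ => k : Emb ι Y → K)⁻¹ =
        ((fun _ => k : Emb ι Y → K) * a * (fun _ => k : Emb ι Y → K)⁻¹)⁻¹ := by group
    rw [h1]
    exact Subgroup.inv_mem _ ha

/-- PROOF. `gx x r` is the product over `j` (commuting functions, as at every `c` at most one is
nontrivial; e.g. over `Finset.univ.toList`) of the `{j}`-local functions
`c ↦ if c j = x then r j else 1`, which vanish if `c j ∈ Z`. -/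
theorem gx_mem {Y : Set X} (x : X) (r : ι → K) (hr : r ∈ D.FF) (Z : Finset X) (hx : x ∉ Z) :
    gx x r ∈ WW D.B Y ⊤ Z := by
  have h1 : gx x r = ((Finset.univ : Finset ι).toList.map (gxF (Y := Y) x r)).prod := by
    funext c
    by_cases h : ∃ j, c.1 j = x
    · obtain ⟨j, hj⟩ := h
      rw [gxF_prod x r c _ (Finset.nodup_toList _) j (Finset.mem_toList.2 (Finset.mem_univ j)) hj,
        ← hj, gx_eq]
    · push Not at h
      rw [gx_ne x r c h, gxF_prod_one x r c _ fun j _ => h j]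
  rw [h1]
  refine Subgroup.list_prod_mem _ fun g hg => ?_
  obtain ⟨j, -, rfl⟩ := List.mem_map.1 hg
  exact Subgroup.subset_closure ⟨{j}, gxF_lf D x r hr Z hx j⟩

/-- PROOF. Closure induction on `γ`: constants `k`: conjugation of a local function by a constant is
local (`nB`); `gx x r ∈ WW D.B Y ⊤ ∅` (`gx_mem`), `conj_ww` for `A = ⊤`. Also for inverses. -/
theorem gam_conj {Y : Set X} (γ : Emb ι Y → K) (hγ : γ ∈ Gam D Y) (Z : Finset X)
    (w : Emb ι Y → K) (hw : w ∈ WW D.B Y ⊤ Z) : γ * w * γ⁻¹ ∈ WW D.B Y ⊤ Z := by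
  have key : (∀ w ∈ WW D.B Y ⊤ Z, γ * w * γ⁻¹ ∈ WW D.B Y ⊤ Z) ∧
      ∀ w ∈ WW D.B Y ⊤ Z, γ⁻¹ * w * γ⁻¹⁻¹ ∈ WW D.B Y ⊤ Z := by
    unfold Gam at hγ
    induction hγ using Subgroup.closure_induction with
    | mem g hg =>
      rcases hg with ⟨k, -, rfl⟩ | ⟨x, r, hr, rfl⟩
      · exact ⟨fun w hw => const_conj_ww D k Z w hw, fun w hw => const_conj_ww D k⁻¹ Z w hw⟩
      · have h1 : gx x r ∈ WW D.B Y ⊤ (∅ : Finset X) := gx_mem D x r hr ∅ (Finset.notMem_empty x)
        exact ⟨fun w hw => conj_ww D.commB Subgroup.normal_top h1 hw,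
          fun w hw => conj_ww D.commB Subgroup.normal_top (Subgroup.inv_mem _ h1) hw⟩
    | one =>
      refine ⟨fun w hw => ?_, fun w hw => ?_⟩
      · rwa [one_mul, inv_one, mul_one]
      · rwa [inv_one, one_mul, inv_one, mul_one]
    | mul a b _ _ ha hb =>
      refine ⟨fun w hw => ?_, fun w hw => ?_⟩
      · have h1 : a * b * w * (a * b)⁻¹ = a * (b * w * b⁻¹) * a⁻¹ := by group
        rw [h1]
        exact ha.1 _ (hb.1 w hw)
      · have h1 : (a * b)⁻¹ * w * (a * b)⁻¹⁻¹ = b⁻¹ * (a⁻¹ * w * a⁻¹⁻¹) * b⁻¹⁻¹ := by group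
        rw [h1]
        exact hb.2 _ (ha.2 w hw)
    | inv a _ ha =>
      refine ⟨ha.2, fun w hw => ?_⟩
      have h1 : a⁻¹⁻¹ * w * a⁻¹⁻¹⁻¹ = a * w * a⁻¹ := by group
      rw [h1]
      exact ha.1 w hw
  exact key.1 w hw

end Inn

end MP799fdf
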