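import Pool.Agent.Lib.MP_799fdf_al.Inn.DatA3

/-! # Quotients of `Gam` -/

set_option autoImplicit false

open scoped commutatorElement

namespace MP799fdf

namespace Inn

variable {K ι A X : Type} [Group K] [Group A] [DecidableEq ι] [Fintype ι] (D : Dat K ι A)

/-- The group generated by the `S`-valued local functions and by the `{j}`-local functions,
`j ∈ s`. -/
private def datBC (Y : Set X) (Z : Finset X) (s : Finset ι) : Subgroup (Emb ι Y → K) :=
  Subgroup.closure {g | (∃ U, LF D.B D.S U Z g) ∨ ∃ j ∈ s, LF D.B ⊤ {j} Z g}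

omit [Fintype ι] in
private theorem datB_gen_S {Y : Set X} {Z : Finset X} {s : Finset ι} {U : Finset ι}
    {g : Emb ι Y → K} (hg : LF D.B D.S U Z g) : g ∈ datBC D Y Z s :=
  Subgroup.subset_closure (Or.inl ⟨U, hg⟩)

omit [Fintype ι] in
private theorem datB_gen_j {Y : Set X} {Z : Finset X} {s : Finset ι} {j : ι} (hj : j ∈ s)
    {g : Emb ι Y → K} (hg : LF D.B ⊤ {j} Z g) : g ∈ datBC D Y Z s :=
  Subgroup.subset_closure (Or.inr ⟨j, hj, hg⟩)

omit [Fintype ι] in
private theorem datB_conj {Y : Set X} {Z : Finset X} {s : Finset ι} {i : ι}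
    {r : Emb ι Y → K} (hr : LF D.B ⊤ {i} Z r) {h : Emb ι Y → K} (hh : h ∈ datBC D Y Z s) :
    r * h * r⁻¹ ∈ datBC D Y Z s := by
  induction hh using Subgroup.closure_induction with
  | mem g hg =>
    have h1 : r * g * r⁻¹ = ⁅r, g⁆ * g := by
      simp only [commutatorElement_def]
      group
    rw [h1]
    rcases hg with ⟨U, hg⟩ | ⟨j, hj, hg⟩
    · have h2 := LF.comm D.commB hr hg
      have h3 : ⁅(⊤ : Subgroup K), D.S⁆ ≤ D.S := by
        have := D.nS
        exact Subgroup.commutator_le_right _ _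
      exact Subgroup.mul_mem _ (datB_gen_S D (h2.mono_A h3)) (datB_gen_S D hg)
    · have h2 := LF.comm D.commB hr hg
      by_cases hij : i = j
      · subst hij
        have h3 : LF D.B ⊤ {i} Z ⁅r, g⁆ := by
          have h4 := h2.mono_A (le_top : _ ≤ (⊤ : Subgroup K))
          rwa [Finset.union_self] at h4
        exact Subgroup.mul_mem _ (datB_gen_j D hj h3) (datB_gen_j D hj hg)
      · have h3 : LF D.B D.S ({i} ∪ {j}) Z ⁅r, g⁆ := by
          refine ⟨fun c => ?_, h2.memB, h2.loc, h2.van⟩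
          refine D.B2 ({i} ∪ {j}) ?_ (h2.memB c)
          rw [Finset.card_union_of_disjoint (by simpa using hij)]
          simp
        exact Subgroup.mul_mem _ (datB_gen_S D h3) (datB_gen_j D hj hg)
  | one => simp
  | mul x y _ _ hx hy =>
    have h1 : r * (x * y) * r⁻¹ = (r * x * r⁻¹) * (r * y * r⁻¹) := by group
    rw [h1]
    exact Subgroup.mul_mem _ hx hy
  | inv x _ hx =>
    have h1 : r * x⁻¹ * r⁻¹ = (r * x * r⁻¹)⁻¹ := by group
    rw [h1]
    exact Subgroup.inv_mem _ hx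

omit [Fintype ι] in
private theorem datB_split {Y : Set X} {Z : Finset X} {s : Finset ι} {i : ι}
    {v : Emb ι Y → K} (hv : v ∈ datBC D Y Z (insert i s)) :
    ∃ r v' : Emb ι Y → K, LF D.B ⊤ {i} Z r ∧ v' ∈ datBC D Y Z s ∧ v = r * v' := by
  induction hv using Subgroup.closure_induction with
  | mem g hg =>
    rcases hg with ⟨U, hg⟩ | ⟨j, hj, hg⟩
    · exact ⟨1, g, LF.one _ _ _, datB_gen_S D hg, by simp⟩
    · rcases Finset.mem_insert.1 hj with rfl | hj
      · exact ⟨g, 1, hg, Subgroup.one_mem _, by simp⟩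
      · exact ⟨1, g, LF.one _ _ _, datB_gen_j D hj hg, by simp⟩
  | one => exact ⟨1, 1, LF.one _ _ _, Subgroup.one_mem _, by simp⟩
  | mul x y _ _ hx hy =>
    obtain ⟨r, x', hr, hx', rfl⟩ := hx
    obtain ⟨t, y', ht, hy', rfl⟩ := hy
    refine ⟨r * t, t⁻¹ * x' * t⁻¹⁻¹ * y', hr.mul ht,
      Subgroup.mul_mem _ (datB_conj D ht.inv hx') hy', ?_⟩
    group
  | inv x _ hx =>
    obtain ⟨r, x', hr, hx', rfl⟩ := hx
    refine ⟨r⁻¹, r * x'⁻¹ * r⁻¹, hr.inv, datB_conj D hr (Subgroup.inv_mem _ hx'), ?_⟩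
    group

omit [Fintype ι] in
private theorem datB_al {Y : Set X} {Z : Finset X} {s : Finset ι} {i : ι} (hi : i ∉ s)
    {v : Emb ι Y → K} (hv : v ∈ datBC D Y Z s) (c : Emb ι Y) : D.al i (v c) = 1 := by
  induction hv using Subgroup.closure_induction with
  | mem g hg =>
    rcases hg with ⟨U, hg⟩ | ⟨j, hj, hg⟩
    · exact D.al_S i _ (hg.mem c)
    · have hij : i ≠ j := by
        rintro rfl
        exact hi hj
      have h1 := hg.memB c
      rw [D.B1] at h1
      exact D.al_ne i j hij _ h1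
  | one => simp
  | mul x y _ _ hx hy =>
    rw [Pi.mul_apply, map_mul, hx, hy, one_mul]
  | inv x _ hx =>
    rw [Pi.inv_apply, map_inv, hx, inv_one]

omit [Fintype ι] in
private theorem datB_claim {Y : Set X} (Z : Finset X) (s : Finset ι) :
    ∀ v ∈ datBC D Y Z s, (∀ c j, D.al j (v c) = 1) → v ∈ WW D.B Y D.S Z := by
  induction s using Finset.induction_on with
  | empty =>
    intro v hv _
    refine (Subgroup.closure_mono ?_ : datBC D Y Z ∅ ≤ _) hv
    rintro g (⟨U, hg⟩ | ⟨j, hj, _⟩)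
    · exact ⟨U, hg⟩
    · simp at hj
  | insert i s hi ih =>
    intro v hv h
    obtain ⟨r, v', hr, hv', rfl⟩ := datB_split D hv
    have h1 : ∀ c, r c ∈ D.S := by
      intro c
      have h2 := h c i
      rw [Pi.mul_apply, map_mul, datB_al D hi hv' c, mul_one] at h2
      have h3 := hr.memB c
      rw [D.B1] at h3
      exact D.al_ker i _ h3 h2
    have h4 : LF D.B D.S {i} Z r := ⟨h1, hr.memB, hr.loc, hr.van⟩
    exact ih _ (Subgroup.mul_mem _ (datB_gen_S D h4) hv') h

private theorem datB_ww_le {Y : Set X} (Z : Finset X) :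
    WW D.B Y ⊤ Z ≤ datBC D Y Z Finset.univ := by
  refine (Subgroup.closure_le _).2 ?_
  rintro g ⟨U, hg⟩
  by_cases h2 : 2 ≤ U.card
  · exact datB_gen_S D (U := U) ⟨fun c => D.B2 U h2 (hg.memB c), hg.memB, hg.loc, hg.van⟩
  · rcases Nat.eq_zero_or_pos U.card with h0 | h0
    · rw [Finset.card_eq_zero] at h0
      subst h0
      rw [hg.empty]
      exact Subgroup.one_mem _
    · have h1 : U.card = 1 := by omega
      obtain ⟨j, rfl⟩ := Finset.card_eq_one.1 h1
      exact datB_gen_j D (Finset.mem_univ j) hg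

/-- From values in `K` to values in `S`.

PROOF. For a finset `s` of indices let `C s` be the closure of all local functions `LF D.B D.S U Z g`
and all `LF D.B ⊤ {j} Z g`, `j ∈ s`. `WW D.B Y ⊤ Z ≤ C univ`: for `|U| ≥ 2` the values are in
`B U ≤ S`, for `U = ∅` the function is `1`. Claim by induction on `s`: `v ∈ C s`,
`al j (v c) = 1` for all `j`, `c`, implies `v ∈ WW D.B Y D.S Z`. For `insert i s`: every
`v ∈ C (insert i s)` is `ρ * v'` with `LF D.B ⊤ {i} Z ρ` and `v' ∈ C s` (closure induction; a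
conjugate of an element of `C s` by `ρ` is in `C s`, by `LF.comm`: `⁅ρ, h⁆` for `LF ⊤ {j} Z h`, `j ∈ s`,
`j ≠ i`, has values in `B {i, j} ≤ S`, for `j = i` in `B {i}`; for `LF S U Z h` in `S`).
`al i (v' c) = 1` if `i ∉ s`, so `al i (ρ c) = 1`, `ρ c ∈ S` (`al_ker`), `ρ` is `S`-valued, and
`v ∈ C s`. -/
theorem ww_S {Y : Set X} (Z : Finset X) (v : Emb ι Y → K) (hv : v ∈ WW D.B Y ⊤ Z)
    (h : ∀ c j, D.al j (v c) = 1) : v ∈ WW D.B Y D.S Z :=
  datB_claim D Z Finset.univ v (datB_ww_le D Z hv) h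


end Inn

end MP799fdf
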