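import Pool.Agent.Lib.MP_799fdf_al.Inn.DatB

/-! # Elements of `Gam` with values in `S` -/

set_option autoImplicit false

open scoped commutatorElement

namespace MP799fdf

namespace Inn

variable {K ι A X : Type} [Group K] [Group A] [DecidableEq ι] [Fintype ι] (D : Dat K ι A)

/-- PROOF. Closure induction: if `j₀ ∈ U` the value is in `B U ≤ B {j₀} = R j₀`, otherwise `c` maps `U`
into `Z`. -/
theorem ww_ev {Y : Set X} (Z : Finset X) (j₀ : ι) (c : Emb ι Y) (hc : ∀ j, j ≠ j₀ → c.1 j ∈ Z)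
    (v : Emb ι Y → K) (hv : v ∈ WW D.B Y ⊤ Z) : v c ∈ D.R j₀ := by
  have h1 : WW D.B Y ⊤ Z ≤ (D.R j₀).comap (Pi.evalMonoidHom (fun _ : Emb ι Y => K) c) := by
    refine (Subgroup.closure_le _).2 ?_
    rintro g ⟨U, hg⟩
    show g c ∈ D.R j₀
    by_cases hj : j₀ ∈ U
    · rw [← D.B1 j₀]
      exact D.antiB {j₀} U (Finset.singleton_subset_iff.2 hj) (hg.memB c)
    · rw [hg.van c fun u hu => hc u fun h => hj (h ▸ hu)]
      exact (D.R j₀).one_mem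
  exact h1 hv

/-- PROOF. Induction on the finset `s`: `m = ∏ gx x r_x`, with `r_x ∈ FF`, `al i (r_x i) = a x`
(`exists_FF'`), `gx_mem`. -/
theorem exists_m [Nonempty ι] {Y : Set X} (Z : Finset X) (s : Finset X) (hs : Disjoint s Z)
    (a : X → A) (ha : ∀ x, a x ∈ D.W) :
    ∃ m ∈ Gam D Y, m ∈ WW D.B Y ⊤ Z ∧ ∀ (c : Emb ι Y) (j : ι),
      (c.1 j ∈ s → D.al j (m c) = a (c.1 j)) ∧ (c.1 j ∉ s → D.al j (m c) = 1) := by
  classical
  induction s using Finset.induction_on with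
  | empty =>
    refine ⟨1, Subgroup.one_mem _, Subgroup.one_mem _, fun c j => ⟨fun h => ?_, fun _ => ?_⟩⟩
    · exact absurd h (Finset.notMem_empty _)
    · rw [Pi.one_apply, map_one]
  | insert x s hx ih =>
    rw [Finset.disjoint_insert_left] at hs
    obtain ⟨m, hm1, hm2, hm3⟩ := ih hs.2
    obtain ⟨r, hr, hra⟩ := D.exists_FF' (a x) (ha x)
    refine ⟨gx x r * m, Subgroup.mul_mem _ (Subgroup.subset_closure (Or.inr ⟨x, r, hr, rfl⟩)) hm1,
      Subgroup.mul_mem _ (gx_mem D x r hr Z hs.1) hm2, fun c j => ?_⟩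
    by_cases hj : c.1 j = x
    · have h1 : D.al j ((gx x r * m : Emb ι Y → K) c) = a (c.1 j) := by
        rw [Pi.mul_apply, map_mul, (hm3 c j).2 (by rw [hj]; exact hx), mul_one]
        have h2 : gx x r c = r j := by
          rw [← hj]
          exact gx_eq r c j
        rw [h2, hra, hj]
      exact ⟨fun _ => h1, fun h => absurd (by rw [hj]; exact Finset.mem_insert_self _ _) h⟩
    · have h1 : D.al j (gx x r c) = 1 := by
        by_cases hex : ∃ j', c.1 j' = x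
        · obtain ⟨j', hj'⟩ := hex
          have h2 : gx x r c = r j' := by
            rw [← hj']
            exact gx_eq r c j'
          rw [h2]
          refine D.al_ne j j' ?_ _ (hr.1 j')
          rintro rfl
          exact hj hj'
        · rw [gx_ne x r c fun j' h => hex ⟨j', h⟩, map_one]
      have h2 : D.al j ((gx x r * m : Emb ι Y → K) c) = D.al j (m c) := by
        rw [Pi.mul_apply, map_mul, h1, one_mul]
      rw [h2]
      refine ⟨fun h => (hm3 c j).1 ?_, fun h => (hm3 c j).2 ?_⟩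
      · exact (Finset.mem_insert.1 h).resolve_left hj
      · exact fun h' => h (Finset.mem_insert_of_mem h')

/-- Elements of `Gam` whose value at `c` is in `S ⊔ R j₀` are `S`-valued modulo `WW D.B Y ⊤ Z`.

PROOF. `exists_pos`: `a`. For `j ≠ j₀`: `a (c j) = al j (γ c) = 1` (`al_S`, `al_ne`). There is some
`j₁ ≠ j₀` (`hι`), so `a x ∈ W` for all `x`. Let `s = univ \ Z` and `m` from `exists_m` for `a`.
`γ' = γ * m⁻¹`. All `al j (γ' c') = 1`: if `c' j ∉ Z`: `a (c' j) (a (c' j))⁻¹`; if `c' j ∈ Z`: `hZ`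
gives `c' j = c j'` with `j' ≠ j₀`, so `a (c' j) = 1`, and `al j (m c') = 1`.
`γ' c' ∈ S ⊔ ⨆ R i`: `γ' c ∈ S ⊔ R j₀ ⊔ ⨆ R i` (`m c` is in `R j₀`, `ww_ev`), and `gam_co`.
`mem_S`. -/
theorem exists_S_valued [Fintype X] [DecidableEq X] {Y : Set X} (Z : Finset X) (j₀ : ι)
    (c : Emb ι Y)
    (hc : ∀ j, j ≠ j₀ → c.1 j ∈ Z) (hZ : ∀ z ∈ Z, ∃ j, j ≠ j₀ ∧ c.1 j = z)
    (hι : 2 ≤ Fintype.card ι)
    (γ : Emb ι Y → K) (hγ : γ ∈ Gam D Y) (h : γ c ∈ D.S ⊔ D.R j₀) :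
    ∃ m ∈ Gam D Y, m ∈ WW D.B Y ⊤ Z ∧ ∀ c', (γ * m⁻¹) c' ∈ D.S := by
  have : Nonempty ι := ⟨j₀⟩
  obtain ⟨a, ha1, ha2⟩ := exists_pos D γ hγ
  have hone : ∀ j, j ≠ j₀ → a (c.1 j) = 1 := by
    intro j hj
    rw [← ha1 c j]
    have h1 : D.S ⊔ D.R j₀ ≤ (D.al j).ker :=
      sup_le (fun x hx => D.al_S j x hx) (fun x hx => D.al_ne j j₀ hj x hx)
    exact h1 h
  obtain ⟨j₁, hj₁⟩ := Fintype.exists_ne_of_one_lt_card (lt_of_lt_of_le one_lt_two hι) j₀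
  have hW : ∀ x, a x ∈ D.W := by
    intro x
    have h1 := ha2 (c.1 j₁) x
    rwa [hone j₁ hj₁, inv_one, one_mul] at h1
  obtain ⟨m, hm1, hm2, hm3⟩ := exists_m D (Y := Y) Z (Finset.univ \ Z) Finset.sdiff_disjoint a hW
  refine ⟨m, hm1, hm2, fun c' => D.mem_S _ ?_ fun j => ?_⟩
  · have hR : ∀ i, D.R i ≤ D.S ⊔ ⨆ i, D.R i := fun i => (le_iSup D.R i).trans le_sup_right
    have hR' : ⨆ i, D.R i ≤ D.S ⊔ ⨆ i, D.R i := le_sup_right
    have h1 : γ c' ∈ D.S ⊔ ⨆ i, D.R i := by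
      have h2 : γ c ∈ D.S ⊔ ⨆ i, D.R i := (sup_le le_sup_left (hR j₀)) h
      have h3 : (γ c)⁻¹ * γ c' ∈ D.S ⊔ ⨆ i, D.R i := hR' (gam_co D γ hγ c c')
      have h4 := Subgroup.mul_mem _ h2 h3
      rwa [mul_inv_cancel_left] at h4
    have h2 : m c' ∈ D.S ⊔ ⨆ i, D.R i := by
      have h2 : m c ∈ D.S ⊔ ⨆ i, D.R i := hR j₀ (ww_ev D Z j₀ c hc m hm2)
      have h3 : (m c)⁻¹ * m c' ∈ D.S ⊔ ⨆ i, D.R i := hR' (gam_co D m hm1 c c')
      have h4 := Subgroup.mul_mem _ h2 h3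
      rwa [mul_inv_cancel_left] at h4
    exact Subgroup.mul_mem _ h1 (Subgroup.inv_mem _ h2)
  · rw [Pi.mul_apply, Pi.inv_apply, map_mul, map_inv, ha1 c' j]
    by_cases hj : c'.1 j ∈ Z
    · obtain ⟨j', hj', he⟩ := hZ _ hj
      rw [(hm3 c' j).2 fun h' => (Finset.mem_sdiff.1 h').2 hj, ← he, hone j' hj', inv_one, one_mul]
    · rw [(hm3 c' j).1 (Finset.mem_sdiff.2 ⟨Finset.mem_univ _, hj⟩), mul_inv_cancel]

end Inn

end MP799fdf
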