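import Pool.Agent.Lib.MP_799fdf_al.Inn.DatB2

/-! # Quotients of `Gam` -/

set_option autoImplicit false

open scoped commutatorElement

namespace MP799fdf

namespace Inn

variable {K ι A X : Type} [Group K] [Group A] [DecidableEq ι] [Fintype ι] (D : Dat K ι A)

/-- The quotient of `Gam` by `WW D.B Y ⊤ Z`.

PROOF. `Emb ι Y` is finite, so `Gam` is finite. `(form K).mem (Gam D Y)`: `Formation.of_family` with
the evaluations (`ev_surj`; `Nonempty (Emb ι Y)` by `c`). -/
theorem gam_form [Nonempty ι] [Finite K] [Finite X] {Y : Set X} (c : Emb ι Y) :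
    (form K).mem (Gam D Y) := by
  intro F hF
  have : Nonempty (Emb ι Y) := ⟨c⟩
  refine Formation.of_family F (J := Emb ι Y) (A := fun _ => K)
    (fun c' => (Pi.evalMonoidHom (fun _ : Emb ι Y => K) c').comp (Gam D Y).subtype)
    (fun c' => ev_surj D c') (fun _ => hF) ?_
  intro x hx
  apply Subtype.ext
  funext c'
  exact hx c'

private theorem pi_solvable_datB3 {J S : Type} [Group S] (hS : Group.IsSolvable S) :
    Group.IsSolvable (J → S) := by
  obtain ⟨n, hn⟩ := (Group.isSolvable_def S).1 hS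
  refine (Group.isSolvable_def (J → S)).2 ⟨n, ?_⟩
  rw [eq_bot_iff]
  intro f hf
  rw [Subgroup.mem_bot]
  funext j
  have h1 : (Pi.evalMonoidHom (fun _ : J => S) j) f ∈ derivedSeries S n :=
    map_derivedSeries_le_derivedSeries (Pi.evalMonoidHom (fun _ : J => S) j) n
      (Subgroup.mem_map_of_mem _ hf)
  rw [hn, Subgroup.mem_bot] at h1
  exact h1

/-- PROOF. Let `φ : Gam D Y → K ⧸ (S ⊔ R j₀)` be the evaluation at `c` and `L` its kernel:
`L.index ≤ (S ⊔ R j₀).index < S.index ≤ m + 1` (`RS`). The subgroup `M` (normal by `gam_conj`) is in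
`L` (`ww_ev`). Take the image of `L` in the quotient: normal, index `≤ m`. It is soluble: let
`T ≤ Gam` be the subgroup of the `S`-valued functions; `T` is soluble (it embeds into the functions
`Emb ι Y → S`; e.g. `dser T n = ⊥` for `dser S n = ⊥`, or the solvability of pi types), and
`L ≤ T ⊔ M` by `exists_S_valued`, so the image of `L` is contained in the image of `T`. -/
theorem rb_quot [Nonempty ι] [Finite K] [Fintype X] [DecidableEq X] {Y : Set X} (Z : Finset X)
    (j₀ : ι) (c : Emb ι Y)
    (hc : ∀ j, j ≠ j₀ → c.1 j ∈ Z) (hZ : ∀ z ∈ Z, ∃ j, j ≠ j₀ ∧ c.1 j = z)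
    (hι : 2 ≤ Fintype.card ι) (hS : Group.IsSolvable D.S) (m : ℕ) (hm : D.S.index ≤ m + 1)
    (hn : ((WW D.B Y ⊤ Z).subgroupOf (Gam D Y)).Normal) :
    RB m (Gam D Y ⧸ ((WW D.B Y ⊤ Z).subgroupOf (Gam D Y))) := by
  classical
  have : D.S.Normal := D.nS
  have : (D.R j₀).Normal := D.nR j₀
  let ev : Gam D Y →* K :=
    (Pi.evalMonoidHom (fun _ : Emb ι Y => K) c).comp (Gam D Y).subtype
  have hev : Function.Surjective ev := ev_surj D c
  let f : Gam D Y →* Gam D Y ⧸ ((WW D.B Y ⊤ Z).subgroupOf (Gam D Y)) :=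
    QuotientGroup.mk' ((WW D.B Y ⊤ Z).subgroupOf (Gam D Y))
  have hf : Function.Surjective f := QuotientGroup.mk'_surjective _
  let L : Subgroup (Gam D Y) := (D.S ⊔ D.R j₀).comap ev
  have hLn : L.Normal := Subgroup.Normal.comap inferInstance ev
  let T : Subgroup (Gam D Y) :=
    { carrier := {γ | ∀ c', γ.1 c' ∈ D.S}
      one_mem' := fun c' => D.S.one_mem
      mul_mem' := fun {a b} ha hb c' => D.S.mul_mem (ha c') (hb c')
      inv_mem' := fun {a} ha c' => D.S.inv_mem (ha c') }
  have hTs : Group.IsSolvable T := by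
    have h1 : Group.IsSolvable (Emb ι Y → D.S) := pi_solvable_datB3 hS
    let g : T →* (Emb ι Y → D.S) :=
      { toFun := fun γ c' => ⟨γ.1.1 c', γ.2 c'⟩
        map_one' := rfl
        map_mul' := fun a b => rfl }
    refine Group.isSolvable_of_isSolvable_injective (f := g) ?_
    intro a b hab
    apply Subtype.ext
    apply Subtype.ext
    funext c'
    exact congrArg Subtype.val (congrFun hab c')
  have hTf : Group.IsSolvable (T.map f) :=
    Group.isSolvable_of_surjective (f := f.subgroupMap T) (f.subgroupMap_surjective T)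
  have hle : L.map f ≤ T.map f := by
    rintro _ ⟨x, hx, rfl⟩
    obtain ⟨m', hm1, hm2, hm3⟩ := exists_S_valued D Z j₀ c hc hZ hι x.1 x.2 hx
    refine ⟨x * (⟨m', hm1⟩ : Gam D Y)⁻¹, hm3, ?_⟩
    have h2 : f ⟨m', hm1⟩ = 1 := by
      apply (QuotientGroup.eq_one_iff _).2
      exact hm2
    rw [map_mul, map_inv, h2, inv_one, mul_one]
  refine ⟨L.map f, hLn.map f hf, ?_, ?_⟩
  · exact Group.isSolvable_of_isSolvable_injective (f := Subgroup.inclusion hle)
      (Subgroup.inclusion_injective hle)
  · have h3 : (L.map f).index ∣ L.index := Subgroup.index_map_dvd L hf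
    have h4 : L.index = (D.S ⊔ D.R j₀).index := Subgroup.index_comap_of_surjective _ hev
    have h5 : (D.S ⊔ D.R j₀).index < D.S.index := by
      apply Subgroup.index_strictAnti
      refine lt_of_le_of_ne le_sup_left ?_
      intro h
      exact D.RS j₀ (by rw [h]; exact le_sup_right)
    have h6 : L.index ≠ 0 := by
      rw [h4]
      exact Subgroup.index_ne_zero_of_finite
    have h7 := Nat.le_of_dvd (Nat.pos_of_ne_zero h6) h3
    omega

end Inn

end MP799fdf
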