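import Pool.Agent.Lib.MP_799fdf_al.Inn.HTA

/-! # Chains of local subgroups and homomorphisms -/

set_option autoImplicit false

open scoped commutatorElement

namespace MP799fdf

namespace Inn

variable {K : Type} [Group K]

/-- PROOF. `M = ⁅R, S⁆` is normal, `≤ R`, `≤ S`. `M.map f = ⁅R.map f, S.map f⁆ ≥ ⁅R.map f, R.map f⁆ =
R.map f` (`loc_map`: perfect). If `M ≤ N` then `R.map f ≤ N.map f`, against `(loc_map ..).lt`. So
`M = R ≤ S`. -/
theorem loc_le_of_map {A : Type} [Group A] (f : K →* A) (hf : Function.Surjective f)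
    {R N S : Subgroup K} (h : Loc R N) (hS : S.Normal) (hR : ¬ R ≤ f.ker)
    (hle : R.map f ≤ S.map f) : R ≤ S := by
  have hNR := h.nR
  have h2 : ⁅R, S⁆.Normal := Subgroup.commutator_normal R S
  have h1 : R.map f ≤ (⁅R, S⁆).map f := by
    rw [Subgroup.map_commutator]
    calc R.map f = ⁅R.map f, R.map f⁆ := (loc_map f hf h hR).perf.symm
      _ ≤ ⁅R.map f, S.map f⁆ := Subgroup.commutator_mono le_rfl hle
  rcases h.max _ h2 (Subgroup.commutator_le_left R S) with h3 | h3
  · exfalso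
    have h4 := Subgroup.map_mono (f := f) h3
    exact absurd (loc_map f hf h hR).lt (not_lt_of_ge (h1.trans h4))
  · rw [← h3]
    exact Subgroup.commutator_le_right R S

/-- PROOF. Induction on `t` (`S` arbitrary). Let `Loc R₁ N₁` in `A`, `R₁ ≤ S.map f`. `loc_lift f hf`
gives `Loc R' N'` with `R'.map f = R₁`, `N' = R' ⊓ N₁.comap f`; `¬ R' ≤ f.ker` (as `R₁ ≠ ⊥`,
`Loc.ne_bot`), `R' ≤ S` by `loc_le_of_map`, and `N'.map f = N₁` (as `N₁ ≤ R₁ = R'.map f`). `t = 0`: a
contradiction. `t + 1`: `HT t N'`, so `HT t (N'.map f)` by induction (`N'` is normal). -/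
theorem ht_map [Finite K] {A : Type} [Group A] (f : K →* A) (hf : Function.Surjective f) {t : ℕ}
    {S : Subgroup K} (hS : S.Normal) (h : HT t S) : HT t (S.map f) := by
  have key : ∀ {S : Subgroup K}, S.Normal → ∀ R₁ N₁ : Subgroup A, Loc R₁ N₁ → R₁ ≤ S.map f →
      ∃ R' N' : Subgroup K, Loc R' N' ∧ R' ≤ S ∧ N'.map f = N₁ := by
    intro S hS R₁ N₁ h₁ hle
    obtain ⟨R', N', h', e, eN⟩ := loc_lift f hf h₁
    have hR : ¬ R' ≤ f.ker := by
      intro hk
      rw [← Subgroup.map_eq_bot_iff, e] at hk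
      exact h₁.ne_bot hk
    refine ⟨R', N', h', loc_le_of_map f hf h' hS hR (by rw [e]; exact hle), ?_⟩
    apply le_antisymm
    · rintro _ ⟨x, hx, rfl⟩
      rw [eN] at hx
      exact hx.2
    · intro n hn
      have hn' : n ∈ R'.map f := by
        rw [e]
        exact h₁.lt.le hn
      obtain ⟨r, hr, rfl⟩ := Subgroup.mem_map.1 hn'
      refine Subgroup.mem_map_of_mem f ?_
      rw [eN]
      exact ⟨hr, hn⟩
  induction t generalizing S with
  | zero =>
    intro R₁ N₁ h₁ hle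
    obtain ⟨R', N', h', h2, h3⟩ := key hS R₁ N₁ h₁ hle
    exact h R' N' h' h2
  | succ t ih =>
    intro R₁ N₁ h₁ hle
    obtain ⟨R', N', h', h2, h3⟩ := key hS R₁ N₁ h₁ hle
    rw [← h3]
    exact ih h'.nN (h R' N' h' h2)

/-- PROOF. Induction on `t` (`S` arbitrary). Let `Loc R N`, `R ≤ S`. `t = 0`: by `Loc.ne_bot` there
is `j` with `¬ R ≤ (f j).ker`; `loc_map` and `(R.map (f j)) ≤ S.map (f j)` contradict `h j`. `t + 1`: by
induction it is enough to show `HT t (N.map (f j))` for all `j`. If `R ≤ (f j).ker` then `N.map (f j) = ⊥`,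
`ht_bot`. Otherwise use `h j` for `loc_map`. -/
theorem ht_family {J : Type} {A : J → Type} [∀ j, Group (A j)] (f : ∀ j, K →* A j)
    (hf : ∀ j, Function.Surjective (f j)) (hi : ∀ x, (∀ j, f j x = 1) → x = 1) {t : ℕ}
    {S : Subgroup K} (h : ∀ j, HT t (S.map (f j))) : HT t S := by
  induction t generalizing S with
  | zero =>
    intro R N hl hle
    by_cases hk : ∀ j, R ≤ (f j).ker
    · apply hl.ne_bot
      rw [eq_bot_iff]
      intro x hx
      exact Subgroup.mem_bot.2 (hi x fun j => hk j hx)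
    · obtain ⟨j, hj⟩ := not_forall.1 hk
      exact h j _ _ (loc_map (f j) (hf j) hl hj) (Subgroup.map_mono hle)
  | succ t ih =>
    intro R N hl hle
    refine ih fun j => ?_
    by_cases hk : R ≤ (f j).ker
    · have e : N.map (f j) = ⊥ := (Subgroup.map_eq_bot_iff _).2 (hl.lt.le.trans hk)
      rw [e]
      exact ht_bot t
    · exact h j _ _ (loc_map (f j) (hf j) hl hk) (Subgroup.map_mono hle)

theorem rbt_mono {t m m' : ℕ} {H : Type} [Group H] (h : m ≤ m') (hH : RBt t m H) :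
    RBt t m' H := by
  obtain ⟨S, h1, h2, h3⟩ := hH
  exact ⟨S, h1, h2, h3.trans h⟩

/-- PROOF. As `rb_surj` in `RBA.lean`, with `ht_map`. -/
theorem rbt_surj {t m : ℕ} {A B : Type} [Group A] [Finite A] [Group B] (f : A →* B)
    (hf : Function.Surjective f) (h : RBt t m A) : RBt t m B := by
  obtain ⟨S, h1, h2, h3⟩ := h
  exact ⟨S.map f, h1.map f hf, ht_map f hf h1 h2,
    (Nat.le_of_dvd (Nat.pos_of_ne_zero Subgroup.index_ne_zero_of_finite)
      (S.index_map_dvd hf)).trans h3⟩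

/-- PROOF. `ht_zero_solv`. -/
theorem rbt_zero {m : ℕ} {H : Type} [Group H] [Finite H] (h : RBt 0 m H) : RB m H := by
  obtain ⟨S, h1, h2, h3⟩ := h
  exact ⟨S, h1, ht_zero_solv h1 h2, h3⟩

end Inn

end MP799fdf
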