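import Pool.Agent.Lib.MP_799fdf_al.Inn.DatB4
import Pool.Agent.Lib.MP_799fdf_al.Inn.HTB

/-! # Quotients of `Gam`, general version -/

set_option autoImplicit false

open scoped commutatorElement

namespace MP799fdf

namespace Inn

variable {K ι A X : Type} [Group K] [Group A] [DecidableEq ι] [Fintype ι] (D : Dat K ι A)

/-- A subgroup of `Gam` all of whose elements have values in `S'`. -/
private theorem datC_ht [Nonempty ι] {Y : Set X} {t : ℕ} {S' : Subgroup K} (hS : HT t S')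
    (T : Subgroup (Gam D Y)) (hT : ∀ γ ∈ T, ∀ c', γ.1 c' ∈ S') : HT t T := by
  refine ht_family (J := Emb ι Y) (A := fun _ => K)
    (fun c' => (Pi.evalMonoidHom (fun _ : Emb ι Y => K) c').comp (Gam D Y).subtype)
    (fun c' => ev_surj D c') (fun x hx => ?_) (fun c' => ht_le hS ?_)
  · apply Subtype.ext
    funext c'
    exact hx c'
  · rintro _ ⟨γ, hγ, rfl⟩
    exact hT γ hγ c'

/-- PROOF. Copy the proof of `rb_quot` in `DatB3.lean`. `T` (the `S`-valued functions in `Gam`) is normal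
in `Gam` and `HT t T` by `ht_family` for all evaluations (`ev_surj`; `T.map ev ≤ D.S`, `ht_le`); so
`HT t (T.map f)` by `ht_map`, and `HT t (L.map f)` by `ht_le`. -/
theorem rbt_quot_a [Nonempty ι] [Finite K] [Fintype X] [DecidableEq X] {Y : Set X} (Z : Finset X)
    (j₀ : ι) (c : Emb ι Y)
    (hc : ∀ j, j ≠ j₀ → c.1 j ∈ Z) (hZ : ∀ z ∈ Z, ∃ j, j ≠ j₀ ∧ c.1 j = z)
    (hι : 2 ≤ Fintype.card ι) (t : ℕ) (hS : HT t D.S) (m : ℕ) (hm : D.S.index ≤ m + 1)
    (hn : ((WW D.B Y ⊤ Z).subgroupOf (Gam D Y)).Normal) :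
    RBt t m (Gam D Y ⧸ ((WW D.B Y ⊤ Z).subgroupOf (Gam D Y))) := by
  classical
  have : D.S.Normal := D.nS
  have : (D.R j₀).Normal := D.nR j₀
  let ev : Gam D Y →* K :=
    (Pi.evalMonoidHom (fun _ : Emb ι Y => K) c).comp (Gam D Y).subtype
  have hev : Function.Surjective ev := ev_surj D c
  let f : Gam D Y →* Gam D Y ⧸ ((WW D.B Y ⊤ Z).subgroupOf (Gam D Y)) :=
    QuotientGroup.mk' ((WW D.B Y ⊤ Z).subgroupOf (Gam D Y))
  have hf : Function.Surjective f := QuotientGroup.mk'_surjective _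
  let L : Subgroup (Gam D Y) := (D.S ⊔ D.R j₀).comap ev
  have hLn : L.Normal := Subgroup.Normal.comap inferInstance ev
  let T : Subgroup (Gam D Y) :=
    { carrier := {γ | ∀ c', γ.1 c' ∈ D.S}
      one_mem' := fun c' => D.S.one_mem
      mul_mem' := fun {a b} ha hb c' => D.S.mul_mem (ha c') (hb c')
      inv_mem' := fun {a} ha c' => D.S.inv_mem (ha c') }
  have hTn : T.Normal := ⟨fun γ hγ g c' => D.nS.conj_mem _ (hγ c') (g.1 c')⟩
  have hTt : HT t T := datC_ht D hS T fun γ hγ => hγ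
  have hTf : HT t (T.map f) := ht_map f hf hTn hTt
  have hle : L.map f ≤ T.map f := by
    rintro _ ⟨x, hx, rfl⟩
    obtain ⟨m', hm1, hm2, hm3⟩ := exists_S_valued D Z j₀ c hc hZ hι x.1 x.2 hx
    refine ⟨x * (⟨m', hm1⟩ : Gam D Y)⁻¹, hm3, ?_⟩
    have h2 : f ⟨m', hm1⟩ = 1 := by
      apply (QuotientGroup.eq_one_iff _).2
      exact hm2
    rw [map_mul, map_inv, h2, inv_one, mul_one]
  refine ⟨L.map f, hLn.map f hf, ht_le hTf hle, ?_⟩
  have h3 : (L.map f).index ∣ L.index := Subgroup.index_map_dvd L hf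
  have h4 : L.index = (D.S ⊔ D.R j₀).index := Subgroup.index_comap_of_surjective _ hev
  have h5 : (D.S ⊔ D.R j₀).index < D.S.index := by
    apply Subgroup.index_strictAnti
    refine lt_of_le_of_ne le_sup_left ?_
    intro h
    exact D.RS j₀ (by rw [h]; exact le_sup_right)
  have h6 : L.index ≠ 0 := by
    rw [h4]
    exact Subgroup.index_ne_zero_of_finite
  have h7 := Nat.le_of_dvd (Nat.pos_of_ne_zero h6) h3
  omega

/-- PROOF. Let `T` be the preimage of `S₁` under the evaluation at `c`: normal, index `≤ m`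
(`ev_surj`, `Subgroup.index_comap_of_surjective`). By `gam_co` and `hR` all values of the elements of
`T` are in `S₁`, so `HT t T` by `ht_family` (all evaluations, `ev_surj`) and `ht_le`. Then `rbt_surj`. -/
theorem rbt_quot_b [Nonempty ι] [Finite K] [Finite X] {Y : Set X} (Z : Finset X)
    (c : Emb ι Y) (t m : ℕ) {S₁ : Subgroup K} (hS₁ : S₁.Normal) (hH : HT t S₁)
    (hi : S₁.index ≤ m) (hR : ∀ i, D.R i ≤ S₁)
    (hn : ((WW D.B Y ⊤ Z).subgroupOf (Gam D Y)).Normal) :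
    RBt t m (Gam D Y ⧸ ((WW D.B Y ⊤ Z).subgroupOf (Gam D Y))) := by
  let ev : Gam D Y →* K :=
    (Pi.evalMonoidHom (fun _ : Emb ι Y => K) c).comp (Gam D Y).subtype
  have hev : Function.Surjective ev := ev_surj D c
  have hTn : (S₁.comap ev).Normal := hS₁.comap ev
  have hval : ∀ γ ∈ S₁.comap ev, ∀ c', γ.1 c' ∈ S₁ := by
    intro γ hγ c'
    have h1 : (γ.1 c)⁻¹ * γ.1 c' ∈ S₁ := (iSup_le hR) (gam_co D γ.1 γ.2 c c')
    have h2 : γ.1 c ∈ S₁ := hγ
    have h3 := S₁.mul_mem h2 h1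
    rwa [mul_inv_cancel_left] at h3
  have hT : HT t (S₁.comap ev) := datC_ht D hH _ hval
  have hG : RBt t m (Gam D Y) := by
    refine ⟨S₁.comap ev, hTn, hT, ?_⟩
    rw [Subgroup.index_comap_of_surjective _ hev]
    exact hi
  exact rbt_surj (QuotientGroup.mk' ((WW D.B Y ⊤ Z).subgroupOf (Gam D Y)))
    (QuotientGroup.mk'_surjective _) hG

end Inn

end MP799fdf
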