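import Pool.Agent.Lib.MP_799fdf_al.Inn.DatB4

/-! # The main proposition, general version -/

set_option autoImplicit false

open scoped commutatorElement

namespace MP799fdf

namespace Inn

variable {K ι A X : Type} [Group K] [Group A] [DecidableEq ι] [Fintype ι] (D : Dat K ι A)

/-- An embedding with prescribed image of the complement of `j₀`. -/
private theorem datD_emb {N : ℕ} (hN : Fintype.card ι ≤ N) (j₀ : ι) (Z : Finset (Fin N))
    (hZ : Z.card = Fintype.card ι - 1) :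
    ∃ c : Emb ι (Set.univ : Set (Fin N)), (∀ j, j ≠ j₀ → c.1 j ∈ Z) ∧
      ∀ z ∈ Z, ∃ j, j ≠ j₀ ∧ c.1 j = z := by
  classical
  have hpos : 0 < Fintype.card ι := Fintype.card_pos_iff.2 ⟨j₀⟩
  have hlt : Z.card < (Finset.univ : Finset (Fin N)).card := by
    rw [Finset.card_univ, Fintype.card_fin]
    omega
  obtain ⟨x₀, -, hx₀⟩ := Finset.exists_mem_notMem_of_card_lt_card hlt
  have hc1 : Fintype.card {j : ι // j ≠ j₀} = Fintype.card {x : Fin N // x ∈ Z} := by
    rw [Fintype.card_coe, hZ]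
    have h1 : Fintype.card {j : ι // j ≠ j₀} = Fintype.card ι - Fintype.card {j : ι // j = j₀} :=
      Fintype.card_subtype_compl (fun j : ι => j = j₀)
    rw [h1, Fintype.card_subtype_eq]
  let e : {j : ι // j ≠ j₀} ≃ {x : Fin N // x ∈ Z} := Fintype.equivOfCardEq hc1
  let f : ι → Fin N := fun j => if h : j = j₀ then x₀ else (e ⟨j, h⟩).1
  have f1 : ∀ j, ∀ h : j ≠ j₀, f j = (e ⟨j, h⟩).1 := fun j h => dif_neg h
  have f0 : f j₀ = x₀ := dif_pos rfl
  have fZ : ∀ j, j ≠ j₀ → f j ∈ Z := fun j h => by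
    rw [f1 j h]
    exact (e ⟨j, h⟩).2
  refine ⟨⟨f, ?_, fun _ => Set.mem_univ _⟩, fZ, ?_⟩
  · intro a b hab
    by_cases ha : a = j₀
    · by_cases hb : b = j₀
      · rw [ha, hb]
      · exfalso
        apply hx₀
        rw [← f0, ← ha, hab]
        exact fZ b hb
    · by_cases hb : b = j₀
      · exfalso
        apply hx₀
        rw [← f0, ← hb, ← hab]
        exact fZ a ha
      · rw [f1 a ha, f1 b hb] at hab
        have h1 := e.injective (Subtype.ext hab)
        exact congrArg Subtype.val h1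
  · intro z hz
    refine ⟨(e.symm ⟨z, hz⟩).1, (e.symm ⟨z, hz⟩).2, ?_⟩
    show f (e.symm ⟨z, hz⟩).1 = z
    rw [f1 _ (e.symm ⟨z, hz⟩).2]
    simp

omit [Fintype ι] in
private theorem datD_al {Y : Set X} (Z : Finset X) (c : Emb ι Y) (j : ι) (hj : c.1 j ∈ Z)
    (v : Emb ι Y → K) (hv : v ∈ WW D.B Y ⊤ Z) : D.al j (v c) = 1 := by
  have h1 : WW D.B Y ⊤ Z ≤ ((D.al j).ker).comap (Pi.evalMonoidHom (fun _ : Emb ι Y => K) c) := by
    refine (Subgroup.closure_le _).2 ?_
    rintro g ⟨U, hg⟩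
    show D.al j (g c) = 1
    by_cases hU : ∃ i ∈ U, j ≠ i
    · obtain ⟨i, hi, hij⟩ := hU
      refine D.al_ne j i hij _ ?_
      rw [← D.B1 i]
      exact D.antiB {i} U (Finset.singleton_subset_iff.2 hi) (hg.memB c)
    · simp only [not_exists, not_and, ne_eq, not_not] at hU
      rw [hg.van c fun u hu => by rw [← hU u hu]; exact hj, map_one]
  exact h1 hv

/-- The main proposition, general version.

PROOF. Copy the proof of `propS` in `DatB4.lean` (with copies of its private lemmas). The members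
`Γ ⧸ M Z` are in `F` by `hF`. After `ww_S` use `hel` to get `γ ∈ WW D.B univ A' Z` for `|Z| ≤ q`, and then
`final` for `A'` instead of `D.S`. -/
theorem propS2 [Nonempty ι] [Finite K] (l δ : ℕ) (hl : ∀ T : Finset ι, l < T.card → D.B T = ⊥)
    (hι : δ * tri l + 2 * l + 2 ≤ Fintype.card ι) (A' : Subgroup K) (hA' : A'.Normal)
    (hδ : dser A' δ = ⊥)
    (hel : ∀ v : Emb ι (Set.univ : Set (Fin (Fintype.card ι + δ * tri l))) → K,
      (∀ Z : Finset (Fin (Fintype.card ι + δ * tri l)), Z.card ≤ Fintype.card ι - 1 →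
        v ∈ WW D.B Set.univ D.S Z) →
      ∀ Z : Finset (Fin (Fintype.card ι + δ * tri l)), Z.card ≤ Fintype.card ι - 1 →
        v ∈ WW D.B Set.univ A' Z)
    (F : Formation)
    (hF : ∀ (N : ℕ) (Z : Finset (Fin N)) (j₀ : ι) (c : Emb ι (Set.univ : Set (Fin N))),
      (∀ j, j ≠ j₀ → c.1 j ∈ Z) → (∀ z ∈ Z, ∃ j, j ≠ j₀ ∧ c.1 j = z) →
      ∀ hn : ((WW D.B Set.univ ⊤ Z).subgroupOf (Gam D Set.univ)).Normal,
      F.mem (Gam D Set.univ ⧸ ((WW D.B Set.univ ⊤ Z).subgroupOf (Gam D Set.univ)))) :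
    F.mem K := by
  classical
  have hn2 : 2 ≤ Fintype.card ι := by omega
  obtain ⟨j₀⟩ := (inferInstance : Nonempty ι)
  have hne : Nonempty ι := ⟨j₀⟩
  let N : ℕ := Fintype.card ι + δ * tri l
  have hN : Fintype.card ι ≤ N := Nat.le_add_right _ _
  let Y : Set (Fin N) := Set.univ
  let Γ : Subgroup (Emb ι Y → K) := Gam D Y
  have hcard : (Finset.univ : Finset (Fin N)).card = N := by
    rw [Finset.card_univ, Fintype.card_fin]
  have hnorm : ∀ Z : Finset (Fin N), ((WW D.B Y ⊤ Z).subgroupOf Γ).Normal := fun Z =>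
    ⟨fun w hw γ => gam_conj D γ.1 γ.2 Z w.1 hw⟩
  have hmemQ : ∀ Z : Finset (Fin N), Z.card = Fintype.card ι - 1 →
      F.mem (Γ ⧸ ((WW D.B Y ⊤ Z).subgroupOf Γ)) := by
    intro Z hZ
    obtain ⟨c, hc, hcZ⟩ := datD_emb hN j₀ Z hZ
    exact hF N Z j₀ c hc hcZ (hnorm Z)
  obtain ⟨Z₀, -, hZ₀⟩ := Finset.exists_subset_card_eq (s := (Finset.univ : Finset (Fin N)))
    (n := Fintype.card ι - 1) (by rw [hcard]; omega)
  obtain ⟨c₀, -, -⟩ := datD_emb hN j₀ Z₀ hZ₀
  have hJ : Nonempty {Z : Finset (Fin N) // Z.card = Fintype.card ι - 1} := ⟨⟨Z₀, hZ₀⟩⟩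
  have hΓ : F.mem Γ := by
    refine Formation.of_family _ (J := {Z : Finset (Fin N) // Z.card = Fintype.card ι - 1})
      (A := fun Z => Γ ⧸ ((WW D.B Y ⊤ Z.1).subgroupOf Γ))
      (fun Z => QuotientGroup.mk' ((WW D.B Y ⊤ Z.1).subgroupOf Γ))
      (fun Z => QuotientGroup.mk'_surjective _) (fun Z => hmemQ Z.1 Z.2) ?_
    intro γ hγ
    have h1 : ∀ Z : Finset (Fin N), Z.card ≤ Fintype.card ι - 1 → γ.1 ∈ WW D.B Y ⊤ Z := by
      intro Z hZ
      obtain ⟨Z', hZZ', -, hZ'⟩ := Finset.exists_subsuperset_card_eq (Finset.subset_univ Z) hZ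
        (by rw [hcard]; omega)
      have h2 := (QuotientGroup.eq_one_iff _).1 (hγ ⟨Z', hZ'⟩)
      exact ww_mono_Z hZZ' (Subgroup.mem_subgroupOf.1 h2)
    have h2 : ∀ (c : Emb ι Y) (j : ι), D.al j (γ.1 c) = 1 := by
      intro c j
      refine datD_al D {c.1 j} c j (Finset.mem_singleton_self _) γ.1 (h1 _ ?_)
      rw [Finset.card_singleton]
      omega
    have h3 : ∀ Z : Finset (Fin N), Z.card ≤ Fintype.card ι - 1 → γ.1 ∈ WW D.B Y D.S Z :=
      fun Z hZ => ww_S D Z γ.1 (h1 Z hZ) h2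
    have h4 : ∀ Z : Finset (Fin N), Z.card ≤ Fintype.card ι - 1 → γ.1 ∈ WW D.B Y A' Z :=
      hel γ.1 h3
    apply Subtype.ext
    funext c
    have hinj : Function.Injective c.1 := c.2.1
    have hEc : (Finset.univ \ Finset.univ.image c.1 : Finset (Fin N)).card = δ * tri l := by
      rw [Finset.card_sdiff_of_subset (Finset.subset_univ _), hcard,
        Finset.card_image_of_injective _ hinj, Finset.card_univ]
      exact Nat.add_sub_cancel_left _ _
    exact final D.antiB D.commB hl δ A' hA' hδ Y (Fintype.card ι - 1) (by omega) γ.1 h4 c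
      (Finset.univ \ Finset.univ.image c.1) hEc (fun x _ => Set.mem_univ x)
      (fun x hx i hi => (Finset.mem_sdiff.1 hx).2
        (Finset.mem_image.2 ⟨i, Finset.mem_univ i, hi⟩))
  exact Formation.of_surj _
    ((Pi.evalMonoidHom (fun _ : Emb ι Y => K) c₀).comp Γ.subtype) (ev_surj D c₀) hΓ

end Inn

end MP799fdf
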