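import Pool.Agent.Lib.MP_799fdf_al.Inn.HTA

/-! # Bounded chains of local subgroups -/

set_option autoImplicit false

open scoped commutatorElement

namespace MP799fdf

namespace Inn

variable {K : Type} [Group K]

theorem htc_step {l : ℕ} (h : ML l K) : ∀ (t : ℕ) (S : Subgroup K) (κ : Type) [Fintype κ]
    [DecidableEq κ] (C D : κ → Subgroup K), Fintype.card κ + t = l → Function.Injective C →
    (∀ i, Loc (C i) (D i)) → (∀ i, S ≤ D i) → HT t S := by
  have inj : ∀ (S : Subgroup K) (κ : Type) (C D : κ → Subgroup K), Function.Injective C →
      (∀ i, Loc (C i) (D i)) → (∀ i, S ≤ D i) → ∀ R : Subgroup K, R ≤ S →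
      Function.Injective (fun o : Option κ => o.elim R C) := by
    intro S κ C D hC hL hS R hR
    have h1 : ∀ i, R ≠ C i := by
      intro i hi
      exact absurd ((hi ▸ hR).trans (hS i)) (hL i).lt.not_ge
    intro a b hab
    cases a with
    | none =>
      cases b with
      | none => rfl
      | some j => exact absurd hab (h1 j)
    | some i =>
      cases b with
      | none => exact absurd hab.symm (h1 i)
      | some j => exact congrArg some (hC hab)
  have loc : ∀ (κ : Type) (C D : κ → Subgroup K),
      (∀ i, Loc (C i) (D i)) → ∀ R N : Subgroup K, Loc R N →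
      ∀ o : Option κ, Loc (o.elim R C) (o.elim N D) := by
    intro κ C D hL R N hRN o
    cases o with
    | none => exact hRN
    | some i => exact hL i
  intro t
  induction t with
  | zero =>
    intro S κ _ _ C D hc hC hL hS R N hRN hR
    obtain ⟨B, h1, h2, h3, h4, h5⟩ := h (Option κ) (fun o => o.elim R C) (fun o => o.elim N D)
      (loc κ C D hL R N hRN) (inj S κ C D hC hL hS R hR)
    have h6 : ∀ o : Option κ, R ≤ B {o} := by
      intro o
      cases o with
      | none => exact h4 none
      | some i => exact ((hR.trans (hS i)).trans (hL i).lt.le).trans (h4 (some i))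
    have h7 : ∀ T : Finset (Option κ), R ≤ B (insert none T) := by
      intro T
      induction T using Finset.induction_on with
      | empty => exact h6 none
      | insert a T _ ih =>
        have h8 : insert none (insert a T) = insert none T ∪ {a} := by
          ext x
          simp only [Finset.mem_insert, Finset.mem_union, Finset.mem_singleton]
          tauto
        rw [h8, ← hRN.perf]
        exact (Subgroup.commutator_mono ih (h6 a)).trans (h3 _ _)
    have h8 := h7 Finset.univ
    have h9 : insert none (Finset.univ : Finset (Option κ)) = Finset.univ :=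
      Finset.insert_eq_self.2 (Finset.mem_univ _)
    rw [h9, h5 Finset.univ (by
      rw [Finset.card_univ, Fintype.card_option]
      omega)] at h8
    exact absurd (h8.trans bot_le) hRN.lt.not_ge
  | succ t ih =>
    intro S κ _ _ C D hc hC hL hS R N hRN hR
    refine ih N (Option κ) (fun o => o.elim R C) (fun o => o.elim N D) (by
      rw [Fintype.card_option]
      omega) (inj S κ C D hC hL hS R hR) (loc κ C D hL R N hRN) fun o => ?_
    cases o with
    | none => exact le_rfl
    | some i => exact (hRN.lt.le.trans hR).trans (hS i)

/-- PROOF. Claim, by induction on `t`: for a finite type `κ` with decidable equality,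
`Fintype.card κ + t = l`, an injective family `C : κ → Subgroup K` with `Loc (C i) (D i)` and `S ≤ D i`
for all `i`, we have `HT t S`. `t = 0`: let `Loc R N`, `R ≤ S`. The family on `Option κ` with
`none ↦ R`, `some i ↦ C i` is injective (`R ≤ D i < C i`), so `ML l K` gives `B`. By
`Finset.induction` `R ≤ B (insert none T)` for all `T`: `R = ⁅R, R⁆ ≤ ⁅B T', B {some i}⁆ ≤ B (T' ∪ {some i})`
as `R ≤ C i ≤ B {some i}`. For `T' = univ` (`l + 1` elements) `B T' = ⊥`, against `Loc.ne_bot`. `t + 1`:
for `Loc R N`, `R ≤ S`, the same family on `Option κ` and `N` (`N ≤ R ≤ S ≤ D i`). Finally `κ = Empty` or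
`Fin 0`, `S = ⊤`. -/
theorem ht_ml {l : ℕ} (h : ML l K) : HT l (⊤ : Subgroup K) :=
  htc_step h l ⊤ (Fin 0) (fun _ => ⊤) (fun _ => ⊤) (by simp) (fun i => i.elim0)
    (fun i => i.elim0) (fun i => i.elim0)

end Inn

end MP799fdf
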