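import Pool.Agent.Lib.MP_799fdf_al.Inn.SemB

/-! # Elimination of all nonabelian sections, second part -/

set_option autoImplicit false

open scoped commutatorElement

namespace MP799fdf

namespace Inn

variable {K ι X : Type} [Group K] [Finite K] [DecidableEq ι] [Fintype ι] [DecidableEq X]
  {B : Finset ι → Subgroup K} {Y : Set X}

/-- PROOF. Induction on `t` (`A` arbitrary), `elim_level`. -/
theorem elim_all (hD : D2 K) {V : Subgroup K} (hV : IsMono V)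
    (hBa : ∀ S T, S ⊆ T → B T ≤ B S) (hBn : ∀ T, (B T).Normal)
    (hBc : ∀ S T, ⁅B S, B T⁆ ≤ B (S ∪ T)) {l : ℕ} (hl : ∀ T : Finset ι, l < T.card → B T = ⊥)
    {q : ℕ} (hq : l ≤ q) (t : ℕ) : ∀ A : Subgroup K, A.Normal →
    A ≤ cen V ⊥ inferInstance → HT t A →
    ∃ A' : Subgroup K, A'.Normal ∧ A' ≤ A ∧ HT 0 A' ∧ ∀ v : Emb ι Y → K,
      (∀ Z : Finset X, Z.card ≤ q → v ∈ WW B Y A Z) →
      ∀ Z : Finset X, Z.card ≤ q → v ∈ WW B Y A' Z := by
  induction t with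
  | zero =>
    intro A hA _ hH
    exact ⟨A, hA, le_rfl, hH, fun v hv => hv⟩
  | succ t ih =>
    intro A hA hAV hH
    obtain ⟨A₁, hA₁, hle, hH₁, h₁⟩ := elim_level (Y := Y) hD hV hBa hBn hBc hl hq hA hAV hH
    obtain ⟨A₂, hA₂, hle₂, hH₂, h₂⟩ := ih A₁ hA₁ (hle.trans hAV) hH₁
    exact ⟨A₂, hA₂, hle₂.trans hle, hH₂, fun v hv => h₂ v (h₁ v hv)⟩

/-- Local functions have values in `cen V ⊥` if all `B {i}` are in `cen V ⊥`.

PROOF. Closure induction: for `LF B A U Z g`: `U = ∅`: `g = 1` (`LF.empty`); `i ∈ U`: the values are in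
`B U ≤ B {i}`. -/
theorem ww_inf (hBa : ∀ S T, S ⊆ T → B T ≤ B S) {A C : Subgroup K} (hC : ∀ i, B {i} ≤ C)
    (Z : Finset X) {v : Emb ι Y → K} (hv : v ∈ WW B Y A Z) : v ∈ WW B Y (A ⊓ C) Z := by
  have h : WW B Y A Z ≤ WW B Y (A ⊓ C) Z := by
    unfold WW
    rw [Subgroup.closure_le]
    rintro g ⟨U, hU⟩
    rcases U.eq_empty_or_nonempty with rfl | ⟨i, hi⟩
    · rw [hU.empty]
      exact Subgroup.one_mem _
    · refine Subgroup.subset_closure ⟨U, ⟨fun c => ⟨hU.mem c, ?_⟩, hU.memB, hU.loc, hU.van⟩⟩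
      exact hC i (hBa {i} U (Finset.singleton_subset_iff.mpr hi) (hU.memB c))
  exact h hv

end Inn

end MP799fdf
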