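import Pool.Agent.Lib.MP_799fdf_al.Inn.HTB
import Pool.Agent.Lib.MP_799fdf_al.Inn.KStrB

/-! # Few local subgroups -/

set_option autoImplicit false

open scoped commutatorElement

namespace MP799fdf

namespace Inn

variable {K : Type} [Group K] [Finite K]

/-- Few local subgroups outside `S₀`: there is a normal subgroup with `HT t` and small index.

PROOF. (Compare `rb_of_few` in `KStrB.lean`.) Let `L = S ⊓ cen V ⊥ ⊓ ⨅ i, cen (R i) (N i)` over all
`R i` in the set (with a chosen `N i`); index `≤ m * n * n ^ k` (`cen_index`, `Subgroup.index_iInf_le`,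
`Subgroup.index_inf_le`; note `k` may be larger than the number of elements, `1 ≤ n`). A local
subgroup `R ≤ L` is `≤ S₀`: otherwise it is one of the `R i`, so `R ≤ cen R (N i)`, against
`loc_inf_cen`. So `HT t L` by cases on `t` and `hS₀`. -/
theorem rbt_of_few {n m k t : ℕ} (hn : ChiefBound n K) {V : Subgroup K} (hV : IsMono V)
    (hn1 : 1 ≤ n) {S S₀ : Subgroup K} (hSn : S.Normal) (hSi : S.index ≤ m) (hS₀ : HT t S₀)
    (hk : Nat.card {R : Subgroup K // (∃ N, Loc R N) ∧ R ≤ S ⊓ cen V ⊥ inferInstance ∧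
      ¬ R ≤ S₀} ≤ k) : RBt t (m * n ^ (k + 1)) K := by
  classical
  set ι := {R : Subgroup K // (∃ N, Loc R N) ∧ R ≤ S ⊓ cen V ⊥ inferInstance ∧ ¬ R ≤ S₀} with hι
  have hfin : Finite ι := inferInstance
  have := Fintype.ofFinite ι
  have hN : ∀ i : ι, ∃ N, Loc i.1 N := fun i => i.2.1
  choose N hN using hN
  have hVn := hV.nV
  have hch : IsChief V ⊥ := mono_chief hV
  have hc0 : (cen V ⊥ hch.nL).Normal := cen_normal V ⊥ hV.nV hch.nL
  have hci : ∀ i : ι, (cen i.1 (N i) (hN i).nN).Normal := fun i =>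
    cen_normal i.1 (N i) (hN i).nR (hN i).nN
  have hI : (⨅ i : ι, cen i.1 (N i) (hN i).nN).Normal := Subgroup.normal_iInf_normal hci
  have key : ∀ R N' : Subgroup K, Loc R N' →
      R ≤ S ⊓ (cen V ⊥ hch.nL ⊓ ⨅ i : ι, cen i.1 (N i) (hN i).nN) → R ≤ S₀ := by
    intro R N' h hle
    by_contra hns
    have h1 : R ≤ S ⊓ cen V ⊥ inferInstance :=
      le_inf (hle.trans inf_le_left) (hle.trans (inf_le_right.trans inf_le_left))
    let i : ι := ⟨R, ⟨N', h⟩, h1, hns⟩
    have h2 : R ≤ cen R (N i) (hN i).nN :=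
      hle.trans (inf_le_right.trans (inf_le_right.trans (iInf_le _ i)))
    have h3 : R ≤ N i := (le_inf le_rfl h2).trans (loc_inf_cen (hN i))
    exact absurd (hN i).lt (not_lt_of_ge h3)
  refine ⟨S ⊓ (cen V ⊥ hch.nL ⊓ ⨅ i : ι, cen i.1 (N i) (hN i).nN), inferInstance, ?_, ?_⟩
  · cases t with
    | zero => exact fun R N' h hle => hS₀ R N' h (key R N' h hle)
    | succ t => exact fun R N' h hle => hS₀ R N' h (key R N' h hle)
  · have h1 : (⨅ i : ι, cen i.1 (N i) (hN i).nN).index ≤ n ^ k := by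
      refine (Subgroup.index_iInf_le _).trans ?_
      refine (Finset.prod_le_pow_card _ _ n fun i _ => cen_index hn ((hN i).chief)).trans ?_
      rw [Finset.card_univ, ← Nat.card_eq_fintype_card]
      exact Nat.pow_le_pow_right hn1 hk
    have h2 : (cen V ⊥ hch.nL).index ≤ n := cen_index hn hch
    refine (Subgroup.index_inf_le).trans (Nat.mul_le_mul hSi ?_)
    refine (Subgroup.index_inf_le).trans ?_
    rw [pow_succ, mul_comm]
    exact Nat.mul_le_mul h1 h2

end Inn

end MP799fdf
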