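import Pool.Agent.Lib.MP_799fdf_al.Inn.Fin
import Pool.Agent.Lib.MP_799fdf_al.Inn.D2B
import Pool.Agent.Lib.MP_799fdf_al.Inn.HTC
import Pool.Agent.Lib.MP_799fdf_al.Inn.TopC
import Pool.Agent.Lib.MP_799fdf_al.Inn.CodeC
import Pool.Agent.Lib.MP_799fdf_al.Inn.SemC
import Pool.Agent.Lib.MP_799fdf_al.Inn.DatC
import Pool.Agent.Lib.MP_799fdf_al.Inn.DatD

/-! # The main theorem, second version -/

set_option autoImplicit false

open scoped commutatorElement

namespace MP799fdf

namespace Inn

/-- the bound of `one_step2` -/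
def bd (n c l m : ℕ) : ℕ :=
  m * n ^ (((n + c) * tri l + 2 * l + 1) * 2 ^ ((m * n) * n.factorial) + 1)

/-- One step. -/
theorem one_step2 {n l c t m μ : ℕ} {K : Type} [Group K] [Finite K] (hD : D2 K) (hML : ML l K)
    (hn : ChiefBound n K) (hn1 : 1 ≤ n)
    (hc : ∀ F : Subgroup K, Group.IsNilpotent F → gam F (c + 1) = ⊥)
    {V : Subgroup K} (hV : IsMono V) (hm : RBt (t + 1) m K) (hμ : RBt t (μ + 1) K)
    (hbig : ¬ RBt t (bd n c l m) K) :
    (gen fun H _ _ => (form K).mem H ∧ RBt t μ H ∧ RBt (t + 1) m H).mem K := by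
  classical
  obtain ⟨S, hSn, hSH, hSmax⟩ := exists_ht_radical (K := K) (t + 1)
  obtain ⟨S₀, hS₀n, hS₀H, hS₀max⟩ := exists_ht_radical (K := K) t
  have hSi : S.index ≤ m := by
    obtain ⟨S', h1, h2, h3⟩ := hm
    exact (Nat.le_of_dvd (Nat.pos_of_ne_zero Subgroup.index_ne_zero_of_finite)
      (Subgroup.index_dvd_of_le (hSmax S' h1 h2))).trans h3
  have hS₀i : S₀.index ≤ μ + 1 := by
    obtain ⟨S', h1, h2, h3⟩ := hμ
    exact (Nat.le_of_dvd (Nat.pos_of_ne_zero Subgroup.index_ne_zero_of_finite)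
      (Subgroup.index_dvd_of_le (hS₀max S' h1 h2))).trans h3
  have hCn : (cen V ⊥ inferInstance : Subgroup K).Normal :=
    cen_normal V ⊥ hV.nV inferInstance
  set E : Subgroup K := S ⊓ cen V ⊥ inferInstance with hE
  have hEn : E.Normal := Subgroup.normal_inf_normal _ _
  have hEi : E.index ≤ m * n := by
    refine Subgroup.index_inf_le.trans ?_
    exact Nat.mul_le_mul hSi (cen_index hn (mono_chief hV))
  let P : Subgroup K → Prop := fun R => (∃ N, Loc R N) ∧ R ≤ S ⊓ cen V ⊥ inferInstance ∧ ¬ R ≤ S₀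
  have hlt : ((n + c) * tri l + 2 * l + 1) * 2 ^ ((m * n) * n.factorial) <
      Nat.card {R : Subgroup K // P R} := by
    by_contra hle
    exact hbig (rbt_of_few hn hV hn1 hSn hSi hS₀H (not_lt.1 hle))
  have hPE : ∀ R, P R → R ≤ E := fun R hR => hR.2.1
  have hPS : ∀ R, P R → ¬ R ≤ S₀ := fun R hR => hR.2.2
  have hPtop : ∀ R N, P R → Loc R N →
      N ≤ S₀ ∧ ∀ R' N' : Subgroup K, Loc R' N' → R' ≤ S → R ≤ R' → R' = R := fun R N hR h =>
    top_of_ht hSH hS₀max h ((hPE R hR).trans inf_le_left) (hPS R hR)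
  obtain ⟨ι, _, _, _, D, hk, hB, hDS, hDP⟩ := exists_dat2 (k := ((n + c) * tri l + 2 * l + 1))
    (e := m * n) hML hn E S₀ hEn hS₀n hEi P (fun R hR => hR.1) hPE hPS
    (fun R N hR h => top_le hD hV hEn inf_le_right h (hPE R hR)
      (fun R' N' h' hR' hle => (hPtop R N hR h).2 R' N' h' (hR'.trans inf_le_left) hle))
    (fun R N R' hR hR' h hne => by
      obtain ⟨N', h'⟩ := hR'.1
      exact top_cen h h' ((hPE R' hR').trans inf_le_left) (hPtop R N hR h).2 hne)
    (fun R N R' hR hR' h hne => by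
      obtain ⟨N', h'⟩ := hR'.1
      exact top_inf h h' ((hPE R' hR').trans inf_le_left) (hPtop R N hR h).2 hne)
    (fun R N hR h => (hPtop R N hR h).1)
    (fun R N hR h => by
      by_contra hn'
      exact hPS R hR (loc_le_of_not_cen h hS₀n hn'))
    hlt
  subst hDS
  have hBC : ∀ i, D.B {i} ≤ cen V ⊥ inferInstance := fun i => by
    rw [D.B1]
    exact (hPE _ (hDP i)).trans inf_le_right
  obtain ⟨A', hA'n, _, hA'H, hA'el⟩ := elim_all (X := Fin (Fintype.card ι + (n + c) * tri l))
    (Y := Set.univ) hD hV D.antiB D.nB D.commB hB (q := Fintype.card ι - 1) (by omega) t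
    (D.S ⊓ cen V ⊥ inferInstance) (by have := D.nS; exact Subgroup.normal_inf_normal _ _)
    inf_le_right (ht_le hS₀H inf_le_left)
  refine propS2 D l (n + c) hB (by omega) A' hA'n
    (dl_bound hn hc A' hA'n (ht_zero_solv hA'n hA'H)) ?_ _ ?_
  · intro v hv
    exact hA'el v fun Z hZ => ww_inf D.antiB hBC Z (hv Z hZ)
  · intro N Z j₀ c' hc' hZ hn' F hF
    refine hF _ ⟨?_, ?_, ?_⟩
    · exact (form K).quot _ _ (gam_form D c')
    · exact rbt_quot_a D Z j₀ c' hc' hZ (by omega) t hS₀H μ hS₀i hn'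
    · exact rbt_quot_b D Z c' (t + 1) m hSn hSH hSi
        (fun i => (hPE _ (hDP i)).trans inf_le_left) hn'

/-- the formation generated by the members `H` of `form K` with `RBt t m H` -/
def genT (t m : ℕ) (K : Type) [Group K] [Finite K] : Formation :=
  gen fun H _ _ => (form K).mem H ∧ RBt t m H

theorem genT_le {t m : ℕ} {K H : Type} [Group K] [Finite K] [Group H] [Finite H]
    (h : (form K).mem H) : (genT t m H).IsSub (genT t m K) := by
  intro X _ _ hX F hF
  exact hX F fun Y _ _ hY => hF Y ⟨form_le (form K) h Y hY.1, hY.2⟩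

/-- From chains of length `t + 1` to chains of length `t`. -/
theorem genT_step (G : Type) [Group G] [Finite G] (hG : D2 G) (t m : ℕ) : ∃ m₀ : ℕ,
    ∀ (K : Type) [Group K] [Finite K], (form G).mem K → RBt (t + 1) m K →
      (genT t m₀ K).mem K := by
  obtain ⟨c, hc⟩ := class_form G
  set n := Nat.card G with hn
  set l := Nat.card (Subgroup G) with hl
  have hn1 : 1 ≤ n := Nat.card_pos
  refine ⟨bd n c l (m + 1), ?_⟩
  have hm₀1 : 1 ≤ bd n c l (m + 1) :=
    Nat.mul_pos (Nat.succ_pos m) (Nat.pow_pos hn1)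
  have key : ∀ μ N : ℕ, ∀ (K : Type) [Group K] [Finite K], (form G).mem K →
      RBt (t + 1) (m + 1) K → RBt t μ K → Nat.card K ≤ N → (genT t (bd n c l (m + 1)) K).mem K := by
    intro μ
    induction μ with
    | zero =>
      intro N K _ _ _ _ hμ _
      obtain ⟨S, _, _, hi⟩ := hμ
      exact absurd (Nat.le_zero.1 hi) Subgroup.index_ne_zero_of_finite
    | succ μ ihμ =>
      intro N
      induction N with
      | zero =>
        intro K _ _ _ _ _ h0
        have : 0 < Nat.card K := Nat.card_pos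
        omega
      | succ N ihN =>
        intro K _ _ hK hm hμ hcard
        by_cases hsmall : RBt t (bd n c l (m + 1)) K
        · exact fun F hF => hF K ⟨mem_form K, hsmall⟩
        rcases mono_or K with h1 | ⟨V, hV⟩ | ⟨N₁, N₂, hN₁, hN₂, h1, h2, h12⟩
        · exfalso
          apply hsmall
          have hsub : Subsingleton K := (Nat.card_eq_one_iff_unique.1 h1).1
          refine ⟨⊤, inferInstance, ?_, ?_⟩
          · have h3 : (⊤ : Subgroup K) = ⊥ := Subsingleton.elim _ _
            rw [h3]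
            exact ht_bot t
          · rw [Subgroup.index_top]
            exact hm₀1
        · have h3 : (gen fun H _ _ => (form K).mem H ∧ RBt t μ H ∧ RBt (t + 1) (m + 1) H).mem K :=
            one_step2 (d2_form hG K hK) (ml_form K hK) (chief_form K hK) hn1 (hc K hK) hV hm hμ
              hsmall
          refine h3 _ fun H _ _ hH => ?_
          have hHG : (form G).mem H := form_le (form G) hK H hH.1
          exact genT_le hH.1 H (ihμ (Nat.card H) H hHG hH.2.2 hH.2.1 le_rfl)
        · have hq : ∀ M : Subgroup K, M.Normal → M ≠ ⊥ → ∀ [M.Normal],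
              (genT t (bd n c l (m + 1)) K).mem (K ⧸ M) := by
            intro M hM hM0 _
            have h4 : (form K).mem (K ⧸ M) := (form K).quot K M (mem_form K)
            refine genT_le h4 _ (ihN (K ⧸ M) (form_le (form G) hK _ h4)
              (rbt_surj (QuotientGroup.mk' M) (QuotientGroup.mk'_surjective M) hm)
              (rbt_surj (QuotientGroup.mk' M) (QuotientGroup.mk'_surjective M) hμ) ?_)
            have h5 := Subgroup.card_eq_card_quotient_mul_card_subgroup M
            have h6 : 1 < Nat.card M := by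
              rw [Subgroup.one_lt_card_iff_ne_bot]
              exact hM0
            have h7 : 0 < Nat.card (K ⧸ M) := Nat.card_pos
            have h8 : Nat.card (K ⧸ M) < Nat.card K := by
              rw [h5]
              exact lt_mul_of_one_lt_right h7 h6
            omega
          refine (genT t (bd n c l (m + 1)) K).of_two (QuotientGroup.mk' N₁) (QuotientGroup.mk' N₂)
            (QuotientGroup.mk'_surjective N₁) (QuotientGroup.mk'_surjective N₂)
            (hq N₁ hN₁ h1) (hq N₂ hN₂ h2) ?_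
          intro x hx1 hx2
          have h3 : x ∈ N₁ := by
            rw [← QuotientGroup.ker_mk' N₁]
            exact hx1
          have h4 : x ∈ N₂ := by
            rw [← QuotientGroup.ker_mk' N₂]
            exact hx2
          have h5 : x ∈ N₁ ⊓ N₂ := ⟨h3, h4⟩
          rw [h12] at h5
          exact Subgroup.mem_bot.1 h5
  intro K _ _ hK hm
  have hRB : RBt t (Nat.card K) K := by
    refine ⟨⊥, inferInstance, ht_bot t, ?_⟩
    rw [Subgroup.index_bot]
  exact key (Nat.card K) (Nat.card K) K hK (rbt_mono (Nat.le_succ m) hm) hRB le_rfl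

/-- Down to soluble normal subgroups. -/
theorem genT_all (G : Type) [Group G] [Finite G] (hG : D2 G) (s : ℕ) : ∀ t : ℕ,
    t + s = Nat.card (Subgroup G) → ∃ m₀ : ℕ,
    ∀ (K : Type) [Group K] [Finite K], (form G).mem K → (genT t m₀ K).mem K := by
  induction s with
  | zero =>
    intro t ht
    refine ⟨1, fun K _ _ hK F hF => hF K ⟨mem_form K, ⊤, inferInstance, ?_, ?_⟩⟩
    · have h1 : t = Nat.card (Subgroup G) := by omega
      rw [h1]
      exact ht_ml (ml_form K hK)
    · rw [Subgroup.index_top]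
  | succ s ih =>
    intro t ht
    obtain ⟨m, hm⟩ := ih (t + 1) (by omega)
    obtain ⟨m₀, hm₀⟩ := genT_step G hG t m
    refine ⟨m₀, fun K _ _ hK => ?_⟩
    refine hm K hK _ fun H _ _ hH => ?_
    exact genT_le hH.1 H (hm₀ H (form_le (form G) hK H hH.1) hH.2)

theorem genM_all2 (G : Type) [Group G] [Finite G] (hG : D2 G) : ∃ m₀ : ℕ,
    ∀ (K : Type) [Group K] [Finite K], (form G).mem K → (genM m₀ K).mem K := by
  obtain ⟨m₀, hm₀⟩ := genT_all G hG (Nat.card (Subgroup G)) 0 (Nat.zero_add _)
  refine ⟨m₀, fun K _ _ hK => ?_⟩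
  refine hm₀ K hK _ fun H _ _ hH F hF => ?_
  exact hF H ⟨hH.1, rbt_zero hH.2⟩

/-- THE THEOREM. -/
theorem main2 (G : Type) [Group G] [Finite G] (hG : D2 G) :
    {F : Formation | F.IsSub (form G)}.Finite := by
  obtain ⟨m, hm⟩ := genM_all2 G hG
  obtain ⟨B, hB⟩ := genB_of_RB G m
  refine finite_of_genB B fun K _ _ hK => ?_
  refine hm K hK (genB B K) fun H _ _ hH => ?_
  exact genB_le hH.1 H (hB H (form_le (form G) hK H hH.1) hH.2)

end Inn

end MP799fdf
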