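import Pool.Agent.Lib.MP_799fdf_al.Inn.KStrA

/-! # Chains of local subgroups -/

set_option autoImplicit false

open scoped commutatorElement

namespace MP799fdf

namespace Inn

/-- There is no chain of `t + 1` local subgroups inside `S`. -/
def HT {K : Type} [Group K] : ℕ → Subgroup K → Prop
  | 0, S => ∀ R N : Subgroup K, Loc R N → ¬ R ≤ S
  | t + 1, S => ∀ R N : Subgroup K, Loc R N → R ≤ S → HT t N

/-- `H` has a normal subgroup of index at most `m` without chains of `t + 1` local subgroups. -/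
def RBt (t m : ℕ) (H : Type) [Group H] : Prop :=
  ∃ S : Subgroup H, S.Normal ∧ HT t S ∧ S.index ≤ m

variable {K : Type} [Group K]

/-- PROOF. `M = ⁅S, R⁆` is normal, `≤ R` and `≤ S`. It is not `≤ N` (`le_cen_iff`), so `M = R`
(`h.max`). -/
theorem loc_le_of_not_cen {R N : Subgroup K} (h : Loc R N) {S : Subgroup K} (hS : S.Normal)
    (hn : ¬ S ≤ cen R N h.nN) : R ≤ S := by
  have hR := h.nR
  have hn' : (⁅S, R⁆ : Subgroup K).Normal := Subgroup.commutator_normal S R
  rcases h.max _ hn' (Subgroup.commutator_le_right S R) with h1 | h1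
  · exact absurd ((le_cen_iff h.nN).2 h1) hn
  · rw [← h1]
    exact Subgroup.commutator_le_left S R

/-- PROOF. Otherwise `S, T ≤ cen R N` (`loc_le_of_not_cen`), so `R ≤ cen R N`, `R ≤ N`
(`loc_inf_cen`), against `h.lt`. -/
theorem loc_prime {R N : Subgroup K} (h : Loc R N) {S T : Subgroup K} (hS : S.Normal)
    (hT : T.Normal) (hle : R ≤ S ⊔ T) : R ≤ S ∨ R ≤ T := by
  by_contra hcon
  rw [not_or] at hcon
  have h1 : S ≤ cen R N h.nN := by
    by_contra hn
    exact hcon.1 (loc_le_of_not_cen h hS hn)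
  have h2 : T ≤ cen R N h.nN := by
    by_contra hn
    exact hcon.2 (loc_le_of_not_cen h hT hn)
  have h3 : R ≤ N := (le_inf le_rfl (hle.trans (sup_le h1 h2))).trans (loc_inf_cen h)
  exact absurd h3 (not_le_of_gt h.lt)

theorem ht_le {t : ℕ} {S T : Subgroup K} (h : HT t S) (hle : T ≤ S) : HT t T := by
  cases t with
  | zero => exact fun R N hL hR => h R N hL (hR.trans hle)
  | succ t => exact fun R N hL hR => h R N hL (hR.trans hle)

/-- PROOF. Induction on `t` (`S` arbitrary). -/
theorem ht_succ {t : ℕ} {S : Subgroup K} (h : HT t S) : HT (t + 1) S := by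
  induction t generalizing S with
  | zero => exact fun R N hL hR => absurd hR (h R N hL)
  | succ t ih => exact fun R N hL hR => ih (h R N hL hR)

/-- PROOF. No `Loc R N` has `R ≤ ⊥` (`Loc.ne_bot`). -/
theorem ht_bot (t : ℕ) : HT t (⊥ : Subgroup K) := by
  cases t with
  | zero => exact fun R N hL hR => hL.ne_bot (le_bot_iff.1 hR)
  | succ t => exact fun R N hL hR => absurd (le_bot_iff.1 hR) hL.ne_bot

/-- PROOF. `loc_prime`, cases on `t`. -/
theorem ht_sup {t : ℕ} {S T : Subgroup K} (hS : S.Normal) (hT : T.Normal) (h1 : HT t S)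
    (h2 : HT t T) : HT t (S ⊔ T) := by
  cases t with
  | zero =>
    intro R N hL hR
    rcases loc_prime hL hS hT hR with h3 | h3
    · exact h1 R N hL h3
    · exact h2 R N hL h3
  | succ t =>
    intro R N hL hR
    rcases loc_prime hL hS hT hR with h3 | h3
    · exact h1 R N hL h3
    · exact h2 R N hL h3

/-- PROOF. As `exists_radical` in `RBB.lean`: a maximal element (finite) of the set of all normal
subgroups with `HT t`; `⊥` is one; `ht_sup`. -/
theorem exists_ht_radical [Finite K] (t : ℕ) : ∃ S : Subgroup K, S.Normal ∧ HT t S ∧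
    ∀ T : Subgroup K, T.Normal → HT t T → T ≤ S := by
  have hfin : Set.Finite {S : Subgroup K | S.Normal ∧ HT t S} := Set.toFinite _
  have hne : Set.Nonempty {S : Subgroup K | S.Normal ∧ HT t S} :=
    ⟨⊥, inferInstance, ht_bot t⟩
  obtain ⟨S, hS⟩ := hfin.exists_maximal hne
  refine ⟨S, hS.1.1, hS.1.2, ?_⟩
  intro T hT hTs
  have := hS.1.1
  have := hT
  have h4 : S ⊔ T ∈ {S : Subgroup K | S.Normal ∧ HT t S} :=
    ⟨inferInstance, ht_sup hS.1.1 hT hS.1.2 hTs⟩
  exact le_trans le_sup_right (hS.2 h4 le_sup_left)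

/-- PROOF. `exists_loc`. -/
theorem ht_zero_solv [Finite K] {S : Subgroup K} (hS : S.Normal) (h : HT 0 S) :
    Group.IsSolvable S := by
  by_contra hs
  obtain ⟨R, N, hL, hR⟩ := exists_loc S hS hs
  exact h R N hL hR

end Inn

end MP799fdf
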