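import Pool.Agent.Lib.MP_799fdf_al.Inn.IrrA

/-! # The order modulo the Frattini subgroup -/

set_option autoImplicit false

open scoped commutatorElement

namespace MP799fdf

namespace Inn

open Finset

/-- a nontrivial normal subgroup of a finite group contains a minimal one -/
private lemma irrbM_exists_min {Q : Type} [Group Q] [Finite Q] (X : Subgroup Q) (hX : X.Normal)
    (hne : X ≠ ⊥) : ∃ W : Subgroup Q, IsChief W ⊥ ∧ W ≤ X := by
  obtain ⟨W, hW⟩ := (Set.toFinite {Z : Subgroup Q | Z.Normal ∧ Z ≠ ⊥ ∧ Z ≤ X}).exists_minimal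
    ⟨X, hX, hne, le_refl X⟩
  refine ⟨W, ⟨hW.1.1, inferInstance, bot_lt_iff_ne_bot.2 hW.1.2.1, ?_⟩, hW.1.2.2⟩
  intro Z hZ _ hZW
  by_cases hZb : Z = ⊥
  · exact Or.inl hZb
  · right
    refine le_antisymm hZW ?_
    exact hW.2 ⟨hZ, hZb, hZW.trans hW.1.2.2⟩ hZW

private lemma irrbM_relIndex_le_index {Q : Type} [Group Q] [Finite Q] (H L : Subgroup Q) :
    H.relIndex L ≤ H.index := by
  rw [← Subgroup.relIndex_top_right]
  refine Subgroup.relIndex_le_of_le_right le_top ?_
  rw [Subgroup.relIndex_top_right]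
  exact Subgroup.index_ne_zero_of_finite

/-- PROOF. As `bound_quot` (`Main.lean`), with the soluble normal subgroup `S` of index `≤ m` instead of
`C0`: `(S.map mk).index ≤ m`, `S.map mk ⊓ D = ⊥` (a minimal normal subgroup `W` in it is soluble, hence
abelian: `⁅W, W⁆` is normal, so `⊥` or `W`), so `|D| ≤ m`,
`|Q| ≤ n ^ r * (m * n ^ r) ≤ m * n ^ (2 * c)`. -/
theorem bound_quotM {m n c : ℕ} {K : Type} [Group K] [Finite K] (hm : RB m K) (hn1 : 1 ≤ n)
    (hK : ¬ (lowM m K).mem K)
    (hn : ChiefBound n K) (hc : ∀ F : Subgroup K, Group.IsNilpotent F → gam F (c + 1) = ⊥) :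
    Nat.card (K ⧸ frattini K) ≤ m * n ^ (2 * c) := by
  classical
  obtain ⟨S, hSn, hSs, hSi⟩ := hm
  have hmk : Function.Surjective (QuotientGroup.mk' (frattini K)) := QuotientGroup.mk'_surjective _
  have hQf : frattini (K ⧸ frattini K) = ⊥ := frattini_quot K
  obtain ⟨r, U, hU, hab, hcard, hmax⟩ := exists_family (K ⧸ frattini K)
  have hUn : ∀ i, (U i).Normal := fun i => (hU i).nH
  have hAn : (⨆ i, U i).Normal := Subgroup.iSup_normal U
  obtain ⟨M, hM1, hM2⟩ := exists_compl hQf (⨆ i, U i) hAn hab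
  have hrc : r ≤ c := few_abelianM ⟨S, hSn, hSs, hSi⟩ hK hc U hU hab hcard M hM1 hM2
  have hCB : ChiefBound n (K ⧸ frattini K) := chief_surj _ hmk hn
  have hmapi : (S.map (QuotientGroup.mk' (frattini K))).index ≤ m := by
    have h1 := Subgroup.index_map_dvd (H := S) hmk
    have h2 : S.index ≠ 0 := Subgroup.index_ne_zero_of_finite
    exact (Nat.le_of_dvd (Nat.pos_of_ne_zero h2) h1).trans hSi
  have hmapn : (S.map (QuotientGroup.mk' (frattini K))).Normal := hSn.map _ hmk
  have hmaps : Group.IsSolvable (S.map (QuotientGroup.mk' (frattini K))) :=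
    Group.isSolvable_of_surjective ((QuotientGroup.mk' (frattini K)).subgroupMap_surjective S)
  -- the centralisers of the `U i`
  have hUb : ∀ i, Nat.card (U i) ≤ n := by
    intro i
    have h1 := (hCB (U i) ⊥ (hU i)).1
    rwa [Subgroup.relIndex_bot_left] at h1
  choose C hCn hCU hCi using fun i => (hCB (U i) ⊥ (hU i)).2
  set D : Subgroup (K ⧸ frattini K) := M ⊓ ⨅ i, C i with hD
  have hIn : (⨅ i, C i).Normal := Subgroup.normal_iInf_normal hCn
  have hcen : ∀ y ∈ ⨅ i, C i, ∀ a ∈ ⨆ i, U i, a * y = y * a := by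
    intro y hy a ha
    have h1 : (⨆ i, U i) ≤ Subgroup.centralizer {y} := by
      refine iSup_le fun i x hx => ?_
      rw [Subgroup.mem_centralizer_iff]
      intro z hz
      rw [Set.mem_singleton_iff] at hz
      subst hz
      have h2 : ⁅z, x⁆ ∈ ⁅C i, U i⁆ :=
        Subgroup.commutator_mem_commutator ((Subgroup.mem_iInf.1 hy) i) hx
      have h3 : ⁅z, x⁆ = 1 := by simpa using hCU i h2
      exact commutatorElement_eq_one_iff_mul_comm.1 h3
    have h4 := Subgroup.mem_centralizer_iff.1 (h1 ha) y (Set.mem_singleton y)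
    exact h4.symm
  have hDn : D.Normal := by
    refine ⟨fun x hx g => ?_⟩
    have hg : g ∈ (⨆ i, U i) ⊔ M := by rw [hM1]; exact Subgroup.mem_top g
    obtain ⟨a, ha, b, hb, rfl⟩ := Subgroup.mem_sup_of_normal_left.1 hg
    have h1 : b * x * b⁻¹ ∈ M := M.mul_mem (M.mul_mem hb hx.1) (M.inv_mem hb)
    have h2 : b * x * b⁻¹ ∈ ⨅ i, C i := hIn.conj_mem x hx.2 b
    have h3 : a * b * x * (a * b)⁻¹ = b * x * b⁻¹ := by
      have h4 : a * b * x * (a * b)⁻¹ = a * (b * x * b⁻¹) * a⁻¹ := by group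
      rw [h4, hcen _ h2 a ha, mul_assoc, mul_inv_cancel, mul_one]
    rw [h3]
    exact ⟨h1, h2⟩
  have hDC : S.map (QuotientGroup.mk' (frattini K)) ⊓ D = ⊥ := by
    by_contra hne
    have hXn : (S.map (QuotientGroup.mk' (frattini K)) ⊓ D).Normal :=
      Subgroup.normal_inf_normal _ _
    obtain ⟨W, hW, hWX⟩ := irrbM_exists_min _ hXn hne
    have hWn := hW.nH
    have hWab : ∀ x ∈ W, ∀ y ∈ W, x * y = y * x := by
      by_contra hcon
      have h1 : ⁅W, W⁆ ≠ ⊥ := by
        intro h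
        apply hcon
        intro x hx y hy
        have h2 : ⁅x, y⁆ ∈ ⁅W, W⁆ := Subgroup.commutator_mem_commutator hx hy
        rw [h, Subgroup.mem_bot, commutatorElement_eq_one_iff_mul_comm] at h2
        exact h2
      have h2 : ⁅W, W⁆ = W := by
        rcases hW.min ⁅W, W⁆ (Subgroup.commutator_normal _ _) bot_le
          (Subgroup.commutator_le_self W) with h | h
        · exact absurd h h1
        · exact h
      have h3 : W ≤ ⊥ := perfect_le W ⊥ _ inferInstance hmaps h2
        ((hWX.trans inf_le_left).trans le_sup_right)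
      exact hW.lt.ne' (le_bot_iff.1 h3)
    have hWA := hmax W hW hWab
    have hWM : W ≤ M := (hWX.trans inf_le_right).trans inf_le_left
    have : W ≤ ⊥ := by
      rw [← hM2]
      exact le_inf hWA hWM
    exact hW.lt.ne' (le_bot_iff.1 this)
  have hDcard : Nat.card D ≤ m := by
    have h1 : (S.map (QuotientGroup.mk' (frattini K))).relIndex D = Nat.card D := by
      rw [← Subgroup.inf_relIndex_right, hDC, Subgroup.relIndex_bot_left]
    rw [← h1]
    exact (irrbM_relIndex_le_index _ _).trans hmapi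
  have hMcard : Nat.card M ≤ m * n ^ r := by
    have h1 : (⨅ i, C i).relIndex M ≤ n ^ r := by
      refine (Subgroup.relIndex_iInf_le C).trans ?_
      calc ∏ i, (C i).relIndex M ≤ ∏ _i : Fin r, n :=
            Finset.prod_le_prod' fun i _ => (irrbM_relIndex_le_index _ _).trans (hCi i)
        _ = n ^ r := by simp
    have h2 : D.relIndex M = (⨅ i, C i).relIndex M := by
      rw [hD, inf_comm, Subgroup.inf_relIndex_right]
    have h3 : (⊥ : Subgroup (K ⧸ frattini K)).relIndex D * D.relIndex M =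
        (⊥ : Subgroup (K ⧸ frattini K)).relIndex M :=
      Subgroup.relIndex_mul_relIndex ⊥ D M bot_le inf_le_left
    rw [Subgroup.relIndex_bot_left, Subgroup.relIndex_bot_left] at h3
    rw [← h3]
    exact Nat.mul_le_mul hDcard (h2.trans_le h1)
  have hAcard : Nat.card ↥(⨆ i, U i) ≤ n ^ r := by
    rw [hcard]
    calc ∏ i, Nat.card (U i) ≤ ∏ _i : Fin r, n := Finset.prod_le_prod' fun i _ => hUb i
      _ = n ^ r := by simp
  have hQcard : Nat.card (K ⧸ frattini K) ≤ Nat.card ↥(⨆ i, U i) * Nat.card M := by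
    rw [← Nat.card_prod]
    refine Nat.card_le_card_of_surjective
      (fun p : ↥(⨆ i, U i) × M => (p.1 : K ⧸ frattini K) * (p.2 : K ⧸ frattini K)) ?_
    intro g
    have hg : g ∈ (⨆ i, U i) ⊔ M := by rw [hM1]; exact Subgroup.mem_top g
    obtain ⟨a, ha, b, hb, rfl⟩ := Subgroup.mem_sup_of_normal_left.1 hg
    exact ⟨(⟨a, ha⟩, ⟨b, hb⟩), rfl⟩
  calc Nat.card (K ⧸ frattini K) ≤ Nat.card ↥(⨆ i, U i) * Nat.card M := hQcard
    _ ≤ n ^ r * (m * n ^ r) := Nat.mul_le_mul hAcard hMcard
    _ = m * n ^ (2 * r) := by ring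
    _ ≤ m * n ^ (2 * c) := Nat.mul_le_mul_left _ (Nat.pow_le_pow_right hn1 (by omega))

end Inn

end MP799fdf
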