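import Pool.Agent.Lib.MP_799fdf_al.Inn.Base

/-! # Local subgroups and homomorphisms -/

set_option autoImplicit false

open scoped commutatorElement

namespace MP799fdf

namespace Inn

variable {K A B : Type} [Group K] [Group A] [Group B]

/-- PROOF. `N < R`. -/
theorem Loc.ne_bot {R N : Subgroup K} (h : Loc R N) : R ≠ ⊥ := by
  rintro rfl
  exact not_lt_bot h.lt

/-- PROOF. `min`: a normal `Z` with `N ≤ Z ≤ R` is `≤ N` or `= R`. -/
theorem Loc.chief {R N : Subgroup K} (h : Loc R N) : IsChief R N := by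
  refine ⟨h.nR, h.nN, h.lt, fun Z hZ hNZ hZR => ?_⟩
  rcases h.max Z hZ hZR with h1 | h1
  · exact Or.inl (le_antisymm h1 hNZ)
  · exact Or.inr h1

/-- Local subgroups lift along surjections.

PROOF. Let `R'` be minimal (finite group) among the normal subgroups of `A` with
`R' ≤ R.comap f` and `¬ R' ≤ N.comap f` (`R.comap f` is one). `N' = R' ⊓ N.comap f`.
`R'.map f` is normal, `≤ R`, not `≤ N`, so `= R` (`h.max`). For `M` normal, `M ≤ R'`: if
`¬ M ≤ N.comap f` then `M = R'` by minimality, otherwise `M ≤ N'`. Perfect: `⁅R', R'⁆ ≤ R'` is normal,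
and `⁅R', R'⁆.map f = ⁅R, R⁆ = R` is not `≤ N`, so `⁅R', R'⁆ = R'` by minimality. -/
theorem loc_lift [Finite A] (f : A →* B) (hf : Function.Surjective f) {R N : Subgroup B}
    (h : Loc R N) :
    ∃ R' N' : Subgroup A, Loc R' N' ∧ R'.map f = R ∧ N' = R' ⊓ N.comap f := by
  classical
  have hfin : Finite (Subgroup A) := inferInstance
  let S : Set (Subgroup A) := {X | X.Normal ∧ X ≤ R.comap f ∧ ¬ X ≤ N.comap f}
  have hnR := h.nR
  have hnN := h.nN
  have hSR : R.comap f ∈ S := by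
    refine ⟨Subgroup.Normal.comap hnR f, le_rfl, fun h1 => ?_⟩
    have h2 : R ≤ N := by
      intro r hr
      obtain ⟨a, rfl⟩ := hf r
      exact h1 (show a ∈ R.comap f from hr)
    exact absurd h2 (not_le_of_gt h.lt)
  obtain ⟨R', hR'⟩ := (Set.toFinite S).exists_minimal ⟨_, hSR⟩
  obtain ⟨⟨hR'n, hR'R, hR'N⟩, hmin⟩ := hR'
  have key : ∀ M : Subgroup A, M.Normal → M ≤ R' → ¬ M ≤ N.comap f → M = R' := by
    intro M hM hMR hMN
    exact le_antisymm hMR (hmin ⟨hM, hMR.trans hR'R, hMN⟩ hMR)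
  have hmapn : (R'.map f).Normal := Subgroup.Normal.map hR'n f hf
  have hmap : R'.map f = R := by
    rcases h.max (R'.map f) hmapn (Subgroup.map_le_iff_le_comap.2 hR'R) with h1 | h1
    · exact absurd (Subgroup.map_le_iff_le_comap.1 h1) hR'N
    · exact h1
  have hNn : (R' ⊓ N.comap f).Normal := by
    have : (N.comap f).Normal := Subgroup.Normal.comap hnN f
    exact @Subgroup.normal_inf_normal _ _ R' (N.comap f) hR'n this
  refine ⟨R', R' ⊓ N.comap f, ⟨hR'n, hNn, ?_, ?_, ?_⟩, hmap, rfl⟩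
  · refine lt_of_le_of_ne inf_le_left fun h1 => hR'N ?_
    rw [← h1]
    exact inf_le_right
  · have := hR'n
    refine key _ (Subgroup.commutator_normal R' R') (Subgroup.commutator_le_left R' R') fun h1 => ?_
    have h2 : (⁅R', R'⁆ : Subgroup A).map f ≤ N := Subgroup.map_le_iff_le_comap.2 h1
    rw [Subgroup.map_commutator, hmap, h.perf] at h2
    exact absurd h2 (not_le_of_gt h.lt)
  · intro M hM hMR
    by_cases h1 : M ≤ N.comap f
    · exact Or.inl (le_inf hMR h1)
    · exact Or.inr (key M hM hMR h1)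

/-- PROOF. `R ⊓ f.ker` is normal and `≤ R`; it is not `R`. -/
theorem loc_inf_ker {f : K →* A} {R N : Subgroup K} (h : Loc R N) (hR : ¬ R ≤ f.ker) :
    R ⊓ f.ker ≤ N := by
  have := h.nR
  have hn : (R ⊓ f.ker).Normal := Subgroup.normal_inf_normal R f.ker
  rcases h.max _ hn inf_le_left with h1 | h1
  · exact h1
  · exact absurd (inf_eq_left.1 h1) hR

theorem cen_normal (R N : Subgroup K) (hR : R.Normal) (hN : N.Normal) : (cen R N hN).Normal := by
  refine ⟨fun c hc g => ?_⟩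
  rw [mem_cen] at hc ⊢
  intro x hx
  have h1 : ⁅g * c * g⁻¹, x⁆ = g * ⁅c, g⁻¹ * x * g⁆ * g⁻¹ := by
    simp only [commutatorElement_def]
    group
  rw [h1]
  refine hN.conj_mem _ (hc _ ?_) g
  have := hR.conj_mem x hx g⁻¹
  simpa using this

/-- PROOF. `⁅L, R⁆ ≤ N`: `Subgroup.commutator_mem_commutator`. -/
theorem le_cen_iff {L R N : Subgroup K} (hN : N.Normal) : L ≤ cen R N hN ↔ ⁅L, R⁆ ≤ N := by
  rw [Subgroup.commutator_le]
  exact Iff.rfl

/-- PROOF. `R ⊓ cen R N` is normal, `≤ R`; if it is `R` then `⁅R, R⁆ ≤ N`, so `R ≤ N`. -/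
theorem loc_inf_cen {R N : Subgroup K} (h : Loc R N) : R ⊓ cen R N h.nN ≤ N := by
  have := h.nR
  have := cen_normal R N h.nR h.nN
  have hn : (R ⊓ cen R N h.nN).Normal := Subgroup.normal_inf_normal R (cen R N h.nN)
  rcases h.max _ hn inf_le_left with h1 | h1
  · exact h1
  · have h2 : ⁅R, R⁆ ≤ N := (le_cen_iff h.nN).1 (inf_eq_left.1 h1)
    rw [h.perf] at h2
    exact absurd h2 (not_le_of_gt h.lt)

end Inn

end MP799fdf
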