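import Pool.Agent.Lib.MP_799fdf_al.Inn.LocA

/-! # Images of local subgroups -/

set_option autoImplicit false

open scoped commutatorElement

namespace MP799fdf

namespace Inn

variable {K A B : Type} [Group K] [Group A] [Group B]

/-- PROOF. `N.map f ≠ R.map f`: otherwise for `r ∈ R` there is `n ∈ N` with `f r = f n`, so
`r * n⁻¹ ∈ R ⊓ f.ker ≤ N` (`loc_inf_ker`) and `R ≤ N`. Maximality: for `M` normal in `A`, `M ≤ R.map f`,
`M' = M.comap f ⊓ R` is normal and `M'.map f = M`; use `h.max` for `M'`. Perfect: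
`Subgroup.map_commutator`. -/
theorem loc_map (f : K →* A) (hf : Function.Surjective f) {R N : Subgroup K} (h : Loc R N)
    (hR : ¬ R ≤ f.ker) : Loc (R.map f) (N.map f) := by
  have hNR := h.nR
  have hNN := h.nN
  refine ⟨h.nR.map f hf, h.nN.map f hf, ?_, ?_, ?_⟩
  · refine lt_of_le_of_ne (Subgroup.map_mono h.lt.le) fun e => ?_
    refine absurd h.lt (not_lt_of_ge fun r hr => ?_)
    have h1 : f r ∈ N.map f := by
      rw [e]
      exact Subgroup.mem_map_of_mem f hr
    obtain ⟨n, hn, hfn⟩ := Subgroup.mem_map.1 h1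
    have h2 : r * n⁻¹ ∈ R ⊓ f.ker := by
      refine Subgroup.mem_inf.2 ⟨R.mul_mem hr (R.inv_mem (h.lt.le hn)), ?_⟩
      rw [MonoidHom.mem_ker, map_mul, map_inv, hfn, mul_inv_cancel]
    have h3 := N.mul_mem (loc_inf_ker h hR h2) hn
    rwa [inv_mul_cancel_right] at h3
  · rw [← Subgroup.map_commutator, h.perf]
  · intro M hM hle
    have hM' : (M.comap f ⊓ R).Normal := by
      have := hM.comap f
      infer_instance
    have hmap : (M.comap f ⊓ R).map f = M := by
      apply le_antisymm
      · rintro _ ⟨x, hx, rfl⟩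
        exact hx.1
      · intro m hm
        obtain ⟨r, hr, rfl⟩ := Subgroup.mem_map.1 (hle hm)
        exact Subgroup.mem_map_of_mem f ⟨hm, hr⟩
    rcases h.max _ hM' inf_le_right with h1 | h1
    · left
      rw [← hmap]
      exact Subgroup.map_mono h1
    · right
      rw [← hmap, h1]

private theorem loc_map_le_aux (f : K →* A) (hf : Function.Surjective f) {R N R' : Subgroup K}
    (h : Loc R N) (h' : R'.Normal) (hR : ¬ R ≤ f.ker) (e : R.map f = R'.map f) : R ≤ R' := by
  have hNR := h.nR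
  have h1 : (⁅R, R'⁆).map f = R.map f := by
    rw [Subgroup.map_commutator, ← e, ← Subgroup.map_commutator, h.perf]
  have h2 : ⁅R, R'⁆.Normal := Subgroup.commutator_normal R R'
  rcases h.max _ h2 (Subgroup.commutator_le_left R R') with h3 | h3
  · exfalso
    have h4 := Subgroup.map_mono (f := f) h3
    rw [h1] at h4
    exact absurd (loc_map f hf h hR).lt (not_lt_of_ge h4)
  · rw [← h3]
    exact Subgroup.commutator_le_right R R'

/-- PROOF. Let `M = ⁅R, R'⁆`, normal, `M ≤ R`, `M ≤ R'`. `M.map f = ⁅R.map f, R'.map f⁆ = R.map f`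
(perfect). If `M ≤ N` then `R.map f ≤ N.map f`, against `(loc_map ..).lt`. So `M = R`, and `R ≤ R'`.
Symmetric for `R'` (`R'` is not `≤ f.ker`, as `R'.map f = R.map f ≠ ⊥`). -/
theorem loc_map_inj (f : K →* A) (hf : Function.Surjective f) {R N R' N' : Subgroup K}
    (h : Loc R N) (h' : Loc R' N') (hR : ¬ R ≤ f.ker) (e : R.map f = R'.map f) : R = R' := by
  refine le_antisymm (loc_map_le_aux f hf h h'.nR hR e)
    (loc_map_le_aux f hf h' h.nR (fun hk => hR ?_) e.symm)
  rw [← Subgroup.map_eq_bot_iff] at hk ⊢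
  rw [e, hk]

end Inn

end MP799fdf
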