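import Pool.Agent.Lib.MP_799fdf_al.Inn.Base

/-! # The algebra of local functions -/

set_option autoImplicit false

open scoped commutatorElement

namespace MP799fdf

namespace Inn

variable {K ι X : Type} [Group K] {B : Finset ι → Subgroup K} {Y : Set X}

theorem LF.one (A : Subgroup K) (U : Finset ι) (Z : Finset X) :
    LF B A U Z (1 : Emb ι Y → K) :=
  ⟨fun _ => A.one_mem, fun _ => (B U).one_mem, fun _ _ _ => rfl, fun _ _ => rfl⟩

theorem LF.mul {A : Subgroup K} {U : Finset ι} {Z : Finset X} {g h : Emb ι Y → K}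
    (hg : LF B A U Z g) (hh : LF B A U Z h) : LF B A U Z (g * h) := by
  refine ⟨fun c => A.mul_mem (hg.mem c) (hh.mem c),
    fun c => (B U).mul_mem (hg.memB c) (hh.memB c), fun c c' hc => ?_, fun c hc => ?_⟩
  · rw [Pi.mul_apply, Pi.mul_apply, hg.loc c c' hc, hh.loc c c' hc]
  · rw [Pi.mul_apply, hg.van c hc, hh.van c hc, mul_one]

theorem LF.inv {A : Subgroup K} {U : Finset ι} {Z : Finset X} {g : Emb ι Y → K}
    (hg : LF B A U Z g) : LF B A U Z g⁻¹ := by
  refine ⟨fun c => A.inv_mem (hg.mem c), fun c => (B U).inv_mem (hg.memB c),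
    fun c c' hc => ?_, fun c hc => ?_⟩
  · rw [Pi.inv_apply, Pi.inv_apply, hg.loc c c' hc]
  · rw [Pi.inv_apply, hg.van c hc, inv_one]

/-- Local functions with `U = ∅` are trivial. -/
theorem LF.empty {A : Subgroup K} {Z : Finset X} {g : Emb ι Y → K}
    (hg : LF B A ∅ Z g) : g = 1 := by
  funext c
  exact hg.van c (fun u hu => absurd hu (Finset.notMem_empty u))

/-- PROOF. Pointwise. If `c` maps `U ∪ U'` into `Z` then `g c = 1`. -/
theorem LF.comm [DecidableEq ι] (hB : ∀ S T, ⁅B S, B T⁆ ≤ B (S ∪ T)) {A A' : Subgroup K}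
    {U U' : Finset ι} {Z Z' : Finset X} {g h : Emb ι Y → K} (hg : LF B A U Z g)
    (hh : LF B A' U' Z' h) : LF B ⁅A, A'⁆ (U ∪ U') Z ⁅g, h⁆ := by
  have key : ∀ c, ⁅g, h⁆ c = ⁅g c, h c⁆ := fun c => rfl
  refine ⟨fun c => ?_, fun c => ?_, fun c c' hc => ?_, fun c hc => ?_⟩
  · rw [key]
    exact Subgroup.commutator_mem_commutator (hg.mem c) (hh.mem c)
  · rw [key]
    exact hB U U' (Subgroup.commutator_mem_commutator (hg.memB c) (hh.memB c))
  · rw [key, key, hg.loc c c' (fun u hu => hc u (Finset.mem_union_left _ hu)),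
      hh.loc c c' (fun u hu => hc u (Finset.mem_union_right _ hu))]
  · rw [key, hg.van c (fun u hu => hc u (Finset.mem_union_left _ hu)),
      commutatorElement_one_left]

theorem LF.mono_A {A A' : Subgroup K} (hA : A ≤ A') {U : Finset ι} {Z : Finset X}
    {g : Emb ι Y → K} (hg : LF B A U Z g) : LF B A' U Z g :=
  ⟨fun c => hA (hg.mem c), hg.memB, hg.loc, hg.van⟩

theorem LF.mono_Z {A : Subgroup K} {U : Finset ι} {Z Z' : Finset X} (hZ : Z ⊆ Z')
    {g : Emb ι Y → K} (hg : LF B A U Z' g) : LF B A U Z g :=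
  ⟨hg.mem, hg.memB, hg.loc, fun c hc => hg.van c (fun u hu => hZ (hc u hu))⟩

theorem ww_mono_Z {A : Subgroup K} {Z Z' : Finset X} (hZ : Z ⊆ Z') :
    WW B Y A Z' ≤ WW B Y A Z := by
  apply Subgroup.closure_mono
  rintro g ⟨U, hU⟩
  exact ⟨U, hU.mono_Z hZ⟩

theorem ww_mono_A {A A' : Subgroup K} (hA : A ≤ A') (Z : Finset X) :
    WW B Y A Z ≤ WW B Y A' Z := by
  apply Subgroup.closure_mono
  rintro g ⟨U, hU⟩
  exact ⟨U, hU.mono_A hA⟩

theorem vv_mono {A : Subgroup K} {m m' : ℕ} (h : m ≤ m') (Z : Finset X) :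
    VV B Y A m Z ≤ VV B Y A m' Z := by
  apply Subgroup.closure_mono
  rintro g ⟨U, hU | hU⟩
  · exact ⟨U, Or.inl ⟨hU.1.trans h, hU.2⟩⟩
  · exact ⟨U, Or.inr hU⟩

theorem ww_le_vv {A : Subgroup K} (m : ℕ) (Z : Finset X) :
    WW B Y ⁅A, A⁆ Z ≤ VV B Y A m Z := by
  apply Subgroup.closure_mono
  rintro g ⟨U, hU⟩
  exact ⟨U, Or.inr hU⟩

/-- PROOF. Local functions with `|U| > l` are trivial, so `LF B ⁅A, A⁆ ∅ Z`. -/
theorem ww_le_vv' {A : Subgroup K} {l : ℕ} (hl : ∀ T : Finset ι, l < T.card → B T = ⊥)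
    (Z : Finset X) : WW B Y A Z ≤ VV B Y A l Z := by
  apply Subgroup.closure_mono
  rintro g ⟨U, hU⟩
  by_cases hc : U.card ≤ l
  · exact ⟨U, Or.inl ⟨hc, hU⟩⟩
  · have h1 : g = 1 := by
      funext c
      have h2 := hU.memB c
      rw [hl U (not_le.mp hc), Subgroup.mem_bot] at h2
      exact h2
    subst h1
    exact ⟨U, Or.inr (LF.one _ _ _)⟩

/-- PROOF. `LF.empty`: a local function of degree `0` is `1`. -/
theorem vv_zero {A : Subgroup K} (Z : Finset X) : VV B Y A 0 Z ≤ WW B Y ⁅A, A⁆ Z := by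
  apply Subgroup.closure_mono
  rintro g ⟨U, hU | hU⟩
  · have h1 : U = ∅ := Finset.card_eq_zero.mp (Nat.le_zero.mp hU.1)
    subst h1
    have h2 := hU.2.empty
    subst h2
    exact ⟨∅, LF.one _ _ _⟩
  · exact ⟨U, hU⟩

/-- PROOF. `Subgroup.closure_le` into the preimage of `A` under the evaluation at `c`. -/
theorem ww_mem {A : Subgroup K} {Z : Finset X} {v : Emb ι Y → K} (hv : v ∈ WW B Y A Z)
    (c : Emb ι Y) : v c ∈ A := by
  have h1 : WW B Y A Z ≤ A.comap (Pi.evalMonoidHom (fun _ : Emb ι Y => K) c) := by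
    apply (Subgroup.closure_le _).mpr
    rintro g ⟨U, hU⟩
    exact hU.mem c
  exact h1 hv

/-- PROOF. `⁅A, A⁆ ≤ A`. -/
theorem vv_mem {A : Subgroup K} {m : ℕ} {Z : Finset X} {v : Emb ι Y → K}
    (hv : v ∈ VV B Y A m Z) (c : Emb ι Y) : v c ∈ A := by
  have h1 : VV B Y A m Z ≤ A.comap (Pi.evalMonoidHom (fun _ : Emb ι Y => K) c) := by
    apply (Subgroup.closure_le _).mpr
    rintro g ⟨U, hU | hU⟩
    · exact hU.2.mem c
    · have h2 : ⁅A, A⁆ ≤ A := by
        rw [Subgroup.commutator_le]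
        intro x hx y hy
        rw [commutatorElement_def]
        exact A.mul_mem (A.mul_mem (A.mul_mem hx hy) (A.inv_mem hx)) (A.inv_mem hy)
      exact h2 (hU.mem c)
  exact h1 hv


end Inn

end MP799fdf
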