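import Pool.Agent.Lib.MP_799fdf_al.Inn.PolyA

/-! # Commutators of local functions -/

set_option autoImplicit false

open scoped commutatorElement

namespace MP799fdf

namespace Inn

variable {K ι X : Type} [Group K] {B : Finset ι → Subgroup K} {Y : Set X}

private theorem gen_conj_polyA2 [DecidableEq ι] (hB : ∀ S T, ⁅B S, B T⁆ ≤ B (S ∪ T))
    {A : Subgroup K} (hA : A.Normal) {Z : Finset X} {g : Emb ι Y → K} {U : Finset ι}
    (hg : LF B ⊤ U (∅ : Finset X) g) {w : Emb ι Y → K} (hw : w ∈ WW B Y A Z) :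
    g * w * g⁻¹ ∈ WW B Y A Z := by
  induction hw using Subgroup.closure_induction with
  | mem w hw =>
    obtain ⟨U', hL⟩ := hw
    have h1 : LF B A (U' ∪ U) Z ⁅w, g⁆ :=
      LF.mono_A (Subgroup.commutator_le_left A ⊤) (LF.comm hB hL hg)
    have h2 : ⁅w, g⁆ ∈ WW B Y A Z := Subgroup.subset_closure ⟨_, h1⟩
    have h3 : w ∈ WW B Y A Z := Subgroup.subset_closure ⟨_, hL⟩
    have h4 : g * w * g⁻¹ = ⁅w, g⁆⁻¹ * w := by
      rw [commutatorElement_def]
      group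
    rw [h4]
    exact mul_mem (inv_mem h2) h3
  | one =>
    have h4 : g * 1 * g⁻¹ = 1 := by group
    rw [h4]
    exact one_mem _
  | mul x y _ _ ihx ihy =>
    have h4 : g * (x * y) * g⁻¹ = (g * x * g⁻¹) * (g * y * g⁻¹) := by group
    rw [h4]
    exact mul_mem ihx ihy
  | inv x _ ihx =>
    have h4 : g * x⁻¹ * g⁻¹ = (g * x * g⁻¹)⁻¹ := by group
    rw [h4]
    exact inv_mem ihx

/-- PROOF. Closure induction: first for one generator `g` (`LF B ⊤ U ∅ g`) and all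
`w ∈ WW B Y A Z`: `g * w * g⁻¹ = ⁅g, w⁆ * w`; for a generator `w`, `⁅g, w⁆ = ⁅w, g⁆⁻¹` is local with
values in `⁅A, ⊤⁆ ≤ A` (`LF.comm`, `LF.inv`, `LF.mono_A`). Then for products and inverses of
generators (the inverse of a local function is a local function). -/
theorem conj_ww [DecidableEq ι] (hB : ∀ S T, ⁅B S, B T⁆ ≤ B (S ∪ T)) {A : Subgroup K}
    (hA : A.Normal) {Z : Finset X} {g : Emb ι Y → K} (hg : g ∈ WW B Y ⊤ (∅ : Finset X))
    {w : Emb ι Y → K} (hw : w ∈ WW B Y A Z) : g * w * g⁻¹ ∈ WW B Y A Z := by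
  have key : (∀ w ∈ WW B Y A Z, g * w * g⁻¹ ∈ WW B Y A Z) ∧
      ∀ w ∈ WW B Y A Z, g⁻¹ * w * g ∈ WW B Y A Z := by
    induction hg using Subgroup.closure_induction with
    | mem g hg =>
      obtain ⟨U, hL⟩ := hg
      refine ⟨fun w hw => gen_conj_polyA2 hB hA hL hw, fun w hw => ?_⟩
      have h5 := gen_conj_polyA2 hB hA hL.inv hw
      rwa [inv_inv] at h5
    | one =>
      refine ⟨fun w hw => ?_, fun w hw => ?_⟩
      · have h4 : (1 : Emb ι Y → K) * w * 1⁻¹ = w := by group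
        rw [h4]
        exact hw
      · have h4 : (1 : Emb ι Y → K)⁻¹ * w * 1 = w := by group
        rw [h4]
        exact hw
    | mul x y _ _ ihx ihy =>
      refine ⟨fun w hw => ?_, fun w hw => ?_⟩
      · have h4 : x * y * w * (x * y)⁻¹ = x * (y * w * y⁻¹) * x⁻¹ := by group
        rw [h4]
        exact ihx.1 _ (ihy.1 _ hw)
      · have h4 : (x * y)⁻¹ * w * (x * y) = y⁻¹ * (x⁻¹ * w * x) * y := by group
        rw [h4]
        exact ihy.2 _ (ihx.2 _ hw)
    | inv x _ ihx =>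
      refine ⟨fun w hw => ?_, fun w hw => ?_⟩
      · rw [inv_inv]
        exact ihx.2 _ hw
      · rw [inv_inv]
        exact ihx.1 _ hw
  exact key.1 w hw

private theorem ww_le_top_polyA2 {A : Subgroup K} {Z : Finset X} :
    WW B Y A Z ≤ WW B Y ⊤ (∅ : Finset X) :=
  (ww_mono_Z (Finset.empty_subset Z)).trans (ww_mono_A le_top ∅)

private theorem vv_le_ww_polyA2 {A : Subgroup K} (m : ℕ) {Z : Finset X} :
    VV B Y A m Z ≤ WW B Y A Z := by
  refine (Subgroup.closure_le _).2 ?_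
  rintro g ⟨U, ⟨-, hL⟩ | hL⟩
  · exact Subgroup.subset_closure ⟨U, hL⟩
  · exact Subgroup.subset_closure ⟨U, LF.mono_A (Subgroup.commutator_le_self A) hL⟩

private theorem ww_comm_polyA2 [DecidableEq ι] (hB : ∀ S T, ⁅B S, B T⁆ ≤ B (S ∪ T))
    {A : Subgroup K} (hA : A.Normal) {Z : Finset X} {v w : Emb ι Y → K}
    (hv : v ∈ WW B Y A Z) (hw : w ∈ WW B Y A Z) : ⁅v, w⁆ ∈ WW B Y ⁅A, A⁆ Z := by
  have hAA : (⁅A, A⁆ : Subgroup K).Normal := Subgroup.commutator_normal A A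
  induction hv using Subgroup.closure_induction with
  | mem v hv =>
    obtain ⟨U, hL⟩ := hv
    induction hw using Subgroup.closure_induction with
    | mem w hw =>
      obtain ⟨U', hL'⟩ := hw
      exact Subgroup.subset_closure ⟨_, LF.comm hB hL hL'⟩
    | one =>
      rw [commutatorElement_one_right]
      exact one_mem _
    | mul x y hx hy ihx ihy =>
      have h4 : ⁅v, x * y⁆ = ⁅v, x⁆ * (x * ⁅v, y⁆ * x⁻¹) := by
        simp only [commutatorElement_def]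
        group
      rw [h4]
      exact mul_mem ihx (conj_ww hB hAA (ww_le_top_polyA2 hx) ihy)
    | inv x hx ihx =>
      have hx' : x ∈ WW B Y A Z := hx
      have h4 : ⁅v, x⁻¹⁆ = x⁻¹ * ⁅v, x⁆⁻¹ * x⁻¹⁻¹ := by
        simp only [commutatorElement_def]
        group
      rw [h4]
      exact conj_ww hB hAA (ww_le_top_polyA2 (inv_mem hx')) (inv_mem ihx)
  | one =>
    rw [commutatorElement_one_left]
    exact one_mem _
  | mul x y hx hy ihx ihy =>
    have h4 : ⁅x * y, w⁆ = (x * ⁅y, w⁆ * x⁻¹) * ⁅x, w⁆ := by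
      simp only [commutatorElement_def]
      group
    rw [h4]
    exact mul_mem (conj_ww hB hAA (ww_le_top_polyA2 hx) ihy) ihx
  | inv x hx ihx =>
    have hx' : x ∈ WW B Y A Z := hx
    have h4 : ⁅x⁻¹, w⁆ = x⁻¹ * ⁅x, w⁆⁻¹ * x⁻¹⁻¹ := by
      simp only [commutatorElement_def]
      group
    rw [h4]
    exact conj_ww hB hAA (ww_le_top_polyA2 (inv_mem hx')) (inv_mem ihx)

/-- PROOF. `VV B Y A m Z ≤ WW B Y A Z ≤ WW B Y ⊤ ∅`. Fix a generator `g` of `VV`; the set of all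
`v ∈ VV` with `⁅g, v⁆ ∈ WW B Y ⁅A, A⁆ Z` is closed under products and inverses
(`⁅g, v w⁆ = ⁅g, v⁆ * (v * ⁅g, w⁆ * v⁻¹)`, `conj_ww` for the normal subgroup `⁅A, A⁆`) and contains the
generators (`LF.comm`). The same for the first argument. -/
theorem vv_comm [DecidableEq ι] (hB : ∀ S T, ⁅B S, B T⁆ ≤ B (S ∪ T)) {A : Subgroup K}
    (hA : A.Normal) (m : ℕ) (Z : Finset X) {v w : Emb ι Y → K} (hv : v ∈ VV B Y A m Z)
    (hw : w ∈ VV B Y A m Z) : ⁅v, w⁆ ∈ WW B Y ⁅A, A⁆ Z :=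
  ww_comm_polyA2 hB hA (vv_le_ww_polyA2 m hv) (vv_le_ww_polyA2 m hw)

end Inn

end MP799fdf
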