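import Pool.Agent.Lib.MP_799fdf_al.Inn.PolyA2

/-! # Substitution in local functions -/

set_option autoImplicit false

open scoped commutatorElement

namespace MP799fdf

namespace Inn

variable {K ι X : Type} [Group K] {B : Finset ι → Subgroup K} {Y Y' : Set X}

/-- The inclusion `Emb ι Y' → Emb ι Y`. -/
def incl (h : Y' ⊆ Y) (c : Emb ι Y') : Emb ι Y := ⟨c.1, c.2.1, fun i => h (c.2.2 i)⟩

/-- Replace the values of `c` on `T` by those of `z`. -/
def sub [DecidableEq ι] (h : Y' ⊆ Y) (T : Finset ι) (z : ι → X) (hz : Set.InjOn z T)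
    (hz' : ∀ t ∈ T, z t ∈ Y ∧ z t ∉ Y') (c : Emb ι Y') : Emb ι Y :=
  ⟨fun i => if i ∈ T then z i else c.1 i, by
    intro i j hij
    by_cases hi : i ∈ T <;> by_cases hj : j ∈ T <;> simp only [hi, hj, if_true, if_false] at hij
    · exact hz hi hj hij
    · exact absurd (hij ▸ c.2.2 j) (hz' i hi).2
    · exact absurd (hij ▸ c.2.2 i) (hz' j hj).2
    · exact c.2.1 hij, by
    intro i
    by_cases hi : i ∈ T
    · simp only [hi, if_true]
      exact (hz' i hi).1
    · simp only [hi, if_false]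
      exact h (c.2.2 i)⟩

variable [DecidableEq ι]

theorem sub_empty (h : Y' ⊆ Y) (z : ι → X) (hz : Set.InjOn z (∅ : Finset ι))
    (hz' : ∀ t ∈ (∅ : Finset ι), z t ∈ Y ∧ z t ∉ Y') (c : Emb ι Y') :
    sub h ∅ z hz hz' c = incl h c := by
  refine Subtype.ext (funext fun i => ?_)
  simp [Inn.sub, incl]

/-- PROOF. Antitone `B`; `c, c'` agree on `U \ T`, so `sub c, sub c'` agree on `U`; if `c` maps
`U \ T` into `Z` then `sub c` maps `U` into `Z⁺`. -/
theorem LF.sub [DecidableEq X] (hB : ∀ S T, S ⊆ T → B T ≤ B S) (h : Y' ⊆ Y) (T : Finset ι)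
    (z : ι → X) (hz : Set.InjOn z T) (hz' : ∀ t ∈ T, z t ∈ Y ∧ z t ∉ Y') {A : Subgroup K}
    {U : Finset ι} {Z Z' : Finset X} (hZ : Z ⊆ Z') (hzZ : ∀ t ∈ T, z t ∈ Z')
    {g : Emb ι Y → K} (hg : LF B A U Z' g) :
    LF B A (U \ T) Z (fun c => g (Inn.sub h T z hz hz' c)) := by
  have e : ∀ (c : Emb ι Y') (i : ι),
      (Inn.sub h T z hz hz' c).1 i = if i ∈ T then z i else c.1 i := fun _ _ => rfl
  refine ⟨fun c => hg.mem _, fun c => hB _ _ Finset.sdiff_subset (hg.memB _), ?_, ?_⟩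
  · intro c c' hcc
    refine hg.loc _ _ fun u hu => ?_
    rw [e, e]
    by_cases ht : u ∈ T
    · rw [if_pos ht, if_pos ht]
    · rw [if_neg ht, if_neg ht]
      exact hcc u (Finset.mem_sdiff.2 ⟨hu, ht⟩)
  · intro c hc
    refine hg.van _ fun u hu => ?_
    rw [e]
    by_cases ht : u ∈ T
    · rw [if_pos ht]
      exact hzZ u ht
    · rw [if_neg ht]
      exact hZ (hc u (Finset.mem_sdiff.2 ⟨hu, ht⟩))

/-- The same, as a `U`-local function. -/
theorem LF.sub' [DecidableEq X] (h : Y' ⊆ Y) (T : Finset ι)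
    (z : ι → X) (hz : Set.InjOn z T) (hz' : ∀ t ∈ T, z t ∈ Y ∧ z t ∉ Y') {A : Subgroup K}
    {U : Finset ι} {Z Z' : Finset X} (hZ : Z ⊆ Z') (hzZ : ∀ t ∈ T, z t ∈ Z')
    {g : Emb ι Y → K} (hg : LF B A U Z' g) :
    LF B A U Z (fun c => g (Inn.sub h T z hz hz' c)) := by
  have e : ∀ (c : Emb ι Y') (i : ι),
      (Inn.sub h T z hz hz' c).1 i = if i ∈ T then z i else c.1 i := fun _ _ => rfl
  refine ⟨fun c => hg.mem _, fun c => hg.memB _, ?_, ?_⟩
  · intro c c' hcc
    refine hg.loc _ _ fun u hu => ?_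
    rw [e, e]
    by_cases ht : u ∈ T
    · rw [if_pos ht, if_pos ht]
    · rw [if_neg ht, if_neg ht]
      exact hcc u hu
  · intro c hc
    refine hg.van _ fun u hu => ?_
    rw [e]
    by_cases ht : u ∈ T
    · rw [if_pos ht]
      exact hzZ u ht
    · rw [if_neg ht]
      exact hZ (hc u hu)

/-- PROOF. Closure induction, `LF.sub` with `|U \ T| ≤ |U| ≤ m`. -/
theorem vv_sub [DecidableEq X] (hB : ∀ S T, S ⊆ T → B T ≤ B S) (h : Y' ⊆ Y) (T : Finset ι)
    (z : ι → X) (hz : Set.InjOn z T) (hz' : ∀ t ∈ T, z t ∈ Y ∧ z t ∉ Y') {A : Subgroup K}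
    {m : ℕ} {Z Z' : Finset X} (hZ : Z ⊆ Z') (hzZ : ∀ t ∈ T, z t ∈ Z')
    {g : Emb ι Y → K} (hg : g ∈ VV B Y A m Z') :
    (fun c => g (Inn.sub h T z hz hz' c)) ∈ VV B Y' A m Z := by
  let φ : (Emb ι Y → K) →* (Emb ι Y' → K) :=
    { toFun := fun g c => g (Inn.sub h T z hz hz' c)
      map_one' := rfl
      map_mul' := fun _ _ => rfl }
  have key : VV B Y A m Z' ≤ (VV B Y' A m Z).comap φ := by
    refine (Subgroup.closure_le _).2 ?_
    rintro g ⟨U, ⟨hU, hg⟩ | hg⟩
    · exact Subgroup.subset_closure ⟨U \ T, Or.inl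
        ⟨(Finset.card_le_card Finset.sdiff_subset).trans hU, LF.sub hB h T z hz hz' hZ hzZ hg⟩⟩
    · exact Subgroup.subset_closure ⟨U \ T, Or.inr (LF.sub hB h T z hz hz' hZ hzZ hg)⟩
  exact key hg

/-- PROOF. Closure induction; the restriction of a local function is local. -/
theorem vv_incl (h : Y' ⊆ Y) {A : Subgroup K} {m : ℕ} {Z Z' : Finset X} (hZ : Z ⊆ Z')
    {g : Emb ι Y → K} (hg : g ∈ VV B Y A m Z') :
    (fun c => g (incl h c)) ∈ VV B Y' A m Z := by
  let φ : (Emb ι Y → K) →* (Emb ι Y' → K) :=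
    { toFun := fun g c => g (incl h c)
      map_one' := rfl
      map_mul' := fun _ _ => rfl }
  have key : VV B Y A m Z' ≤ (VV B Y' A m Z).comap φ := by
    refine (Subgroup.closure_le _).2 ?_
    rintro g ⟨U, ⟨hU, hg⟩ | hg⟩
    · exact Subgroup.subset_closure ⟨U, Or.inl ⟨hU, fun c => hg.mem _, fun c => hg.memB _,
        fun c c' hcc => hg.loc _ _ hcc, fun c hc => hg.van _ fun u hu => hZ (hc u hu)⟩⟩
    · exact Subgroup.subset_closure ⟨U, Or.inr ⟨fun c => hg.mem _, fun c => hg.memB _,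
        fun c c' hcc => hg.loc _ _ hcc, fun c hc => hg.van _ fun u hu => hZ (hc u hu)⟩⟩
  exact key hg

/-- PROOF. Closure induction; the restriction of a local function is local. -/
theorem ww_incl (h : Y' ⊆ Y) {A : Subgroup K} {Z Z' : Finset X} (hZ : Z ⊆ Z')
    {g : Emb ι Y → K} (hg : g ∈ WW B Y A Z') :
    (fun c => g (incl h c)) ∈ WW B Y' A Z := by
  let φ : (Emb ι Y → K) →* (Emb ι Y' → K) :=
    { toFun := fun g c => g (incl h c)
      map_one' := rfl
      map_mul' := fun _ _ => rfl }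
  have key : WW B Y A Z' ≤ (WW B Y' A Z).comap φ := by
    refine (Subgroup.closure_le _).2 ?_
    rintro g ⟨U, hg⟩
    exact Subgroup.subset_closure ⟨U, fun c => hg.mem _, fun c => hg.memB _,
      fun c c' hcc => hg.loc _ _ hcc, fun c hc => hg.van _ fun u hu => hZ (hc u hu)⟩
  exact key hg

/-- A product over the subsets of `U` with alternating exponents is trivial if the factor does not
depend on one element `u ∈ U`.

PROOF. `Finset.prod_involution` with `T ↦ symmDiff T {u}`, or `U = insert u U'` and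
`Finset.prod_powerset_insert`. -/
theorem alt_prod {Q : Type} [CommGroup Q] (U : Finset ι) (u : ι) (hu : u ∈ U)
    (f : Finset ι → Q) (hf : ∀ T ⊆ U, u ∉ T → f (insert u T) = f T) :
    ∏ T ∈ U.powerset, f T ^ ((-1 : ℤ) ^ T.card) = 1 := by
  obtain ⟨V, huV, rfl⟩ : ∃ V : Finset ι, u ∉ V ∧ insert u V = U :=
    ⟨U.erase u, Finset.notMem_erase u U, Finset.insert_erase hu⟩
  rw [Finset.prod_powerset_insert huV, ← Finset.prod_mul_distrib]
  refine Finset.prod_eq_one fun T hT => ?_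
  have hTV : T ⊆ V := Finset.mem_powerset.1 hT
  have huT : u ∉ T := fun h => huV (hTV h)
  rw [hf T (hTV.trans (Finset.subset_insert _ _)) huT, Finset.card_insert_of_notMem huT,
    pow_succ, mul_neg_one, zpow_neg, mul_inv_cancel]

end Inn

end MP799fdf
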