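import Pool.Agent.Lib.MP_799fdf_al.Inn.PolyB

/-! # Differences -/

set_option autoImplicit false

open scoped commutatorElement

namespace MP799fdf

namespace Inn

variable {K ι X : Type} [Group K] [DecidableEq ι] [DecidableEq X] {B : Finset ι → Subgroup K}
  {Y Y' : Set X}

/-- The group of `U`-local functions. -/
def LFs (B : Finset ι → Subgroup K) (Y : Set X) (A : Subgroup K) (U : Finset ι) (Z : Finset X) :
    Subgroup (Emb ι Y → K) where
  carrier := {g | LF B A U Z g}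
  one_mem' := LF.one A U Z
  mul_mem' := fun h h' => h.mul h'
  inv_mem' := fun h => h.inv

/-- Substitution as a homomorphism. -/
def subHom (hB : ∀ S T, S ⊆ T → B T ≤ B S) (h : Y' ⊆ Y) (T : Finset ι)
    (z : ι → X) (hz : Set.InjOn z T) (hz' : ∀ t ∈ T, z t ∈ Y ∧ z t ∉ Y') (A : Subgroup K)
    (m : ℕ) {Z Z' : Finset X} (hZ : Z ⊆ Z') (hzZ : ∀ t ∈ T, z t ∈ Z') :
    ↥(VV B Y A m Z') →* ↥(VV B Y' A m Z) where
  toFun v := ⟨fun c => v.1 (sub h T z hz hz' c), vv_sub hB h T z hz hz' hZ hzZ v.2⟩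
  map_one' := rfl
  map_mul' _ _ := rfl

/-- The `U`-difference with respect to `z`, in the abelianisation. -/
noncomputable def DU (hB : ∀ S T, S ⊆ T → B T ≤ B S) (h : Y' ⊆ Y) (E : Finset X)
    (hE : ∀ x ∈ E, x ∈ Y ∧ x ∉ Y') (U : Finset ι) (z : ι → X) (hz : Set.InjOn z U)
    (hzE : ∀ u ∈ U, z u ∈ E) (A : Subgroup K) (m : ℕ) (Z : Finset X) :
    ↥(VV B Y A m (Z ∪ E)) →* Abelianization ↥(VV B Y' A m Z) :=
  ∏ T ∈ U.powerset, (Abelianization.of.comp (subHom hB h (T ∩ U) z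
    (hz.mono (by exact_mod_cast Finset.inter_subset_right))
    (fun t ht => hE _ (hzE t (Finset.mem_inter.1 ht).2)) A m Finset.subset_union_left
    (fun t ht => Finset.mem_union_right _ (hzE t (Finset.mem_inter.1 ht).2)))) ^
      ((-1 : ℤ) ^ T.card)

theorem DU_apply' (hB : ∀ S T, S ⊆ T → B T ≤ B S) (h : Y' ⊆ Y) (E : Finset X)
    (hE : ∀ x ∈ E, x ∈ Y ∧ x ∉ Y') (U : Finset ι) (z : ι → X) (hz : Set.InjOn z U)
    (hzE : ∀ u ∈ U, z u ∈ E) (A : Subgroup K) (m : ℕ) (Z : Finset X)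
    (g : ↥(VV B Y A m (Z ∪ E))) :
    DU hB h E hE U z hz hzE A m Z g =
      ∏ T ∈ U.powerset, (Abelianization.of (subHom hB h (T ∩ U) z
        (hz.mono (by exact_mod_cast Finset.inter_subset_right))
        (fun t ht => hE _ (hzE t (Finset.mem_inter.1 ht).2)) A m Finset.subset_union_left
        (fun t ht => Finset.mem_union_right _ (hzE t (Finset.mem_inter.1 ht).2)) g)) ^
          ((-1 : ℤ) ^ T.card) := by
  unfold DU
  rw [MonoidHom.finsetProd_apply]
  rfl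

/-- PROOF. `alt_prod` for `u ∈ U \ U'`: `sub (T ∩ U)` and `sub (insert u T ∩ U)` agree on `U'`, so `g`
has the same value there (`LF.loc`). -/
theorem DU_of_not_subset (hB : ∀ S T, S ⊆ T → B T ≤ B S) (h : Y' ⊆ Y) (E : Finset X)
    (hE : ∀ x ∈ E, x ∈ Y ∧ x ∉ Y') (U : Finset ι) (z : ι → X) (hz : Set.InjOn z U)
    (hzE : ∀ u ∈ U, z u ∈ E) (A A' : Subgroup K) (m : ℕ) (Z : Finset X) (U' : Finset ι)
    (hU : ¬ U ⊆ U') (g : ↥(VV B Y A m (Z ∪ E))) (hg : LF B A' U' (Z ∪ E) g.1) :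
    DU hB h E hE U z hz hzE A m Z g = 1 := by
  classical
  obtain ⟨u, hu, hu'⟩ := Finset.not_subset.1 hU
  rw [DU_apply']
  refine alt_prod U u hu _ fun T _ huT => ?_
  refine congrArg Abelianization.of (Subtype.ext (funext fun c => ?_))
  refine hg.loc _ _ fun v hv => ?_
  have hvu : v ≠ u := by
    rintro rfl
    exact hu' hv
  have e : v ∈ insert u T ∩ U ↔ v ∈ T ∩ U := by
    rw [Finset.mem_inter, Finset.mem_inter, Finset.mem_insert]
    constructor
    · rintro ⟨h1 | h1, h2⟩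
      · exact absurd h1 hvu
      · exact ⟨h1, h2⟩
    · rintro ⟨h1, h2⟩
      exact ⟨Or.inr h1, h2⟩
  by_cases hm : v ∈ T ∩ U
  · exact (if_pos (e.2 hm)).trans (if_pos hm).symm
  · exact (if_neg fun h' => hm (e.1 h')).trans (if_neg hm).symm

/-- PROOF. Closure induction in `g` (`Subgroup.closure_induction` with a dependent motive, or the
preimage subgroup). Generators: `LF B ⁅A, A⁆ U' (Z ∪ E) g`: every factor is the class of a local
function in `WW B Y' ⁅A, A⁆ Z` (`LF.sub`). `LF B A U' (Z ∪ E) g`, `|U'| ≤ m = |U|`: if `¬ U ⊆ U'` use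
`DU_of_not_subset`, otherwise `U' = U` (`Finset.eq_of_subset_of_card_le`) and every factor is the
class of a `U`-local function (`LF.sub'`). -/
theorem DU_mem (hB : ∀ S T, S ⊆ T → B T ≤ B S) (h : Y' ⊆ Y) (E : Finset X)
    (hE : ∀ x ∈ E, x ∈ Y ∧ x ∉ Y') (U : Finset ι) (z : ι → X) (hz : Set.InjOn z U)
    (hzE : ∀ u ∈ U, z u ∈ E) (A : Subgroup K) (m : ℕ) (hU : U.card = m) (Z : Finset X)
    (g : ↥(VV B Y A m (Z ∪ E))) :
    DU hB h E hE U z hz hzE A m Z g ∈
      ((LFs B Y' A U Z ⊔ WW B Y' ⁅A, A⁆ Z).subgroupOf (VV B Y' A m Z)).map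
        (Abelianization.of (G := ↥(VV B Y' A m Z))) := by
  classical
  refine Subgroup.closure_induction (p := fun x hx => DU hB h E hE U z hz hzE A m Z ⟨x, hx⟩ ∈
    ((LFs B Y' A U Z ⊔ WW B Y' ⁅A, A⁆ Z).subgroupOf (VV B Y' A m Z)).map
        (Abelianization.of (G := ↥(VV B Y' A m Z)))) ?_ ?_ ?_ ?_ g.2
  · intro x hx
    obtain ⟨U', hU'⟩ := hx
    have key : (∀ T : Finset ι, ∀ (h1 : Set.InjOn z (T ∩ U : Finset ι))
        (h2 : ∀ t ∈ T ∩ U, z t ∈ Y ∧ z t ∉ Y'),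
        (fun c => x (Inn.sub h (T ∩ U) z h1 h2 c)) ∈ LFs B Y' A U Z ⊔ WW B Y' ⁅A, A⁆ Z) →
        ∀ hx, DU hB h E hE U z hz hzE A m Z ⟨x, hx⟩ ∈
        ((LFs B Y' A U Z ⊔ WW B Y' ⁅A, A⁆ Z).subgroupOf (VV B Y' A m Z)).map
          (Abelianization.of (G := ↥(VV B Y' A m Z))) := by
      intro hk hx
      rw [DU_apply']
      refine Subgroup.prod_mem _ fun T _ => Subgroup.zpow_mem _ ?_ _
      exact Subgroup.mem_map_of_mem _ (Subgroup.mem_subgroupOf.2 (hk T _ _))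
    rcases hU' with ⟨hc, hg⟩ | hg
    · by_cases hUU : U ⊆ U'
      · have e : U = U' := Finset.eq_of_subset_of_card_le hUU (by rw [hU]; exact hc)
        subst e
        refine key (fun T h1 h2 => ?_) _
        refine Subgroup.mem_sup_left ?_
        exact LF.sub' h (T ∩ U) z h1 h2 Finset.subset_union_left
          (fun t ht => Finset.mem_union_right _ (hzE t (Finset.mem_inter.1 ht).2)) hg
      · rw [DU_of_not_subset hB h E hE U z hz hzE A A m Z U' hUU _ hg]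
        exact Subgroup.one_mem _
    · refine key (fun T h1 h2 => ?_) _
      refine Subgroup.mem_sup_right (Subgroup.subset_closure ⟨U' \ (T ∩ U), ?_⟩)
      exact LF.sub hB h (T ∩ U) z h1 h2 Finset.subset_union_left
        (fun t ht => Finset.mem_union_right _ (hzE t (Finset.mem_inter.1 ht).2)) hg
  · have e := map_one (DU hB h E hE U z hz hzE A m Z)
    have e' : DU hB h E hE U z hz hzE A m Z ⟨1, Subgroup.one_mem _⟩ = 1 := e
    rw [e']
    exact Subgroup.one_mem _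
  · intro x y hx hy h1 h2
    have e := map_mul (DU hB h E hE U z hz hzE A m Z) ⟨x, hx⟩ ⟨y, hy⟩
    have e' : DU hB h E hE U z hz hzE A m Z ⟨x * y, Subgroup.mul_mem _ hx hy⟩ = _ := e
    rw [e']
    exact Subgroup.mul_mem _ h1 h2
  · intro x hx h1
    have e := map_inv (DU hB h E hE U z hz hzE A m Z) ⟨x, hx⟩
    have e' : DU hB h E hE U z hz hzE A m Z ⟨x⁻¹, Subgroup.inv_mem _ hx⟩ = _ := e
    rw [e']
    exact Subgroup.inv_mem _ h1


end Inn

end MP799fdf
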