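import Pool.Agent.Lib.MP_799fdf_al.Inn.PolyC

/-! # Functions as products of differences -/

set_option autoImplicit false

open scoped commutatorElement

namespace MP799fdf

namespace Inn

variable {K ι X : Type} [Group K] [DecidableEq ι] [DecidableEq X] {B : Finset ι → Subgroup K}
  {Y Y' : Set X}

/-- Restriction as a homomorphism. -/
def inclHom (h : Y' ⊆ Y) (A : Subgroup K) (m : ℕ) {Z Z' : Finset X} (hZ : Z ⊆ Z') :
    ↥(VV B Y A m Z') →* ↥(VV B Y' A m Z) where
  toFun v := ⟨fun c => v.1 (incl h c), vv_incl h hZ v.2⟩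
  map_one' := rfl
  map_mul' _ _ := rfl

omit [DecidableEq ι] [DecidableEq X] in
private theorem polyC2_lf_incl (h : Y' ⊆ Y) {A : Subgroup K} {U : Finset ι} {Z Z' : Finset X}
    (hZ : Z ⊆ Z') {g : Emb ι Y → K} (hg : LF B A U Z' g) :
    LF B A U Z (fun c : Emb ι Y' => g (incl h c)) :=
  ⟨fun _ => hg.mem _, fun _ => hg.memB _, fun _ _ hc => hg.loc _ _ hc,
    fun _ hc => hg.van _ (fun u hu => hZ (hc u hu))⟩

private theorem polyC2_DU_apply (hB : ∀ S T, S ⊆ T → B T ≤ B S) (h : Y' ⊆ Y) (E : Finset X)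
    (hE : ∀ x ∈ E, x ∈ Y ∧ x ∉ Y') (U : Finset ι) (z : ι → X) (hz : Set.InjOn z U)
    (hzE : ∀ u ∈ U, z u ∈ E) (A : Subgroup K) (m : ℕ) (Z : Finset X)
    (g : ↥(VV B Y A m (Z ∪ E))) :
    DU hB h E hE U z hz hzE A m Z g =
      ∏ T ∈ U.powerset, (Abelianization.of (subHom hB h (T ∩ U) z
        (hz.mono (by exact_mod_cast Finset.inter_subset_right))
        (fun t ht => hE _ (hzE t (Finset.mem_inter.1 ht).2)) A m Finset.subset_union_left
        (fun t ht => Finset.mem_union_right _ (hzE t (Finset.mem_inter.1 ht).2)) g)) ^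
          ((-1 : ℤ) ^ T.card) := by
  unfold DU
  rw [MonoidHom.finsetProd_apply]
  rfl

/-- Modulo functions of lower degree, `g` is the product of its differences.

PROOF. Closure induction in `g` (both sides are homomorphisms). Generators: if
`LF B ⁅A, A⁆ U' (Z ∪ E) g`: `g ∘ incl` and all factors of the `DU` are in `WW B Y' ⁅A, A⁆ Z`
(`LF.sub`), which is `≤ VV B Y' A (m - 1) Z` (`ww_le_vv`). If `LF B A U' (Z ∪ E) g`, `|U'| < m`: all
`DU` are trivial (`DU_of_not_subset`), and `g ∘ incl` is in `VV B Y' A (m - 1) Z`. If `|U'| = m`: the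
`DU` with `U ≠ U'` are trivial, and in `DU` for `U = U'` the factor `T = ∅` is the class of
`g ∘ incl` (`sub_empty`), while the other factors are classes of `U' \ T`-local functions with
`|U' \ T| ≤ m - 1` (`LF.sub`). -/
theorem DU_prod [Fintype ι] (hB : ∀ S T, S ⊆ T → B T ≤ B S) (h : Y' ⊆ Y) (E : Finset X)
    (hE : ∀ x ∈ E, x ∈ Y ∧ x ∉ Y') (A : Subgroup K) (m : ℕ) (hm : 0 < m)
    (z : {U : Finset ι // U.card = m} → ι → X)
    (hz : ∀ U : {U : Finset ι // U.card = m}, Set.InjOn (z U) U.1)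
    (hzE : ∀ U : {U : Finset ι // U.card = m}, ∀ u ∈ U.1, z U u ∈ E) (Z : Finset X)
    (g : ↥(VV B Y A m (Z ∪ E))) :
    Abelianization.of (inclHom h A m Finset.subset_union_left g) *
      (∏ U : {U : Finset ι // U.card = m}, DU hB h E hE U.1 (z U) (hz U) (hzE U) A m Z g)⁻¹ ∈
      ((VV B Y' A (m - 1) Z).subgroupOf (VV B Y' A m Z)).map
        (Abelianization.of (G := ↥(VV B Y' A m Z))) := by
  classical
  set M := ((VV B Y' A (m - 1) Z).subgroupOf (VV B Y' A m Z)).map
    (Abelianization.of (G := ↥(VV B Y' A m Z))) with hM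
  have key : ∀ x : ↥(VV B Y' A m Z), x.1 ∈ VV B Y' A (m - 1) Z → Abelianization.of x ∈ M :=
    fun x hx => Subgroup.mem_map_of_mem _ (Subgroup.mem_subgroupOf.2 hx)
  let Φ : ↥(VV B Y A m (Z ∪ E)) →* Abelianization ↥(VV B Y' A m Z) :=
    (Abelianization.of.comp (inclHom h A m Finset.subset_union_left)) *
      (∏ U : {U : Finset ι // U.card = m}, DU hB h E hE U.1 (z U) (hz U) (hzE U) A m Z)⁻¹
  have hΦ : ∀ g, Φ g = Abelianization.of (inclHom h A m Finset.subset_union_left g) *
      (∏ U : {U : Finset ι // U.card = m}, DU hB h E hE U.1 (z U) (hz U) (hzE U) A m Z g)⁻¹ := by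
    intro g
    change Abelianization.of (inclHom h A m Finset.subset_union_left g) *
      ((∏ U : {U : Finset ι // U.card = m}, DU hB h E hE U.1 (z U) (hz U) (hzE U) A m Z) g)⁻¹ = _
    rw [MonoidHom.finsetProd_apply]
  -- a factor with a function of lower degree
  have fac : ∀ (g : ↥(VV B Y A m (Z ∪ E))) (U' T : Finset ι) (w : ι → X) (hw : Set.InjOn w T)
      (hw' : ∀ t ∈ T, w t ∈ Y ∧ w t ∉ Y') (hwZ : ∀ t ∈ T, w t ∈ Z ∪ E),
      ((U' \ T).card ≤ m - 1 ∧ LF B A U' (Z ∪ E) g.1) ∨ LF B ⁅A, A⁆ U' (Z ∪ E) g.1 →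
      Abelianization.of (subHom hB h T w hw hw' A m Finset.subset_union_left hwZ g) ∈ M := by
    intro g U' T w hw hw' hwZ hg
    refine key _ (Subgroup.subset_closure ⟨U' \ T, ?_⟩)
    rcases hg with ⟨hc, hg⟩ | hg
    · exact Or.inl ⟨hc, hg.sub hB h T w hw hw' Finset.subset_union_left hwZ⟩
    · exact Or.inr (hg.sub hB h T w hw hw' Finset.subset_union_left hwZ)
  have gen : ∀ (g : ↥(VV B Y A m (Z ∪ E))) (U' : Finset ι),
      ((U'.card ≤ m ∧ LF B A U' (Z ∪ E) g.1) ∨ LF B ⁅A, A⁆ U' (Z ∪ E) g.1) → Φ g ∈ M := by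
    intro g U' hg
    rw [hΦ]
    rcases hg with ⟨hc, hg⟩ | hg
    · rcases Nat.lt_or_ge U'.card m with hlt | hge
      · -- all differences are trivial
        have h1 : ∏ U : {U : Finset ι // U.card = m},
            DU hB h E hE U.1 (z U) (hz U) (hzE U) A m Z g = 1 := by
          refine Finset.prod_eq_one fun U _ => ?_
          refine DU_of_not_subset hB h E hE U.1 (z U) (hz U) (hzE U) A A m Z U' ?_ g hg
          intro hU
          have := Finset.card_le_card hU
          have := U.2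
          omega
        rw [h1, inv_one, mul_one]
        exact key _ (Subgroup.subset_closure ⟨U', Or.inl ⟨by omega,
          polyC2_lf_incl h Finset.subset_union_left hg⟩⟩)
      · have hcard : U'.card = m := le_antisymm hc hge
        have h1 : ∏ U : {U : Finset ι // U.card = m},
            DU hB h E hE U.1 (z U) (hz U) (hzE U) A m Z g =
            DU hB h E hE U' (z ⟨U', hcard⟩) (hz ⟨U', hcard⟩) (hzE ⟨U', hcard⟩) A m Z g := by
          refine Finset.prod_eq_single (⟨U', hcard⟩ : {U : Finset ι // U.card = m})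
            (fun U _ hU => ?_) (fun hn => absurd (Finset.mem_univ _) hn)
          refine DU_of_not_subset hB h E hE U.1 (z U) (hz U) (hzE U) A A m Z U' ?_ g hg
          intro hsub
          apply hU
          apply Subtype.ext
          exact Finset.eq_of_subset_of_card_le hsub (by rw [U.2, hcard])
        rw [h1, polyC2_DU_apply]
        rw [← Finset.mul_prod_erase U'.powerset _ (Finset.empty_mem_powerset U')]
        have h2 : inclHom h A m (Finset.subset_union_left (s₂ := E)) g =
            subHom hB h (∅ ∩ U') (z ⟨U', hcard⟩)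
            ((hz ⟨U', hcard⟩).mono (by exact_mod_cast Finset.inter_subset_right))
            (fun t ht => hE _ (hzE ⟨U', hcard⟩ t (Finset.mem_inter.1 ht).2)) A m
            Finset.subset_union_left
            (fun t ht => Finset.mem_union_right _ (hzE ⟨U', hcard⟩ t (Finset.mem_inter.1 ht).2))
              g := by
          apply Subtype.ext
          funext c
          change g.1 (incl h c) = g.1 (sub h (∅ ∩ U') (z ⟨U', hcard⟩) _ _ c)
          exact congrArg g.1 (Subtype.ext (funext fun i => by simp [incl, sub]))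
        rw [Finset.card_empty, pow_zero, zpow_one, ← h2, mul_inv, mul_inv_cancel_left]
        refine M.inv_mem (M.prod_mem fun T hT => M.zpow_mem (fac g U' _ _ _ _ _ ?_) _)
        refine Or.inl ⟨?_, hg⟩
        obtain ⟨hT0, hTU⟩ := Finset.mem_erase.1 hT
        rw [Finset.mem_powerset] at hTU
        rw [Finset.inter_eq_left.2 hTU, Finset.card_sdiff_of_subset hTU, hcard]
        have := Finset.card_pos.2 (Finset.nonempty_iff_ne_empty.2 hT0)
        omega
    · refine M.mul_mem (key _ (Subgroup.subset_closure ⟨U', Or.inr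
        (polyC2_lf_incl h Finset.subset_union_left hg)⟩)) (M.inv_mem (M.prod_mem fun U _ => ?_))
      rw [polyC2_DU_apply]
      exact M.prod_mem fun T _ => M.zpow_mem (fac g U' _ _ _ _ _ (Or.inr hg)) _
  have hle : VV B Y A m (Z ∪ E) ≤ (M.comap Φ).map (VV B Y A m (Z ∪ E)).subtype := by
    intro g0 hg0
    refine Subgroup.closure_induction (p := fun x _ => x ∈ (M.comap Φ).map
      (VV B Y A m (Z ∪ E)).subtype) ?_ (Subgroup.one_mem _)
      (fun _ _ _ _ hx hy => Subgroup.mul_mem _ hx hy) (fun _ _ hx => Subgroup.inv_mem _ hx) hg0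
    rintro g1 ⟨U', hU'⟩
    exact ⟨⟨g1, Subgroup.subset_closure ⟨U', hU'⟩⟩, gen _ U' hU', rfl⟩
  obtain ⟨g', hg', hgg⟩ := hle g.2
  have hgg' : g' = g := Subtype.ext hgg
  have h3 : Φ g' ∈ M := hg'
  rw [hgg', hΦ] at h3
  exact h3

end Inn

end MP799fdf
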