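import Pool.Agent.Lib.MP_799fdf_al.Inn.PolyC2

/-! # The elimination step -/

set_option autoImplicit false

open scoped commutatorElement

namespace MP799fdf

namespace Inn

variable {K ι X : Type} [Group K] [DecidableEq ι] [DecidableEq X] {B : Finset ι → Subgroup K}
  {Y Y' : Set X}

/-- Evaluation modulo commutators. -/
def evA (Y : Set X) (A : Subgroup K) (m : ℕ) (Z : Finset X) (c : Emb ι Y) :
    ↥(VV B Y A m Z) →* Abelianization ↥A :=
  Abelianization.of.comp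
    (((Pi.evalMonoidHom (fun _ : Emb ι Y => K) c).comp (VV B Y A m Z).subtype).codRestrict A
      (fun v => vv_mem v.2 c))

/-- PROOF. `Abelianization.of ⟨x, _⟩ = 1` iff `⟨x, _⟩ ∈ commutator A`, and
`(commutator A).map A.subtype = ⁅A, A⁆` (`Subgroup.map_subtype_commutator`). -/
theorem of_eq_one_iff (A : Subgroup K) (x : ↥A) :
    Abelianization.of x = 1 ↔ (x : K) ∈ ⁅A, A⁆ := by
  rw [← Subgroup.map_subtype_commutator A]
  have h1 : Abelianization.of x = 1 ↔ x ∈ commutator ↥A := QuotientGroup.eq_one_iff x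
  rw [h1]
  constructor
  · intro h
    exact ⟨x, h, rfl⟩
  · rintro ⟨y, hy, hyx⟩
    have : y = x := Subtype.ext hyx
    exact this ▸ hy

private theorem evA_eq_one_iff_polyD (Y : Set X) (A : Subgroup K) (m : ℕ) (Z : Finset X)
    (c : Emb ι Y) (v : ↥(VV B Y A m Z)) : evA Y A m Z c v = 1 ↔ v.1 c ∈ ⁅A, A⁆ :=
  of_eq_one_iff A ⟨v.1 c, vv_mem v.2 c⟩

/-- PROOF. Closure induction. -/
theorem evA_ww (Y : Set X) (A : Subgroup K) (m : ℕ) (Z : Finset X) (c : Emb ι Y)
    (v : ↥(VV B Y A m Z)) (hv : v.1 ∈ WW B Y ⁅A, A⁆ Z) : evA Y A m Z c v = 1 :=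
  (evA_eq_one_iff_polyD Y A m Z c v).2 (ww_mem hv c)

private theorem evA_congr_polyD (Y : Set X) (A : Subgroup K) (m : ℕ) (Z : Finset X)
    (c c' : Emb ι Y) (v : ↥(VV B Y A m Z)) (h : v.1 c = v.1 c') :
    evA Y A m Z c v = evA Y A m Z c' v := by
  have h1 : (⟨v.1 c, vv_mem v.2 c⟩ : ↥A) = ⟨v.1 c', vv_mem v.2 c'⟩ := Subtype.ext h
  exact congrArg Abelianization.of h1

/-- If `γ` has degree `≤ m = |U|` and vanishes on a set that contains `c u`, `z u` for `u ∈ U`, then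
the `U`-difference of `γ` at `c` is trivial modulo commutators.

PROOF. The left side is a homomorphism in `γ ∈ VV B Y A m Z₂`; closure induction. Generators: values in
`⁅A, A⁆`: all factors are `1` (`of_eq_one_iff`). `LF B A U' Z₂ γ`, `|U'| ≤ m`: if `¬ U ⊆ U'` use
`alt_prod` with `u ∈ U \ U'`; if `U' = U` then every `sub (T ∩ U) c` maps `U` into `Z₂`, so all
factors are `1` (`LF.van`). -/
theorem diff_eq_one (h : Y' ⊆ Y) (E : Finset X)
    (hE : ∀ x ∈ E, x ∈ Y ∧ x ∉ Y') (U : Finset ι) (z : ι → X) (hz : Set.InjOn z U)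
    (hzE : ∀ u ∈ U, z u ∈ E) (A : Subgroup K) (m : ℕ) (hU : U.card = m) (c : Emb ι Y')
    (Z₂ : Finset X) (h1 : ∀ u ∈ U, c.1 u ∈ Z₂) (h2 : ∀ u ∈ U, z u ∈ Z₂)
    (γ : ↥(VV B Y A m Z₂)) :
    ∏ T ∈ U.powerset, (evA Y A m Z₂ (sub h (T ∩ U) z
      (hz.mono (by exact_mod_cast Finset.inter_subset_right))
      (fun t ht => hE _ (hzE t (Finset.mem_inter.1 ht).2)) c) γ) ^ ((-1 : ℤ) ^ T.card) = 1 := by
  obtain ⟨g, hg⟩ := γ
  induction hg using Subgroup.closure_induction with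
  | mem g hg =>
    obtain ⟨U', hL⟩ := hg
    have hmem : g ∈ VV B Y A m Z₂ := Subgroup.subset_closure ⟨U', hL⟩
    rcases hL with ⟨hc, hL⟩ | hL
    · by_cases hUU : U ⊆ U'
      · have hU' : U = U' := Finset.eq_of_subset_of_card_le hUU (by omega)
        subst hU'
        refine Finset.prod_eq_one fun T _ => ?_
        rw [(evA_eq_one_iff_polyD Y A m Z₂ _ ⟨g, hmem⟩).2 ?_, one_zpow]
        change g _ ∈ ⁅A, A⁆
        rw [hL.van]
        · exact one_mem _
        · intro u hu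
          change (if u ∈ T ∩ U then z u else c.1 u) ∈ Z₂
          split_ifs
          · exact h2 u hu
          · exact h1 u hu
      · obtain ⟨u, hu, hu'⟩ := Finset.not_subset.1 hUU
        refine alt_prod U u hu (fun T => evA Y A m Z₂ (sub h (T ∩ U) z
          (hz.mono (by exact_mod_cast Finset.inter_subset_right))
          (fun t ht => hE _ (hzE t (Finset.mem_inter.1 ht).2)) c) ⟨g, hmem⟩) ?_
        intro T _ _
        refine evA_congr_polyD Y A m Z₂ _ _ ⟨g, hmem⟩ ?_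
        refine hL.loc _ _ fun w hw => ?_
        have hwu : w ≠ u := fun h => hu' (h ▸ hw)
        have hiff : (w ∈ insert u T ∩ U) ↔ (w ∈ T ∩ U) := by
          simp [Finset.mem_inter, Finset.mem_insert, hwu]
        change (if w ∈ insert u T ∩ U then z w else c.1 w) = if w ∈ T ∩ U then z w else c.1 w
        by_cases hwT : w ∈ T ∩ U
        · rw [if_pos hwT, if_pos (hiff.2 hwT)]
        · rw [if_neg hwT, if_neg (fun h => hwT (hiff.1 h))]
    · refine Finset.prod_eq_one fun T _ => ?_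
      rw [(evA_eq_one_iff_polyD Y A m Z₂ _ ⟨g, hmem⟩).2 (hL.mem _), one_zpow]
  | one =>
    refine Finset.prod_eq_one fun T _ => ?_
    have h0 : (⟨1, one_mem _⟩ : ↥(VV B Y A m Z₂)) = 1 := rfl
    rw [h0, map_one, one_zpow]
  | mul v w hv hw ihv ihw =>
    have hv' : v ∈ VV B Y A m Z₂ := hv
    have hw' : w ∈ VV B Y A m Z₂ := hw
    have h0 : (⟨v * w, mul_mem hv' hw'⟩ : ↥(VV B Y A m Z₂)) = ⟨v, hv'⟩ * ⟨w, hw'⟩ := rfl
    rw [h0]
    simp only [map_mul, mul_zpow]
    rw [Finset.prod_mul_distrib, ihv, ihw, one_mul]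
  | inv v hv ihv =>
    have hv' : v ∈ VV B Y A m Z₂ := hv
    have h0 : (⟨v⁻¹, inv_mem hv'⟩ : ↥(VV B Y A m Z₂)) = (⟨v, hv'⟩)⁻¹ := rfl
    rw [h0]
    simp only [map_inv, inv_zpow]
    rw [Finset.prod_inv_distrib, ihv, inv_one]


end Inn

end MP799fdf
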