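import Pool.Agent.Lib.MP_799fdf_al.Inn.PolyD

/-! # The elimination step -/

set_option autoImplicit false

open scoped commutatorElement

namespace MP799fdf

namespace Inn

variable {K ι X : Type} [Group K] [DecidableEq ι] [DecidableEq X] {B : Finset ι → Subgroup K}
  {Y Y' : Set X}

omit [DecidableEq ι] [DecidableEq X] in
theorem step_lf_ww {Y' : Set X} (A : Subgroup K) (U : Finset ι) (Z : Finset X)
    {a : Emb ι Y' → K} (ha : LF B A U Z a) : a ∈ WW B Y' ⊤ (∅ : Finset X) :=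
  Subgroup.subset_closure ⟨U, (ha.mono_A le_top).mono_Z (Finset.empty_subset Z)⟩

/-- products of local functions of one degree and of elements of `WW` -/
def stepProd (hBc : ∀ S T, ⁅B S, B T⁆ ≤ B (S ∪ T)) (Y' : Set X) (A : Subgroup K)
    (hA : A.Normal) (U : Finset ι) (Z : Finset X) : Subgroup (Emb ι Y' → K) where
  carrier := {x | ∃ a w, LF B A U Z a ∧ w ∈ WW B Y' ⁅A, A⁆ Z ∧ x = a * w}
  one_mem' := ⟨1, 1, LF.one A U Z, Subgroup.one_mem _, (mul_one 1).symm⟩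
  mul_mem' := by
    rintro x y ⟨a, w, ha, hw, rfl⟩ ⟨b, v, hb, hv, rfl⟩
    have hN : (⁅A, A⁆ : Subgroup K).Normal := Subgroup.commutator_normal A A
    have h1 : b⁻¹ * w * b⁻¹⁻¹ ∈ WW B Y' ⁅A, A⁆ Z :=
      conj_ww hBc hN (step_lf_ww A U Z hb.inv) hw
    refine ⟨a * b, b⁻¹ * w * b⁻¹⁻¹ * v, ha.mul hb, Subgroup.mul_mem _ h1 hv, ?_⟩
    group
  inv_mem' := by
    rintro x ⟨a, w, ha, hw, rfl⟩
    have hN : (⁅A, A⁆ : Subgroup K).Normal := Subgroup.commutator_normal A A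
    have h1 : a * w⁻¹ * a⁻¹ ∈ WW B Y' ⁅A, A⁆ Z :=
      conj_ww hBc hN (step_lf_ww A U Z ha) (Subgroup.inv_mem _ hw)
    refine ⟨a⁻¹, a * w⁻¹ * a⁻¹, ha.inv, h1, ?_⟩
    group

omit [DecidableEq X] in
theorem step_sup_le (hBc : ∀ S T, ⁅B S, B T⁆ ≤ B (S ∪ T)) (Y' : Set X) (A : Subgroup K)
    (hA : A.Normal) (U : Finset ι) (Z : Finset X) :
    LFs B Y' A U Z ⊔ WW B Y' ⁅A, A⁆ Z ≤ stepProd hBc Y' A hA U Z := by
  refine sup_le ?_ ?_
  · intro a ha
    exact ⟨a, 1, ha, Subgroup.one_mem _, (mul_one a).symm⟩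
  · intro w hw
    exact ⟨1, w, LF.one A U Z, hw, (one_mul w).symm⟩

omit [DecidableEq X] in
theorem step_comm (hBc : ∀ S T, ⁅B S, B T⁆ ≤ B (S ∪ T)) (Y' : Set X) (A : Subgroup K)
    (hA : A.Normal) (m : ℕ) (Z : Finset X) (x : ↥(VV B Y' A m Z))
    (hx : Abelianization.of x = 1) : x.1 ∈ WW B Y' ⁅A, A⁆ Z := by
  have h1 : x ∈ commutator ↥(VV B Y' A m Z) := by
    rw [← Abelianization.ker_of]
    exact hx
  have h2 : commutator ↥(VV B Y' A m Z) ≤ (WW B Y' ⁅A, A⁆ Z).comap (VV B Y' A m Z).subtype := by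
    rw [commutator_def]
    refine Subgroup.commutator_le.2 fun v _ w _ => ?_
    exact vv_comm hBc hA m Z v.2 w.2
  exact h2 h1

/-- The elimination of the degree `m`.

PROOF. Let `|Z| ≤ q - m`; `γ ∈ VV B Y A m (Z ∪ E)`, `g` the element of this group. Choose
`z U : ι → X` injective on `U` with values in `E` for all `|U| = m = |E|`. By `DU_prod`,
`of (γ ∘ incl) * (∏ DU g)⁻¹` is in the image `M` of `VV B Y' A (m - 1) Z`. Claim: `DU g ∈ M` for all
`U`. By `DU_mem`, `DU g = of (a * w)`, `LF B A U Z a`, `w ∈ WW B Y' ⁅A, A⁆ Z`. For `c : Emb ι Y'`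
the homomorphism `Abelianization.lift (evA Y' A m Z c)` maps `DU g` to the product of
`diff_eq_one` (for `γ` as an element of `VV B Y A m Z₂`, `Z₂ = U.image c ∪ U.image z`,
`|Z₂| ≤ 2 m ≤ q`), so to `1`; and it maps `of (a * w)` to `of (a c)` (`evA_ww`). So
`a c ∈ ⁅A, A⁆` for all `c` (`of_eq_one_iff`), `LF B ⁅A, A⁆ U Z a`, and `a * w ∈ WW B Y' ⁅A, A⁆ Z ≤
VV B Y' A (m - 1) Z`. Hence `of (γ ∘ incl) ∈ M`: `γ ∘ incl = v * k` with `v ∈ VV B Y' A (m - 1) Z` and
`k` a commutator element of `VV B Y' A m Z`, which is in `WW B Y' ⁅A, A⁆ Z` (`vv_comm`). -/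
theorem step [Fintype ι] (hBa : ∀ S T, S ⊆ T → B T ≤ B S)
    (hBc : ∀ S T, ⁅B S, B T⁆ ≤ B (S ∪ T)) (h : Y' ⊆ Y) (E : Finset X)
    (hE : ∀ x ∈ E, x ∈ Y ∧ x ∉ Y') (A : Subgroup K) (hA : A.Normal) (m q : ℕ) (hm : 0 < m)
    (hEm : E.card = m) (hq : 2 * m ≤ q) (γ : Emb ι Y → K)
    (hγ : ∀ Z : Finset X, Z.card ≤ q → γ ∈ VV B Y A m Z) (Z : Finset X) (hZ : Z.card ≤ q - m) :
    (fun c => γ (incl h c)) ∈ VV B Y' A (m - 1) Z := by
  classical
  have hmq : m ≤ q := by omega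
  have hcard : (Z ∪ E).card ≤ q := by
    have h1 := Finset.card_union_le Z E
    omega
  let g : ↥(VV B Y A m (Z ∪ E)) := ⟨γ, hγ _ hcard⟩
  obtain ⟨x₀, hx₀⟩ : E.Nonempty := Finset.card_pos.1 (by omega)
  -- the substitutions
  have hzex : ∀ U : {U : Finset ι // U.card = m}, ∃ z : ι → X, Set.InjOn z U.1 ∧
      ∀ u ∈ U.1, z u ∈ E := by
    intro U
    have e : U.1 ≃ E := Finset.equivOfCardEq (U.2.trans hEm.symm)
    refine ⟨fun u => if hu : u ∈ U.1 then (e ⟨u, hu⟩).1 else x₀, ?_, ?_⟩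
    · intro u hu v hv huv
      have hu' : u ∈ U.1 := hu
      have hv' : v ∈ U.1 := hv
      simp only [hu', hv', dif_pos] at huv
      have h1 := e.injective (Subtype.ext huv)
      exact congrArg Subtype.val h1
    · intro u hu
      simp only [hu, dif_pos]
      exact (e ⟨u, hu⟩).2
  choose z hz hzE using hzex
  have hprod := DU_prod hBa h E hE A m hm z hz hzE Z g
  -- the differences
  have hclaim : ∀ U : {U : Finset ι // U.card = m},
      DU hBa h E hE U.1 (z U) (hz U) (hzE U) A m Z g ∈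
        ((VV B Y' A (m - 1) Z).subgroupOf (VV B Y' A m Z)).map
          (Abelianization.of (G := ↥(VV B Y' A m Z))) := by
    intro U
    obtain ⟨x, hx, hxe⟩ := DU_mem hBa h E hE U.1 (z U) (hz U) (hzE U) A m U.2 Z g
    have hx1 : x.1 ∈ stepProd hBc Y' A hA U.1 Z := step_sup_le hBc Y' A hA U.1 Z hx
    obtain ⟨a, w, ha, hw, haw⟩ := hx1
    have hac : ∀ c : Emb ι Y', a c ∈ ⁅A, A⁆ := by
      intro c
      have hZ2 : (U.1.image c.1 ∪ U.1.image (z U)).card ≤ q := by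
        have h1 := Finset.card_union_le (U.1.image c.1) (U.1.image (z U))
        have h2 : (U.1.image c.1).card ≤ U.1.card := Finset.card_image_le
        have h3 : (U.1.image (z U)).card ≤ U.1.card := Finset.card_image_le
        have h4 := U.2
        omega
      have h1 := diff_eq_one h E hE U.1 (z U) (hz U) (hzE U) A m U.2 c
        (U.1.image c.1 ∪ U.1.image (z U))
        (fun u hu => Finset.mem_union_left _ (Finset.mem_image_of_mem _ hu))
        (fun u hu => Finset.mem_union_right _ (Finset.mem_image_of_mem _ hu))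
        ⟨γ, hγ _ hZ2⟩
      have h2 : Abelianization.lift (evA Y' A m Z c)
          (DU hBa h E hE U.1 (z U) (hz U) (hzE U) A m Z g) = 1 := by
        rw [← h1, DU, MonoidHom.finsetProd_apply, map_prod]
        refine Finset.prod_congr rfl fun T _ => ?_
        rw [MonoidHom.zpow_apply, map_zpow]
        rfl
      rw [← hxe, Abelianization.lift_apply_of] at h2
      have h3 := (of_eq_one_iff A _).1 h2
      have h4 : x.1 c ∈ ⁅A, A⁆ := h3
      rw [haw] at h4
      have h5 : a c * w c ∈ ⁅A, A⁆ := h4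
      have h6 : w c ∈ ⁅A, A⁆ := ww_mem hw c
      exact ((⁅A, A⁆ : Subgroup K).mul_mem_cancel_right h6).1 h5
    have ha' : LF B ⁅A, A⁆ U.1 Z a := ⟨hac, ha.memB, ha.loc, ha.van⟩
    have hx2 : x.1 ∈ WW B Y' ⁅A, A⁆ Z := by
      rw [haw]
      exact Subgroup.mul_mem _ (Subgroup.subset_closure ⟨U.1, ha'⟩) hw
    exact ⟨x, ww_le_vv (m - 1) Z hx2, hxe⟩
  have hall : Abelianization.of (inclHom h A m Finset.subset_union_left g) ∈
      ((VV B Y' A (m - 1) Z).subgroupOf (VV B Y' A m Z)).map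
        (Abelianization.of (G := ↥(VV B Y' A m Z))) := by
    have h1 := Subgroup.mul_mem _ hprod
      (Subgroup.prod_mem _ (t := Finset.univ) fun U _ => hclaim U)
    rwa [inv_mul_cancel_right] at h1
  obtain ⟨v, hv, hve⟩ := hall
  have h1 : Abelianization.of (v⁻¹ * inclHom h A m Finset.subset_union_left g) = 1 := by
    rw [map_mul, map_inv, hve, inv_mul_cancel]
  have h2 := step_comm hBc Y' A hA m Z _ h1
  have h3 : v.1 ∈ VV B Y' A (m - 1) Z := hv
  have h4 := Subgroup.mul_mem _ h3 (ww_le_vv (m - 1) Z h2)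
  have h5 : v.1 * (v⁻¹ * inclHom h A m (Finset.subset_union_left : Z ⊆ Z ∪ E) g).1 =
      fun c => γ (incl h c) := by
    rw [Subgroup.coe_mul, Subgroup.coe_inv, mul_inv_cancel_left]
    rfl
  rwa [h5] at h4

end Inn

end MP799fdf
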