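import Pool.Agent.Lib.MP_799fdf_al.Inn.PolyD2
import Pool.Agent.Lib.MP_799fdf_al.Inn.RBA

/-! # Iteration of the elimination step -/

set_option autoImplicit false

open scoped commutatorElement

namespace MP799fdf

namespace Inn

/-- `tri l = 1 + 2 + ... + l` -/
def tri : ℕ → ℕ
  | 0 => 0
  | l + 1 => (l + 1) + tri l

variable {K ι X : Type} [Group K] [DecidableEq ι] [DecidableEq X] [Fintype ι]
  {B : Finset ι → Subgroup K}

/-- PROOF. Induction on `m`, with `Y, E, q` arbitrary: split `E = E₁ ∪ E₂` disjoint, `|E₁| = m + 1`,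
`|E₂| = tri m`; `step` from `Y` to `Y \ E₁` (`q' = q - (m + 1)`), then induction from `Y \ E₁` to
`Y \ E`. (`incl` of `incl` is `incl`, by `rfl`.) -/
theorem steps (hBa : ∀ S T, S ⊆ T → B T ≤ B S)
    (hBc : ∀ S T, ⁅B S, B T⁆ ≤ B (S ∪ T)) (A : Subgroup K) (hA : A.Normal) (m : ℕ) :
    ∀ (Y Y' : Set X) (h : Y' ⊆ Y) (E : Finset X), (∀ x ∈ E, x ∈ Y ∧ x ∉ Y') →
      ∀ q : ℕ, E.card = tri m → tri m + 2 * m ≤ q → ∀ γ : Emb ι Y → K,
      (∀ Z : Finset X, Z.card ≤ q → γ ∈ VV B Y A m Z) →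
      ∀ Z : Finset X, Z.card ≤ q - tri m → (fun c => γ (incl h c)) ∈ VV B Y' A 0 Z := by
  induction m with
  | zero =>
    intro Y Y' h E _ q _ _ γ hγ Z hZ
    have hZq : Z.card ≤ q := by
      have h0 : q - tri 0 ≤ q := Nat.sub_le _ _
      exact hZ.trans h0
    exact vv_incl h (Finset.Subset.refl Z) (hγ Z hZq)
  | succ m ih =>
    intro Y Y' h E hE q hEc hq γ hγ Z hZ
    have htri : tri (m + 1) = (m + 1) + tri m := rfl
    rw [htri] at hEc hq hZ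
    obtain ⟨E₁, hE₁, hE₁c⟩ := Finset.exists_subset_card_eq (s := E) (n := m + 1) (by omega)
    have hY1 : Y \ (↑E₁ : Set X) ⊆ Y := Set.sdiff_subset
    have hY2 : Y' ⊆ Y \ (↑E₁ : Set X) := by
      intro x hx
      exact ⟨h hx, fun hxE => (hE x (hE₁ (Finset.mem_coe.1 hxE))).2 hx⟩
    have h1 : ∀ Z : Finset X, Z.card ≤ q - (m + 1) →
        (fun c => γ (incl hY1 c)) ∈ VV B (Y \ (↑E₁ : Set X)) A m Z := by
      intro Z hZ
      exact step hBa hBc hY1 E₁ (fun x hx => ⟨(hE x (hE₁ hx)).1, fun hx' => hx'.2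
        (Finset.mem_coe.2 hx)⟩) A hA (m + 1) q (Nat.succ_pos m) hE₁c (by omega) γ hγ Z hZ
    have hc : (E \ E₁).card = tri m := by
      rw [Finset.card_sdiff_of_subset hE₁]
      omega
    exact ih (Y \ (↑E₁ : Set X)) Y' hY2 (E \ E₁) (fun x hx =>
      ⟨⟨(hE x (Finset.mem_sdiff.1 hx).1).1, fun hx' => (Finset.mem_sdiff.1 hx).2
        (Finset.mem_coe.1 hx')⟩, (hE x (Finset.mem_sdiff.1 hx).1).2⟩)
      (q - (m + 1)) hc (by omega) (fun c => γ (incl hY1 c)) h1 Z (by omega)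

/-- PROOF. `ww_le_vv'`, `steps` for `m = l`, `vv_zero`. -/
theorem level (hBa : ∀ S T, S ⊆ T → B T ≤ B S)
    (hBc : ∀ S T, ⁅B S, B T⁆ ≤ B (S ∪ T)) {l : ℕ} (hl : ∀ T : Finset ι, l < T.card → B T = ⊥)
    (A : Subgroup K) (hA : A.Normal) (Y Y' : Set X) (h : Y' ⊆ Y) (E : Finset X)
    (hE : ∀ x ∈ E, x ∈ Y ∧ x ∉ Y') (q : ℕ) (hEc : E.card = tri l) (hq : tri l + 2 * l ≤ q)
    (γ : Emb ι Y → K) (hγ : ∀ Z : Finset X, Z.card ≤ q → γ ∈ WW B Y A Z)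
    (Z : Finset X) (hZ : Z.card ≤ q - tri l) :
    (fun c => γ (incl h c)) ∈ WW B Y' ⁅A, A⁆ Z :=
  vv_zero Z (steps hBa hBc A hA l Y Y' h E hE q hEc hq γ
    (fun Z hZ => ww_le_vv' hl Z (hγ Z hZ)) Z hZ)

/-- PROOF. Induction on `δ`, with `Y, S, q, γ` arbitrary. `δ = 0`: `S = ⊥`, `ww_mem`. `δ + 1`: split
`E = E₁ ∪ E₂` disjoint, `|E₁| = tri l`, `Y' = Y \ E₁`; `level` gives the hypothesis for `γ ∘ incl`,
`⁅S, S⁆`, `Y'`, `q - tri l`; `dser ⁅S, S⁆ δ = dser S (δ + 1) = ⊥` (`dser_add S 1 δ`); `c` has values in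
`Y'`. -/
theorem final (hBa : ∀ S T, S ⊆ T → B T ≤ B S)
    (hBc : ∀ S T, ⁅B S, B T⁆ ≤ B (S ∪ T)) {l : ℕ} (hl : ∀ T : Finset ι, l < T.card → B T = ⊥)
    (δ : ℕ) : ∀ (S : Subgroup K), S.Normal → dser S δ = ⊥ → ∀ (Y : Set X) (q : ℕ),
      δ * tri l + 2 * l ≤ q → ∀ γ : Emb ι Y → K,
      (∀ Z : Finset X, Z.card ≤ q → γ ∈ WW B Y S Z) → ∀ c : Emb ι Y,
      ∀ E : Finset X, E.card = δ * tri l → (∀ x ∈ E, x ∈ Y) → (∀ x ∈ E, ∀ i, c.1 i ≠ x) →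
      γ c = 1 := by
  induction δ with
  | zero =>
    intro S _ hS Y q _ γ hγ c _ _ _ _
    have h0 : γ c ∈ S := ww_mem (hγ ∅ (by simp)) c
    have h1 : S = ⊥ := hS
    rw [h1] at h0
    exact Subgroup.mem_bot.1 h0
  | succ δ ih =>
    intro S hSn hS Y q hq γ hγ c E hEc hEY hEc'
    have hmul : (δ + 1) * tri l = δ * tri l + tri l := Nat.succ_mul δ (tri l)
    rw [hmul] at hq hEc
    obtain ⟨E₁, hE₁, hE₁c⟩ := Finset.exists_subset_card_eq (s := E) (n := tri l) (by omega)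
    have hY1 : Y \ (↑E₁ : Set X) ⊆ Y := Set.sdiff_subset
    have h1 : ∀ Z : Finset X, Z.card ≤ q - tri l →
        (fun c => γ (incl hY1 c)) ∈ WW B (Y \ (↑E₁ : Set X)) ⁅S, S⁆ Z := by
      intro Z hZ
      exact level hBa hBc hl S hSn Y _ hY1 E₁ (fun x hx => ⟨hEY x (hE₁ hx), fun hx' => hx'.2
        (Finset.mem_coe.2 hx)⟩) q hE₁c (by omega) γ hγ Z hZ
    have hc : (E \ E₁).card = δ * tri l := by
      rw [Finset.card_sdiff_of_subset hE₁]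
      omega
    have hd : dser ⁅S, S⁆ δ = ⊥ := by
      have h2 := dser_add S 1 δ
      rw [Nat.add_comm 1 δ, hS] at h2
      exact h2.symm
    have hn : (⁅S, S⁆ : Subgroup K).Normal := by
      have := hSn
      infer_instance
    exact ih ⁅S, S⁆ hn hd (Y \ (↑E₁ : Set X)) (q - tri l) (by omega)
      (fun c => γ (incl hY1 c)) h1
      ⟨c.1, c.2.1, fun i => ⟨c.2.2 i, fun hi => hEc' (c.1 i) (hE₁ (Finset.mem_coe.1 hi)) i rfl⟩⟩
      (E \ E₁) hc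
      (fun x hx => ⟨hEY x (Finset.mem_sdiff.1 hx).1, fun hx' => (Finset.mem_sdiff.1 hx).2
        (Finset.mem_coe.1 hx')⟩)
      (fun x hx i => hEc' x (Finset.mem_sdiff.1 hx).1 i)

end Inn

end MP799fdf
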