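import Pool.Agent.Lib.MP_799fdf_al.Inn.PolyA2
import Pool.Agent.Lib.MP_799fdf_al.Inn.HTA

/-! # Elimination of a nonabelian section -/

set_option autoImplicit false

open scoped commutatorElement

namespace MP799fdf

namespace Inn

variable {K ι X : Type} [Group K] [DecidableEq ι] {B : Finset ι → Subgroup K} {Y : Set X}

/-- PROOF. `Finset.Nonempty.cons_induction`: `R = ⁅R, R⁆ ≤ ⁅B {i}, B U⁆ ≤ B ({i} ∪ U)`. -/
theorem loc_le_B (hBc : ∀ S T, ⁅B S, B T⁆ ≤ B (S ∪ T)) {R N : Subgroup K} (h : Loc R N)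
    (U : Finset ι) (hU : U.Nonempty) (h1 : ∀ i ∈ U, R ≤ B {i}) : R ≤ B U := by
  induction hU using Finset.Nonempty.cons_induction with
  | singleton a => exact h1 a (Finset.mem_singleton_self a)
  | cons a s ha hs ih =>
    have h2 : R ≤ B s := ih fun i hi => h1 i (Finset.mem_cons.2 (Or.inr hi))
    have h3 : R ≤ B {a} := h1 a (Finset.mem_cons.2 (Or.inl rfl))
    have h4 : ({a} ∪ s : Finset ι) = Finset.cons a s ha := by
      rw [Finset.cons_eq_insert, Finset.insert_eq]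
    rw [← h4]
    calc R = ⁅R, R⁆ := h.perf.symm
      _ ≤ ⁅B {a}, B s⁆ := Subgroup.commutator_mono h3 h2
      _ ≤ B ({a} ∪ s) := hBc _ _

/-- PROOF. `U = univ.filter fun i => R ≤ B {i}` (classical). If `l < U.card` then `U` is nonempty and
`R ≤ B U = ⊥`, against `Loc.ne_bot`. -/
theorem exists_U [Fintype ι] (hBc : ∀ S T, ⁅B S, B T⁆ ≤ B (S ∪ T)) {l : ℕ}
    (hl : ∀ T : Finset ι, l < T.card → B T = ⊥) {R N : Subgroup K} (h : Loc R N) :
    ∃ U : Finset ι, U.card ≤ l ∧ (∀ i, i ∈ U ↔ R ≤ B {i}) ∧ (U.Nonempty → R ≤ B U) := by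
  classical
  set U : Finset ι := Finset.univ.filter fun i => R ≤ B {i} with hUdef
  have hU : ∀ i, i ∈ U ↔ R ≤ B {i} := fun i => by simp [hUdef]
  have h1 : U.Nonempty → R ≤ B U := fun hne => loc_le_B hBc h U hne fun i hi => (hU i).1 hi
  refine ⟨U, ?_, hU, h1⟩
  by_contra hc
  rw [not_le] at hc
  have hne : U.Nonempty := Finset.card_pos.1 (lt_of_le_of_lt (Nat.zero_le _) hc)
  have h2 := h1 hne
  rw [hl U hc] at h2
  exact h.ne_bot (le_bot_iff.1 h2)

/-- PROOF. `g c ∈ B U' ≤ B {i} ≤ cen R N` by `loc_le_of_not_cen`. -/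
theorem lf_cen (hBa : ∀ S T, S ⊆ T → B T ≤ B S) (hBn : ∀ T, (B T).Normal) {R N : Subgroup K}
    (h : Loc R N) {A : Subgroup K} {U' : Finset ι} {Z : Finset X} {g : Emb ι Y → K}
    (hg : LF B A U' Z g) {i : ι} (hi : i ∈ U') (hR : ¬ R ≤ B {i}) (c : Emb ι Y) :
    g c ∈ cen R N h.nN := by
  have h1 : g c ∈ B {i} := hBa {i} U' (Finset.singleton_subset_iff.2 hi) (hg.memB c)
  have h2 : B {i} ≤ cen R N h.nN := by
    by_contra hn
    exact hR (loc_le_of_not_cen h (hBn {i}) hn)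
  exact h2 h1

/-- PROOF. Let `U` be from `exists_U` and `Z = U.image c.1`, `|Z| ≤ l ≤ q`. Closure induction for
`v ∈ WW B Y A Z` (into the preimage of `cen R N` under the evaluation at `c`): for `LF B A U' Z g`: if
`U' ⊆ U` then `c` maps `U'` into `Z` and `g c = 1`; otherwise `lf_cen`. -/
theorem ww_cen [Fintype ι] [DecidableEq X] (hBa : ∀ S T, S ⊆ T → B T ≤ B S)
    (hBn : ∀ T, (B T).Normal) (hBc : ∀ S T, ⁅B S, B T⁆ ≤ B (S ∪ T)) {l : ℕ}
    (hl : ∀ T : Finset ι, l < T.card → B T = ⊥) {R N : Subgroup K} (h : Loc R N)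
    {A : Subgroup K} {q : ℕ} (hq : l ≤ q) {v : Emb ι Y → K}
    (hv : ∀ Z : Finset X, Z.card ≤ q → v ∈ WW B Y A Z) (c : Emb ι Y) :
    v c ∈ cen R N h.nN := by
  classical
  obtain ⟨U, hUc, hU, -⟩ := exists_U hBc hl h
  have hZ : (U.image c.1).card ≤ q := Finset.card_image_le.trans (hUc.trans hq)
  have h1 : WW B Y A (U.image c.1) ≤
      (cen R N h.nN).comap (Pi.evalMonoidHom (fun _ : Emb ι Y => K) c) := by
    refine (Subgroup.closure_le _).2 ?_
    rintro g ⟨U', hg⟩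
    change g c ∈ cen R N h.nN
    by_cases hs : U' ⊆ U
    · rw [hg.van c fun u hu => Finset.mem_image_of_mem _ (hs hu)]
      exact one_mem _
    · rw [Finset.not_subset] at hs
      obtain ⟨i, hi, hiU⟩ := hs
      exact lf_cen hBa hBn h hg hi (fun hR => hiU ((hU i).2 hR)) c
  exact h1 (hv _ hZ)

end Inn

end MP799fdf
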