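import Pool.Agent.Lib.MP_799fdf_al.Inn.SemA

/-! # Elimination of a nonabelian section, second part -/

set_option autoImplicit false

open scoped commutatorElement

namespace MP799fdf

namespace Inn

variable {K ι X : Type} [Group K] [DecidableEq ι] {B : Finset ι → Subgroup K} {Y : Set X}

/-- PROOF. Let `U` be from `exists_U`. Fix a function `ρ : K → K` with `ρ 1 = 1` and, for
`x ∈ R ⊔ cen R N`, `ρ x ∈ R`, `x * (ρ x)⁻¹ ∈ cen R N` (e.g. `ρ x = 1` outside; `R` and `cen R N` are normal,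
`Subgroup.mem_sup_of_normal_right` or similar). Claim: every `v ∈ WW B Y A Z` is `w * r` with
`w ∈ WW B Y (A ⊓ cen R N) Z` and `LF B R U Z r`. Closure induction. Generator `LF B A U' Z g`: if `U' ⊆ U`,
`U' ≠ ∅`: `r c = ρ (g c)`, `w = g * r⁻¹` (`R ≤ B U ≤ B U'`, `R ≤ A`); if `U' = ∅`: `g = 1` (`LF.empty`); if
`i ∈ U'`, `i ∉ U`: `w = g`, `r = 1` (`lf_cen`). Products: `w r w' r' = w (r w' r⁻¹) (r r')`, with `conj_ww`
for the normal subgroup `A ⊓ cen R N` and `r ∈ WW B Y ⊤ ∅`; inverses similarly. Then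
`r c = (w c)⁻¹ * v c ∈ cen R N`, so `LF B (A ⊓ cen R N) U Z r` and `v ∈ WW B Y (A ⊓ cen R N) Z`. -/
theorem ww_inf_cen [Fintype ι] (hBa : ∀ S T, S ⊆ T → B T ≤ B S)
    (hBn : ∀ T, (B T).Normal) (hBc : ∀ S T, ⁅B S, B T⁆ ≤ B (S ∪ T)) {l : ℕ}
    (hl : ∀ T : Finset ι, l < T.card → B T = ⊥) {R N : Subgroup K} (h : Loc R N)
    {A : Subgroup K} (hA : A.Normal) (hRA : R ≤ A) (hAle : A ≤ R ⊔ cen R N h.nN) (Z : Finset X)
    {v : Emb ι Y → K} (hv : v ∈ WW B Y A Z) (hc : ∀ c, v c ∈ cen R N h.nN) :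
    v ∈ WW B Y (A ⊓ cen R N h.nN) Z := by
  classical
  obtain ⟨U, -, hUiff, hUR⟩ := exists_U hBc hl h
  have hCn : (cen R N h.nN).Normal := cen_normal R N h.nR h.nN
  have hAC : (A ⊓ cen R N h.nN).Normal := Subgroup.normal_inf_normal A (cen R N h.nN)
  -- the choice function
  have hex : ∀ x : K, ∃ y : K, y ∈ R ∧ (x = 1 → y = 1) ∧
      (x ∈ R ⊔ cen R N h.nN → x * y⁻¹ ∈ cen R N h.nN) := by
    intro x
    by_cases hx1 : x = 1
    · refine ⟨1, R.one_mem, fun _ => rfl, fun _ => ?_⟩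
      rw [hx1]
      simp
    · by_cases hx : x ∈ R ⊔ cen R N h.nN
      · obtain ⟨y, hy, z, hz, hyz⟩ := Subgroup.mem_sup_of_normal_right.1 hx
        refine ⟨y, hy, fun h1 => absurd h1 hx1, fun _ => ?_⟩
        rw [← hyz]
        exact hCn.conj_mem z hz y
      · exact ⟨1, R.one_mem, fun _ => rfl, fun h1 => absurd h1 hx⟩
  choose ρ hρR hρ1 hρC using hex
  have hRn := h.nR
  -- the claim
  have key : ∃ w r : Emb ι Y → K, w ∈ WW B Y (A ⊓ cen R N h.nN) Z ∧ LF B R U Z r ∧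
      v = w * r := by
    clear hc
    induction hv using Subgroup.closure_induction with
    | mem g hg =>
      obtain ⟨U', hL⟩ := hg
      by_cases hU' : U' ⊆ U
      · by_cases hne : U'.Nonempty
        · have hRU : R ≤ B U := hUR (hne.mono hU')
          have hrL : LF B R U Z (fun c => ρ (g c)) := by
            refine ⟨fun c => hρR _, fun c => hRU (hρR _), fun c c' hcc => ?_, fun c hcz => ?_⟩
            · show ρ (g c) = ρ (g c')
              rw [hL.loc c c' (fun u hu => hcc u (hU' hu))]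
            · exact hρ1 _ (hL.van c (fun u hu => hcz u (hU' hu)))
          refine ⟨g * (fun c => ρ (g c))⁻¹, fun c => ρ (g c), ?_, hrL, ?_⟩
          · refine Subgroup.subset_closure ⟨U', ⟨fun c => ?_, fun c => ?_, fun c c' hcc => ?_,
              fun c hcz => ?_⟩⟩
            · exact ⟨A.mul_mem (hL.mem c) (A.inv_mem (hRA (hρR _))),
                hρC _ (hAle (hL.mem c))⟩
            · exact (B U').mul_mem (hL.memB c) ((B U').inv_mem (hBa U' U hU' (hRU (hρR _))))
            · show g c * (ρ (g c))⁻¹ = g c' * (ρ (g c'))⁻¹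
              rw [hL.loc c c' hcc]
            · show g c * (ρ (g c))⁻¹ = 1
              have h1 := hL.van c hcz
              rw [hρ1 _ h1, h1]
              simp
          · simp
        · have h0 : U' = ∅ := Finset.not_nonempty_iff_eq_empty.1 hne
          subst h0
          have h1 := hL.empty
          subst h1
          exact ⟨1, 1, Subgroup.one_mem _, LF.one _ _ _, by simp⟩
      · obtain ⟨i, hi, hiU⟩ := Finset.not_subset.1 hU'
        have hnR : ¬ R ≤ B {i} := fun hh => hiU ((hUiff i).2 hh)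
        refine ⟨g, 1, Subgroup.subset_closure ⟨U', ⟨fun c => ⟨hL.mem c, ?_⟩, hL.memB, hL.loc,
          hL.van⟩⟩, LF.one _ _ _, by simp⟩
        exact lf_cen hBa hBn h hL hi hnR c
    | one => exact ⟨1, 1, Subgroup.one_mem _, LF.one _ _ _, by simp⟩
    | mul a b _ _ ha hb =>
      obtain ⟨w, r, hw, hr, rfl⟩ := ha
      obtain ⟨w', r', hw', hr', rfl⟩ := hb
      have hrW : r ∈ WW B Y ⊤ (∅ : Finset X) :=
        Subgroup.subset_closure ⟨U, (hr.mono_A le_top).mono_Z (Finset.empty_subset Z)⟩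
      refine ⟨w * (r * w' * r⁻¹), r * r', ?_, hr.mul hr', ?_⟩
      · exact Subgroup.mul_mem _ hw (conj_ww hBc hAC hrW hw')
      · group
    | inv a _ ha =>
      obtain ⟨w, r, hw, hr, rfl⟩ := ha
      have hrW : r⁻¹ ∈ WW B Y ⊤ (∅ : Finset X) :=
        Subgroup.inv_mem _
          (Subgroup.subset_closure ⟨U, (hr.mono_A le_top).mono_Z (Finset.empty_subset Z)⟩)
      refine ⟨r⁻¹ * w⁻¹ * r⁻¹⁻¹, r⁻¹, ?_, hr.inv, ?_⟩
      · exact conj_ww hBc hAC hrW (Subgroup.inv_mem _ hw)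
      · group
  obtain ⟨w, r, hw, hr, rfl⟩ := key
  have hrC : ∀ c, r c ∈ cen R N h.nN := by
    intro c
    have h1 : w c ∈ cen R N h.nN := (ww_mem hw c).2
    have h2 : (w c)⁻¹ * (w * r) c ∈ cen R N h.nN :=
      Subgroup.mul_mem _ (Subgroup.inv_mem _ h1) (hc c)
    have h3 : (w c)⁻¹ * (w * r) c = r c := by
      rw [Pi.mul_apply]
      group
    rw [h3] at h2
    exact h2
  refine Subgroup.mul_mem _ hw (Subgroup.subset_closure ⟨U, ⟨fun c => ⟨hRA (hr.mem c), hrC c⟩,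
    hr.memB, hr.loc, hr.van⟩⟩)

end Inn

end MP799fdf
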