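import Pool.Agent.Lib.MP_799fdf_al.Inn.D2A
import Pool.Agent.Lib.MP_799fdf_al.Inn.HTB

/-! # Maximal local subgroups of a normal subgroup -/

set_option autoImplicit false

open scoped commutatorElement

namespace MP799fdf

namespace Inn

variable {K : Type} [Group K] [Finite K]

/-- PROOF. `¬ E ≤ A`. Let `R'` be minimal (finite group) among the normal subgroups with `R' ≤ E`,
`¬ R' ≤ A`, and `N' = R' ⊓ A`. `R' ⊔ A = E ⊔ U` by `h3` (it is not `A`). If `⁅R', R'⁆ ≤ A` then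
`⁅R' ⊔ A, R' ⊔ A⁆ ≤ A` (e.g. in the quotient by `A`, as in `exists_loc` in `KStrA.lean`), a contradiction.
So `⁅R', R'⁆ = R'` by minimality; a normal `M ≤ R'` is `≤ A` or `= R'`. -/
theorem exists_loc_of_chief {E U A : Subgroup K} (hE : E.Normal) (hU : U.Normal) (hA : A.Normal)
    (h1 : U ≤ A) (h2 : A < E ⊔ U)
    (h3 : ∀ M : Subgroup K, M.Normal → A ≤ M → M ≤ E ⊔ U → M = A ∨ M = E ⊔ U)
    (h4 : ¬ ⁅E ⊔ U, E ⊔ U⁆ ≤ A) :
    ∃ R' N' : Subgroup K, Loc R' N' ∧ R' ≤ E ∧ ¬ R' ≤ A := by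
  have hEA : ¬ E ≤ A := fun h => not_le_of_gt h2 (sup_le h h1)
  obtain ⟨R, hR⟩ := (Set.toFinite {R : Subgroup K | R.Normal ∧ R ≤ E ∧ ¬ R ≤ A}).exists_minimal
    ⟨E, hE, le_rfl, hEA⟩
  have hRn : R.Normal := hR.prop.1
  have hRE : R ≤ E := hR.prop.2.1
  have hRA : ¬ R ≤ A := hR.prop.2.2
  have hmin : ∀ Z : Subgroup K, Z.Normal → Z ≤ R → ¬ Z ≤ A → Z = R := fun Z hZ hZR hZA =>
    le_antisymm hZR (hR.le_of_le ⟨hZ, hZR.trans hRE, hZA⟩ hZR)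
  have hsup : R ⊔ A = E ⊔ U := by
    have hn : (R ⊔ A).Normal := inferInstance
    rcases h3 (R ⊔ A) hn le_sup_right (sup_le (hRE.trans le_sup_left) h2.le) with h | h
    · exact absurd (le_sup_left.trans h.le) hRA
    · exact h
  have hcomm : ¬ ⁅R, R⁆ ≤ A := by
    intro hle
    have hker : (QuotientGroup.mk' A).ker = A := QuotientGroup.ker_mk' A
    have hA0 : A.map (QuotientGroup.mk' A) = ⊥ := by
      rw [Subgroup.map_eq_bot_iff, hker]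
    have e1 : (E ⊔ U).map (QuotientGroup.mk' A) = R.map (QuotientGroup.mk' A) := by
      rw [← hsup, Subgroup.map_sup, hA0, sup_bot_eq]
    have e2 : (⁅E ⊔ U, E ⊔ U⁆).map (QuotientGroup.mk' A) = ⊥ := by
      rw [Subgroup.map_commutator, e1, ← Subgroup.map_commutator, Subgroup.map_eq_bot_iff, hker]
      exact hle
    rw [Subgroup.map_eq_bot_iff, hker] at e2
    exact h4 e2
  have hcn : ⁅R, R⁆.Normal := Subgroup.commutator_normal R R
  have hperf : ⁅R, R⁆ = R := hmin _ hcn R.commutator_le_self hcomm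
  refine ⟨R, R ⊓ A, ⟨hRn, inferInstance, ?_, hperf, ?_⟩, hRE, hRA⟩
  · exact lt_of_le_of_ne inf_le_left fun e => hRA (inf_eq_left.1 e)
  · intro Z hZ hZR
    by_cases hZA : Z ≤ A
    · exact Or.inl (le_inf hZR hZA)
    · exact Or.inr (hmin Z hZ hZR hZA)

/-- A maximal local subgroup `R` of a normal subgroup `A` that centralises `V`.

PROOF. Suppose not, and let `U = R ⊔ cen R N`, so `U < A ⊔ U`. Let `A₁` be maximal among the normal
subgroups with `U ≤ A₁ < A ⊔ U` (finite). `D2` for `(R, N, V, ⊥, A₁, A ⊔ U)`: `⊥ < V`, `V ≤ R` (`hV.le`,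
`Loc.ne_bot`), `⁅V, R⁆ ≤ ⊥` as `R ≤ A ≤ cen V ⊥`, `A ⊔ U ≤ cen R N ⊔ cen V ⊥`. So
`¬ ⁅A ⊔ U, A ⊔ U⁆ ≤ A₁` and `exists_loc_of_chief` (`E = A`) gives `Loc R' N'`, `R' ≤ A`, `¬ R' ≤ A₁`. So
`¬ R' ≤ cen R N`, `R ≤ R'` (`loc_le_of_not_cen`), `R' = R` (`htop`), `R' ≤ U ≤ A₁`, a contradiction. -/
theorem top_le (hD : D2 K) {V : Subgroup K} (hV : IsMono V) {A : Subgroup K} (hA : A.Normal)
    (hAV : A ≤ cen V ⊥ inferInstance) {R N : Subgroup K} (h : Loc R N) (hR : R ≤ A)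
    (htop : ∀ R' N' : Subgroup K, Loc R' N' → R' ≤ A → R ≤ R' → R' = R) :
    A ≤ R ⊔ cen R N h.nN := by
  have hRn : R.Normal := h.nR
  have hCn : (cen R N h.nN).Normal := cen_normal R N h.nR h.nN
  have hVn : V.Normal := hV.nV
  by_contra hcon
  have hUn : (R ⊔ cen R N h.nN).Normal := inferInstance
  have hlt : R ⊔ cen R N h.nN < A ⊔ (R ⊔ cen R N h.nN) :=
    lt_of_le_of_ne le_sup_right fun e => hcon (le_sup_left.trans e.symm.le)
  obtain ⟨A₁, hA₁⟩ := (Set.toFinite {M : Subgroup K | M.Normal ∧ R ⊔ cen R N h.nN ≤ M ∧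
    M < A ⊔ (R ⊔ cen R N h.nN)}).exists_maximal ⟨R ⊔ cen R N h.nN, hUn, le_rfl, hlt⟩
  have a1 : A₁.Normal := hA₁.prop.1
  have a2 : R ⊔ cen R N h.nN ≤ A₁ := hA₁.prop.2.1
  have a3 : A₁ < A ⊔ (R ⊔ cen R N h.nN) := hA₁.prop.2.2
  have a4 : ∀ M : Subgroup K, M.Normal → A₁ ≤ M → M ≤ A ⊔ (R ⊔ cen R N h.nN) →
      M = A₁ ∨ M = A ⊔ (R ⊔ cen R N h.nN) := by
    intro M hM h5 h6
    by_cases h7 : M = A ⊔ (R ⊔ cen R N h.nN)
    · exact Or.inr h7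
    · exact Or.inl (le_antisymm (hA₁.le_of_ge ⟨hM, a2.trans h5, lt_of_le_of_ne h6 h7⟩ h5) h5)
  have hVR : V ≤ R := hV.le R h.nR h.ne_bot
  have hcomm : ⁅V, R⁆ ≤ ⊥ := by
    rw [Subgroup.commutator_comm]
    exact (le_cen_iff inferInstance).1 (hR.trans hAV)
  have hle : A ⊔ (R ⊔ cen R N h.nN) ≤ cen R N h.nN ⊔ cen V ⊥ inferInstance :=
    sup_le (hAV.trans le_sup_right) (sup_le ((hR.trans hAV).trans le_sup_right) le_sup_left)
  have hd := hD R N V ⊥ h hVn inferInstance (bot_lt_iff_ne_bot.2 hV.ne) hVR hcomm A₁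
    (A ⊔ (R ⊔ cen R N h.nN)) a1 inferInstance (le_sup_left.trans a2) (le_sup_right.trans a2) a3 hle
  obtain ⟨R', N', h', h8, h9⟩ := exists_loc_of_chief hA hUn a1 a2 a3 a4 hd
  have h10 : ¬ R' ≤ cen R N h.nN := fun h11 => h9 (h11.trans (le_sup_right.trans a2))
  have h12 : R ≤ R' := loc_le_of_not_cen h h'.nR h10
  have h13 : R' = R := htop R' N' h' h8 h12
  exact h9 (h13.le.trans (le_sup_left.trans a2))

end Inn

end MP799fdf
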