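import Pool.Agent.Lib.MP_799fdf_al.Inn.HTB

/-! # Maximal local subgroups: elementary facts -/

set_option autoImplicit false

open scoped commutatorElement

namespace MP799fdf

namespace Inn

variable {K : Type} [Group K] [Finite K]

/-- PROOF. Otherwise `R ≤ R'` (`loc_le_of_not_cen`) and `R' = R`. -/
theorem top_cen {A R N R' N' : Subgroup K} (h : Loc R N) (h' : Loc R' N') (hR' : R' ≤ A)
    (htop : ∀ R' N' : Subgroup K, Loc R' N' → R' ≤ A → R ≤ R' → R' = R) (hne : R ≠ R') :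
    R' ≤ cen R N h.nN := by
  by_contra hn
  exact hne (htop R' N' h' hR' (loc_le_of_not_cen h h'.nR hn)).symm

/-- PROOF. `R ⊓ R'` is normal and `≤ R`; if it is `R` then `R ≤ R'`. -/
theorem top_inf {A R N R' N' : Subgroup K} (h : Loc R N) (h' : Loc R' N') (hR' : R' ≤ A)
    (htop : ∀ R' N' : Subgroup K, Loc R' N' → R' ≤ A → R ≤ R' → R' = R) (hne : R ≠ R') :
    R ⊓ R' ≤ N := by
  have h1 : R.Normal := h.nR
  have h2 : R'.Normal := h'.nR
  rcases h.max (R ⊓ R') (Subgroup.normal_inf_normal R R') inf_le_left with h3 | h3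
  · exact h3
  · exact absurd (htop R' N' h' hR' (inf_eq_left.1 h3)).symm hne

/-- PROOF. `HT t N` by `hS`, so `N ≤ S₀`. If `Loc R' N'`, `R' ≤ S`, `R ≤ R'`, `R' ≠ R` then `R ≤ N'`
(`h'.max`) and `N' ≤ S₀` (as `HT t N'`), a contradiction. -/
theorem top_of_ht {t : ℕ} {S S₀ : Subgroup K} (hS : HT (t + 1) S)
    (h0 : ∀ T : Subgroup K, T.Normal → HT t T → T ≤ S₀) {R N : Subgroup K} (h : Loc R N)
    (hR : R ≤ S) (hR0 : ¬ R ≤ S₀) :
    N ≤ S₀ ∧ ∀ R' N' : Subgroup K, Loc R' N' → R' ≤ S → R ≤ R' → R' = R := by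
  refine ⟨h0 N h.nN (hS R N h hR), ?_⟩
  intro R' N' h' hR' hle
  rcases h'.max R h.nR hle with h1 | h1
  · exact absurd (h1.trans (h0 N' h'.nN (hS R' N' h' hR'))) hR0
  · exact h1.symm

end Inn

end MP799fdf
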