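import Pool.Agent.Lib.MP_799fdf_al.Inn.SemA2
import Pool.Agent.Lib.MP_799fdf_al.Inn.TopA
import Pool.Agent.Lib.MP_799fdf_al.Inn.TopB

/-! # Elimination of all nonabelian sections -/

set_option autoImplicit false

open scoped commutatorElement

namespace MP799fdf

namespace Inn

variable {K ι X : Type} [Group K] [Finite K] [DecidableEq ι] [Fintype ι] [DecidableEq X]
  {B : Finset ι → Subgroup K} {Y : Set X}

/-- Elimination of the maximal local subgroups of `A`.

PROOF. The maximal local subgroups of `A`: the finite type `J` of all `R` with `∃ N, Loc R N`, `R ≤ A`,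
and `∀ R' N', Loc R' N' → R' ≤ A → R ≤ R' → R' = R`; choose `N R` for `R : J`. For a finset `s` of `J` let
`A s = A ⊓ ⨅ R ∈ s, cen R (N R)`. By induction on `s`: `v ∈ WW B Y (A s) Z` for all `|Z| ≤ q`. For
`insert R s`: `A (insert R s) = A s ⊓ cen R (N R)`; use `ww_inf_cen` for `A s` (normal, `cen_normal`):
`R ≤ A s` by `top_cen` (for `R' ∈ s`, `R ≤ cen R' (N R')` as `R' ≠ R`), `A s ≤ A ≤ R ⊔ cen R (N R)` by
`top_le`, and `ww_cen` for the values. Let `A' = A univ`. `HT t A'`: let `Loc R N`, `R ≤ A'`. `R` is not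
maximal in `A`: otherwise `R ≤ cen R (N R)`, against `loc_inf_cen`. So there is `Loc R' N'`, `R' ≤ A`,
`R ≤ R'`, `R' ≠ R`, and `R ≤ N'` (`max`), `HT t N'`. If `t = 0` this is a contradiction, if `t = s + 1` then
`HT s N`. -/
theorem elim_level (hD : D2 K) {V : Subgroup K} (hV : IsMono V)
    (hBa : ∀ S T, S ⊆ T → B T ≤ B S) (hBn : ∀ T, (B T).Normal)
    (hBc : ∀ S T, ⁅B S, B T⁆ ≤ B (S ∪ T)) {l : ℕ} (hl : ∀ T : Finset ι, l < T.card → B T = ⊥)
    {q : ℕ} (hq : l ≤ q) {t : ℕ} {A : Subgroup K} (hA : A.Normal)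
    (hAV : A ≤ cen V ⊥ inferInstance) (hH : HT (t + 1) A) :
    ∃ A' : Subgroup K, A'.Normal ∧ A' ≤ A ∧ HT t A' ∧ ∀ v : Emb ι Y → K,
      (∀ Z : Finset X, Z.card ≤ q → v ∈ WW B Y A Z) →
      ∀ Z : Finset X, Z.card ≤ q → v ∈ WW B Y A' Z := by
  classical
  let P : Subgroup K → Prop := fun R => (∃ N, Loc R N) ∧ R ≤ A ∧
    ∀ R' N' : Subgroup K, Loc R' N' → R' ≤ A → R ≤ R' → R' = R
  have : Fintype {R : Subgroup K // P R} := Fintype.ofFinite _
  choose N hN using fun R : {R : Subgroup K // P R} => R.2.1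
  let f : {R : Subgroup K // P R} → Subgroup K := fun R => cen R.1 (N R) (hN R).nN
  have hfn : ∀ R, (f R).Normal := fun R => cen_normal _ _ (hN R).nR (hN R).nN
  have hsn : ∀ s : Finset {R : Subgroup K // P R}, (s.inf f).Normal := by
    intro s
    induction s using Finset.induction_on with
    | empty =>
      rw [Finset.inf_empty]
      infer_instance
    | insert R s _ ih =>
      rw [Finset.inf_insert]
      have h1 := hfn R
      infer_instance
  have hAn : ∀ s : Finset {R : Subgroup K // P R}, (A ⊓ s.inf f).Normal := by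
    intro s
    have h1 := hsn s
    infer_instance
  have hww : ∀ (v : Emb ι Y → K), (∀ Z : Finset X, Z.card ≤ q → v ∈ WW B Y A Z) →
      ∀ s : Finset {R : Subgroup K // P R}, ∀ Z : Finset X, Z.card ≤ q →
        v ∈ WW B Y (A ⊓ s.inf f) Z := by
    intro v hv s
    induction s using Finset.induction_on with
    | empty =>
      intro Z hZ
      rw [Finset.inf_empty, inf_top_eq]
      exact hv Z hZ
    | insert R s hRs ih =>
      intro Z hZ
      have e : A ⊓ (insert R s).inf f = (A ⊓ s.inf f) ⊓ cen R.1 (N R) (hN R).nN := by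
        rw [Finset.inf_insert, inf_comm (f R), ← inf_assoc]
      rw [e]
      refine ww_inf_cen hBa hBn hBc hl (hN R) (hAn s) (le_inf R.2.2.1 (Finset.le_inf ?_))
        (inf_le_left.trans (top_le hD hV hA hAV (hN R) R.2.2.1 R.2.2.2)) Z (ih Z hZ)
        (fun c => ww_cen hBa hBn hBc hl (hN R) hq ih c)
      intro R' hR'
      refine top_cen (hN R') (hN R) R.2.2.1 R'.2.2.2 fun h => ?_
      have h2 : R' = R := Subtype.ext h
      rw [h2] at hR'
      exact hRs hR'
  have hnot : ∀ R N' : Subgroup K, Loc R N' → R ≤ A ⊓ Finset.univ.inf f →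
      ∃ R' N'' : Subgroup K, Loc R' N'' ∧ R' ≤ A ∧ R ≤ N'' := by
    intro R N' h hR
    have hRA : R ≤ A := hR.trans inf_le_left
    by_contra hcon
    have hP : P R := by
      refine ⟨⟨N', h⟩, hRA, fun R' N'' h' hR' hle => ?_⟩
      rcases h'.max R h.nR hle with h1 | h1
      · exact absurd ⟨R', N'', h', hR', h1⟩ hcon
      · exact h1.symm
    have h1 : R ≤ cen R (N ⟨R, hP⟩) (hN ⟨R, hP⟩).nN :=
      (hR.trans inf_le_right).trans (Finset.inf_le (f := f) (Finset.mem_univ ⟨R, hP⟩))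
    have h2 : R ≤ N ⟨R, hP⟩ := (le_inf le_rfl h1).trans (loc_inf_cen (hN ⟨R, hP⟩))
    exact absurd h2 (not_le_of_gt (hN ⟨R, hP⟩).lt)
  refine ⟨A ⊓ Finset.univ.inf f, hAn _, inf_le_left, ?_, fun v hv => hww v hv _⟩
  cases t with
  | zero =>
    intro R N' h hR
    obtain ⟨R', N'', h', hR', hle⟩ := hnot R N' h hR
    exact hH R' N'' h' hR' R N' h hle
  | succ s =>
    intro R N' h hR
    obtain ⟨R', N'', h', hR', hle⟩ := hnot R N' h hR
    exact hH R' N'' h' hR' R N' h hle

end Inn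

end MP799fdf
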